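import Pool.Agent.Lib.MP_72e2e6_nt.WP.Lo.Spec

/-!
# MP_72e2e6_nt, theorem T3 for odd characteristic, block Lo: points with close coordinates
-/

namespace Pool.Agent.MP72V

open Polynomial WeierstrassCurve
open Pool.Agent.MP72W (pmap)
open Pool.Agent.MP72P (EqN Kvs Kgs nm op rsH)
open Pool.Agent

open scoped Classical

section na

variable {L : Type} [Field L] {a : AbsoluteValue L ℝ}

private theorem cls_lt (ha : IsNonarchimedean a) {x y : L} {C : ℝ} (hx : a x < C) (hy : a y < C) :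
    a (x + y) < C := (ha x y).trans_lt (max_lt hx hy)

private theorem cls_le (ha : IsNonarchimedean a) {x y : L} {C : ℝ} (hx : a x ≤ C) (hy : a y ≤ C) :
    a (x + y) ≤ C := (ha x y).trans (max_le hx hy)

private theorem cls_eq (ha : IsNonarchimedean a) {x y : L} (h : a y < a x) : a (x + y) = a x := by
  refine le_antisymm (cls_le ha le_rfl h.le) ?_
  by_contra h1
  push Not at h1
  have h2 : x = (x + y) + -y := by ring
  have h3 : a x < a x := by
    conv_lhs => rw [h2]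
    refine cls_lt ha h1 ?_
    rw [AbsoluteValue.map_neg]
    exact h
  exact lt_irrefl _ h3

/-- The abscissa of the difference is dominated by the square of the slope. -/
private theorem cls_dom (ha : IsNonarchimedean a) {l u x x' : L} {B : ℝ} (hu : a u ≤ B)
    (hx : a x ≤ B) (hx' : a x' ≤ B) (hl : B < a l ^ 2) : a (l ^ 2 - u - x' - x) = a l ^ 2 := by
  have h1 : l ^ 2 - u - x' - x = l ^ 2 + (-u + (-x' + -x)) := by ring
  rw [h1, cls_eq ha, map_pow]
  rw [map_pow]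
  refine lt_of_le_of_lt (cls_le ha ?_ (cls_le ha ?_ ?_)) hl
  · rw [AbsoluteValue.map_neg]; exact hu
  · rw [AbsoluteValue.map_neg]; exact hx'
  · rw [AbsoluteValue.map_neg]; exact hx

/-- The elimination constant. -/
private theorem cls_kap (ha : IsNonarchimedean a) {a₂ a₄ a₆ D : L} {R : ℝ} (hR : 0 ≤ R)
    (hD0 : D ≠ 0)
    (hD : ∀ x : L, D = ((18 * a₄ - 6 * a₂ ^ 2) * x + (15 * a₂ * a₄ - 4 * a₂ ^ 3 - 27 * a₆)) *
      (x ^ 3 + a₂ * x ^ 2 + a₄ * x + a₆) -
      ((6 * a₄ - 2 * a₂ ^ 2) * x ^ 2 + (7 * a₂ * a₄ - 2 * a₂ ^ 3 - 9 * a₆) * x +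
        (4 * a₄ ^ 2 - a₂ ^ 2 * a₄ - 3 * a₂ * a₆)) * (3 * x ^ 2 + 2 * a₂ * x + a₄)) :
    ∃ κ : ℝ, 0 < κ ∧ ∀ x : L, a x ≤ R → κ ≤ a (x ^ 3 + a₂ * x ^ 2 + a₄ * x + a₆) ∨
      κ ≤ a (3 * x ^ 2 + 2 * a₂ * x + a₄) := by
  obtain ⟨u1, hu1⟩ : ∃ u, u = 18 * a₄ - 6 * a₂ ^ 2 := ⟨_, rfl⟩
  obtain ⟨u0, hu0⟩ : ∃ u, u = 15 * a₂ * a₄ - 4 * a₂ ^ 3 - 27 * a₆ := ⟨_, rfl⟩
  obtain ⟨v2, hv2⟩ : ∃ u, u = 6 * a₄ - 2 * a₂ ^ 2 := ⟨_, rfl⟩
  obtain ⟨v1, hv1⟩ : ∃ u, u = 7 * a₂ * a₄ - 2 * a₂ ^ 3 - 9 * a₆ := ⟨_, rfl⟩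
  obtain ⟨v0, hv0⟩ : ∃ u, u = 4 * a₄ ^ 2 - a₂ ^ 2 * a₄ - 3 * a₂ * a₆ := ⟨_, rfl⟩
  rw [← hu1, ← hu0, ← hv2, ← hv1, ← hv0] at hD
  have n1 : 0 ≤ a u1 := a.nonneg _
  have n2 : 0 ≤ a u0 := a.nonneg _
  have n3 : 0 ≤ a v2 := a.nonneg _
  have n4 : 0 ≤ a v1 := a.nonneg _
  have n5 : 0 ≤ a v0 := a.nonneg _
  obtain ⟨C, hC⟩ : ∃ C : ℝ, C = 1 + a u1 * R + a u0 + a v2 * R ^ 2 + a v1 * R + a v0 := ⟨_, rfl⟩
  have m1 : 0 ≤ a u1 * R := mul_nonneg n1 hR
  have m2 : 0 ≤ a v2 * R ^ 2 := mul_nonneg n3 (by positivity)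
  have m3 : 0 ≤ a v1 * R := mul_nonneg n4 hR
  have hC0 : 0 < C := by rw [hC]; linarith
  have hDp : 0 < a D := a.pos hD0
  refine ⟨a D / C, div_pos hDp hC0, fun x hx => ?_⟩
  by_contra hcon
  push Not at hcon
  obtain ⟨h1, h2⟩ := hcon
  rw [lt_div_iff₀ hC0] at h1 h2
  have hnx : 0 ≤ a x := a.nonneg _
  have e1 : a (u1 * x + u0) ≤ C := by
    refine cls_le ha ?_ (by rw [hC]; linarith)
    rw [map_mul]
    have := mul_le_mul_of_nonneg_left hx n1
    rw [hC]; linarith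
  have e2 : a (v2 * x ^ 2 + v1 * x + v0) ≤ C := by
    refine cls_le ha (cls_le ha ?_ ?_) (by rw [hC]; linarith)
    · rw [map_mul, map_pow]
      have := mul_le_mul_of_nonneg_left (pow_le_pow_left₀ hnx hx 2) n3
      rw [hC]; linarith
    · rw [map_mul]
      have := mul_le_mul_of_nonneg_left hx n4
      rw [hC]; linarith
  have h3 : a D < a D := by
    conv_lhs => rw [hD x, sub_eq_add_neg]
    refine cls_lt ha ?_ ?_
    · rw [map_mul]
      calc _ ≤ C * a (x ^ 3 + a₂ * x ^ 2 + a₄ * x + a₆) :=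
            mul_le_mul_of_nonneg_right e1 (a.nonneg _)
        _ < a D := by rw [mul_comm]; exact h1
    · rw [AbsoluteValue.map_neg, map_mul]
      calc _ ≤ C * a (3 * x ^ 2 + 2 * a₂ * x + a₄) :=
            mul_le_mul_of_nonneg_right e2 (a.nonneg _)
        _ < a D := by rw [mul_comm]; exact h2
  exact lt_irrefl _ h3

/-- The numerical heart of the estimate. -/
private theorem cls_core (ha : IsNonarchimedean a) (h2 : a 2 = 1) {a₂ a₄ a₆ : L} {R κ t : ℝ}
    (hR : 1 ≤ R) (h2R : a a₂ < R) (hκ : 0 < κ)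
    (hκx : ∀ x : L, a x ≤ R → κ ≤ a (x ^ 3 + a₂ * x ^ 2 + a₄ * x + a₆) ∨
      κ ≤ a (3 * x ^ 2 + 2 * a₂ * x + a₄)) (ht1 : 1 < t) (ht : R ^ 3 < κ * t)
    {x y x' y' l : L} (hxy : y ^ 2 = x ^ 3 + a₂ * x ^ 2 + a₄ * x + a₆)
    (hxy' : y' ^ 2 = x' ^ 3 + a₂ * x' ^ 2 + a₄ * x' + a₆) (hne : x' ≠ x)
    (hx : a (x' - x) * t ≤ a x) (hy : a (y' - y) * t ≤ a y)
    (hbig : R ≤ a x → a y ^ 2 = a x ^ 3) (hsm : a x < R → a y ^ 2 ≤ R ^ 3)
    (hl : l * (x' - x) = y' + y) :
    min R (min (κ / R ^ 2) (κ ^ 2 / R ^ 3)) * t ^ 2 ≤ a (l ^ 2 - a₂ - x' - x) := by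
  have hR0 : 0 < R := by linarith
  have ht0 : 0 < t := by linarith
  have hd : x' - x ≠ 0 := sub_ne_zero.2 hne
  have hdp : 0 < a (x' - x) := a.pos hd
  have hdx : a (x' - x) < a x := by
    refine lt_of_lt_of_le ?_ hx
    calc a (x' - x) = a (x' - x) * 1 := (mul_one _).symm
      _ < a (x' - x) * t := mul_lt_mul_of_pos_left ht1 hdp
  have hx0 : 0 < a x := hdp.trans hdx
  have hxx : a x' = a x := by
    have h1 : x' = x + (x' - x) := by ring
    rw [h1, cls_eq ha hdx]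
  have hyy : 0 < a y → a (y' + y) = a y := by
    intro hy0
    have h1 : y' + y = 2 * y + (y' - y) := by ring
    have h3 : a (2 * y) = a y := by rw [map_mul, h2, one_mul]
    rw [h1, cls_eq ha, h3]
    rw [h3]
    rcases eq_or_ne (y' - y) 0 with h0 | h0
    · rw [h0, map_zero]; exact hy0
    · refine lt_of_lt_of_le ?_ hy
      calc a (y' - y) = a (y' - y) * 1 := (mul_one _).symm
        _ < a (y' - y) * t := mul_lt_mul_of_pos_left ht1 (a.pos h0)
  have hla : a l * a (x' - x) = a (y' + y) := by rw [← map_mul, hl]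
  have hl0 : 0 ≤ a l := a.nonneg _
  have ht2 : 1 < t ^ 2 := by nlinarith
  rcases le_or_gt R (a x) with hc | hc
  · -- case (A)
    have hy2 := hbig hc
    have hyp : 0 < a y := by
      by_contra h0
      have h1 : a y = 0 := le_antisymm (not_lt.1 h0) (a.nonneg _)
      rw [h1] at hy2
      have : 0 < a x ^ 3 := by positivity
      nlinarith
    rw [hyy hyp] at hla
    have h3 : a x * t ^ 2 ≤ a l ^ 2 := by
      have h4 : (a (x' - x) * t) ^ 2 ≤ a x ^ 2 := pow_le_pow_left₀ (by positivity) hx 2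
      have h5 : (a l * a (x' - x)) ^ 2 = a x ^ 3 := by rw [hla, hy2]
      have h6 : a x ^ 3 * t ^ 2 ≤ a l ^ 2 * a x ^ 2 := by
        calc a x ^ 3 * t ^ 2 = a l ^ 2 * (a (x' - x) * t) ^ 2 := by rw [← h5]; ring
          _ ≤ a l ^ 2 * a x ^ 2 := mul_le_mul_of_nonneg_left h4 (by positivity)
      have h7 : a x ^ 3 * t ^ 2 = (a x * t ^ 2) * a x ^ 2 := by ring
      rw [h7] at h6
      exact le_of_mul_le_mul_right h6 (by positivity)
    have h4 : a x < a x * t ^ 2 := by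
      calc a x = a x * 1 := (mul_one _).symm
        _ < a x * t ^ 2 := mul_lt_mul_of_pos_left ht2 hx0
    rw [cls_dom ha (B := a x) (h2R.le.trans hc) le_rfl hxx.le (h4.trans_le h3)]
    calc _ ≤ R * t ^ 2 := mul_le_mul_of_nonneg_right (min_le_left _ _) (by positivity)
      _ ≤ a x * t ^ 2 := mul_le_mul_of_nonneg_right hc (by positivity)
      _ ≤ _ := h3
  · -- case (B)
    have hR1 : 1 ≤ R ^ 2 := one_le_pow₀ hR
    have hdR : a (x' - x) * t ≤ R := hx.trans hc.le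
    rcases hκx x hc.le with hk | hk
    · -- (B1)
      rw [← hxy, map_pow] at hk
      have hyp : 0 < a y := by
        by_contra h0
        have h1 : a y = 0 := le_antisymm (not_lt.1 h0) (a.nonneg _)
        rw [h1] at hk
        norm_num at hk
        linarith
      rw [hyy hyp] at hla
      have h3 : κ * t ^ 2 ≤ a l ^ 2 * R ^ 2 := by
        calc κ * t ^ 2 ≤ a y ^ 2 * t ^ 2 := mul_le_mul_of_nonneg_right hk (by positivity)
          _ = a l ^ 2 * (a (x' - x) * t) ^ 2 := by rw [← hla]; ring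
          _ ≤ a l ^ 2 * R ^ 2 := mul_le_mul_of_nonneg_left
            (pow_le_pow_left₀ (by positivity) hdR 2) (by positivity)
      have h4 : κ / R ^ 2 * t ^ 2 ≤ a l ^ 2 := by
        rw [div_mul_eq_mul_div, div_le_iff₀ (by positivity)]
        exact h3
      have h5 : R < a l ^ 2 := by
        have h6 : R ^ 3 < a l ^ 2 * R ^ 2 := by
          refine lt_of_lt_of_le ht (le_trans ?_ h3)
          have : t ≤ t ^ 2 := by nlinarith
          exact mul_le_mul_of_nonneg_left this hκ.le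
        have h7 : R ^ 3 = R * R ^ 2 := by ring
        rw [h7] at h6
        exact lt_of_mul_lt_mul_right h6 (by positivity)
      rw [cls_dom ha (B := R) h2R.le hc.le (hxx.le.trans hc.le) h5]
      refine le_trans ?_ h4
      exact mul_le_mul_of_nonneg_right ((min_le_right _ _).trans (min_le_left _ _)) (by positivity)
    · -- (B2)
      obtain ⟨n, hn⟩ : ∃ n, n = x' ^ 2 + x * x' + x ^ 2 + a₂ * (x + x') + a₄ := ⟨_, rfl⟩
      have h3 : n = (3 * x ^ 2 + 2 * a₂ * x + a₄) + (x' - x) * (x' + (2 * x + a₂)) := by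
        rw [hn]; ring
      have h4 : a ((x' - x) * (x' + (2 * x + a₂))) < κ := by
        rw [map_mul]
        have h5 : a (x' + (2 * x + a₂)) ≤ R := by
          refine cls_le ha (hxx.le.trans hc.le) (cls_le ha ?_ h2R.le)
          rw [map_mul, h2, one_mul]
          exact hc.le
        have h6 : a (x' - x) * a (x' + (2 * x + a₂)) * t < κ * t := by
          calc _ = (a (x' - x) * t) * a (x' + (2 * x + a₂)) := by ring
            _ ≤ R * R := mul_le_mul hdR h5 (a.nonneg _) hR0.le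
            _ ≤ R ^ 3 := by nlinarith
            _ < κ * t := ht
        exact lt_of_mul_lt_mul_right h6 ht0.le
      have h5 : κ ≤ a n := by
        rw [h3, cls_eq ha (h4.trans_le hk)]
        exact hk
      have h6 : l * (y' - y) = n := by
        have h7 : (x' - x) * (l * (y' - y)) = (x' - x) * n := by
          rw [hn]
          linear_combination (y' - y) * hl + hxy' - hxy
        exact mul_left_cancel₀ hd h7
      have h7 : κ * t ≤ a l * a y := by
        calc κ * t ≤ a n * t := mul_le_mul_of_nonneg_right h5 ht0.le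
          _ = a l * (a (y' - y) * t) := by rw [← h6, map_mul]; ring
          _ ≤ a l * a y := mul_le_mul_of_nonneg_left hy hl0
      have h8 : κ ^ 2 * t ^ 2 ≤ a l ^ 2 * R ^ 3 := by
        calc κ ^ 2 * t ^ 2 = (κ * t) ^ 2 := by ring
          _ ≤ (a l * a y) ^ 2 := pow_le_pow_left₀ (by positivity) h7 2
          _ = a l ^ 2 * a y ^ 2 := by ring
          _ ≤ a l ^ 2 * R ^ 3 := mul_le_mul_of_nonneg_left (hsm hc) (by positivity)
      have h9 : κ ^ 2 / R ^ 3 * t ^ 2 ≤ a l ^ 2 := by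
        rw [div_mul_eq_mul_div, div_le_iff₀ (by positivity)]
        exact h8
      have h10 : R < a l ^ 2 := by
        have h11 : R ^ 3 * R ^ 3 < a l ^ 2 * R ^ 3 := by
          calc R ^ 3 * R ^ 3 < (κ * t) * (κ * t) := mul_lt_mul'' ht ht (by positivity)
                (by positivity)
            _ = κ ^ 2 * t ^ 2 := by ring
            _ ≤ _ := h8
        have h12 : R ^ 3 < a l ^ 2 := lt_of_mul_lt_mul_right h11 (by positivity)
        refine lt_of_le_of_lt ?_ h12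
        nlinarith
      rw [cls_dom ha (B := R) h2R.le hc.le (hxx.le.trans hc.le) h10]
      refine le_trans ?_ h9
      exact mul_le_mul_of_nonneg_right ((min_le_right _ _).trans (min_le_right _ _))
        (by positivity)

end na

theorem tCls (h1 : S_Pts) (h2 : S_Sbg) : S_Cls := by
  intro L _ a ha ha2 W hW
  have h20 : (2 : L) ≠ 0 := by
    intro h
    rw [h, map_zero] at ha2
    exact zero_ne_one ha2
  obtain ⟨q1, q2, -, q4, q5, q6, q7, -, -, -⟩ := h1 L h20 W hW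
  obtain ⟨R, hRdef⟩ : ∃ R : ℝ, R = 1 + a W.a₂ + a W.a₄ + a W.a₆ := ⟨_, rfl⟩
  have p2 : 0 ≤ a W.a₂ := a.nonneg _
  have p4 : 0 ≤ a W.a₄ := a.nonneg _
  have p6 : 0 ≤ a W.a₆ := a.nonneg _
  have hR1 : 1 ≤ R := by rw [hRdef]; linarith
  have hR2 : R ≤ R ^ 2 := by nlinarith
  have hR3 : R ≤ R ^ 3 := by nlinarith
  have hL : Lgc a W R := ⟨hR1, by rw [hRdef]; linarith,
    lt_of_lt_of_le (by rw [hRdef]; linarith) hR2, lt_of_lt_of_le (by rw [hRdef]; linarith) hR3⟩
  obtain ⟨-, -, -, -, s5, s6⟩ := h2 L a ha h20 W hW R hL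
  obtain ⟨D, hDdef⟩ : ∃ D : L, D = W.a₂ ^ 2 * W.a₄ ^ 2 - 4 * W.a₄ ^ 3 - 4 * W.a₂ ^ 3 * W.a₆ -
    27 * W.a₆ ^ 2 + 18 * W.a₂ * W.a₄ * W.a₆ := ⟨_, rfl⟩
  have hΔ : W.Δ = 16 * D := by
    rw [hDdef, WeierstrassCurve.Δ, WeierstrassCurve.b₂, WeierstrassCurve.b₄,
      WeierstrassCurve.b₆, WeierstrassCurve.b₈, hW.a1, hW.a3]
    ring
  have hD0 : D ≠ 0 := by
    rintro rfl
    have := hW.dis
    rw [hΔ, mul_zero] at this
    exact not_isUnit_zero this
  obtain ⟨κ, hκ, hκx⟩ := cls_kap ha (a₂ := W.a₂) (a₄ := W.a₄) (a₆ := W.a₆) (D := D) (R := R)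
    (by linarith) hD0 (fun x => by rw [hDdef]; ring)
  refine ⟨min R (min (κ / R ^ 2) (κ ^ 2 / R ^ 3)), 2 + R ^ 3 / κ,
    lt_min (by linarith) (lt_min (by positivity) (by positivity)), ?_, ?_⟩
  · have : 0 < R ^ 3 / κ := by positivity
    linarith
  · intro t P P' ht hP hP' hx hy
    have ht' : R ^ 3 / κ < t := by linarith
    have ht1 : 1 < t := by
      have : 0 < R ^ 3 / κ := by positivity
      linarith
    rw [div_lt_iff₀ hκ, mul_comm] at ht'
    rcases q1 P with rfl | ⟨x, y, hxy⟩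
    · exact absurd rfl hP
    rcases q1 P' with rfl | ⟨x', y', hxy'⟩
    · exact absurd rfl hP'
    obtain ⟨-, k1, k2, k3⟩ := q2 P x y hxy
    obtain ⟨-, k1', k2', k3'⟩ := q2 P' x' y' hxy'
    have s5' := s5 P hP
    have s6' := s6 P hP
    rw [k1, k2] at s5' s6'
    rw [k1, k1'] at hx
    rw [k2, k2'] at hy
    rcases eq_or_ne P' P with he | he
    · left
      rw [he, sub_self]
    right
    have hne : x' ≠ x := by
      intro h
      subst h
      rcases q6 P P' x' y y' hxy hxy' with h3 | h3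
      · exact he h3
      · have h4 := q5 P x' y hxy
        rw [← h3] at h4
        have h5 : y' = -y := by
          have := (q2 P' x' (-y) h4).2.2.1
          rw [← k2', this]
        rw [h5] at hy
        have h6 : a (-y - y) = a y := by
          have : -y - y = -(2 * y) := by ring
          rw [this, AbsoluteValue.map_neg, map_mul, ha2, one_mul]
        rw [h6] at hy
        have h7 : a y = 0 := by
          by_contra h8
          have h9 : 0 < a y := lt_of_le_of_ne (a.nonneg _) (Ne.symm h8)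
          nlinarith
        have h8 : y = 0 := a.eq_zero.1 h7
        apply he
        rw [h8] at hxy h5
        rw [h5, neg_zero] at hxy'
        exact q4 P' P x' 0 hxy' hxy
    have h3 := q7 P' (-P) x' y' x (-y) ((y' - -y) / (x' - x)) hxy' (q5 P x y hxy) hne rfl
    rw [← sub_eq_add_neg] at h3
    rw [(q2 _ _ _ h3).2.1]
    refine cls_core ha ha2 hR1 hL.c2 hκ hκx ht1 ht' k3 k3' hne hx hy s5' s6' ?_
    rw [div_mul_cancel₀ _ (sub_ne_zero.2 hne), sub_neg_eq_add]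

end Pool.Agent.MP72V
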