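import Pool.Agent.Lib.MP_72e2e6_nt.WP.Lo.Spec

/-!
# MP_72e2e6_nt, T3 for odd characteristic, block Lo: local points for deeply ramified `D`
-/

namespace Pool.Agent.MP72V

open Polynomial WeierstrassCurve
open Pool.Agent.MP72W (pmap)
open Pool.Agent.MP72P (EqN Kvs Kgs nm op rsH)
open Pool.Agent

open scoped Classical

/-! ### Group theory -/

private theorem Deep_ker {G H : Type} [AddCommGroup G] [AddCommGroup H] (p : ℕ) [Fact p.Prime]
    (F : G → H) (V : H → G) (hF : ∀ a b, F a = F b → a = b) (hVF : ∀ a, V (F a) = p • a)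
    (hfin : {X | V X = 0}.Finite) (hcard : {X | V X = 0}.ncard ≤ p) (T0 : G) (hT0 : T0 ≠ 0)
    (hp : p • T0 = 0) :
    (∀ X, V X = 0 → ∃ m < p, X = F (m • T0)) ∧ ∀ Y, p • Y = 0 → ∃ m < p, Y = m • T0 := by
  have hord : addOrderOf T0 = p := addOrderOf_eq_prime hp hT0
  have hinj : Set.InjOn (fun m : ℕ => F (m • T0)) (Finset.range p : Set ℕ) := by
    intro m hm n hn hmn
    have h1 := hF _ _ hmn
    rw [Finset.coe_range] at hm hn
    have := nsmul_injOn_Iio_addOrderOf (x := T0)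
    rw [hord] at this
    exact this hm hn h1
  have hsub : (fun m : ℕ => F (m • T0)) '' (Finset.range p : Set ℕ) ⊆ {X | V X = 0} := by
    rintro _ ⟨m, -, rfl⟩
    show V (F (m • T0)) = 0
    rw [hVF, smul_comm, hp, smul_zero]
  have heq := Set.eq_of_subset_of_ncard_le hsub (by
    rw [Set.InjOn.ncard_image hinj, Set.ncard_coe_finset, Finset.card_range]
    exact hcard) hfin
  have h1 : ∀ X, V X = 0 → ∃ m < p, X = F (m • T0) := by
    intro X hX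
    have h2 : X ∈ (fun m : ℕ => F (m • T0)) '' (Finset.range p : Set ℕ) := by
      rw [heq]
      exact hX
    obtain ⟨m, hm, hmX⟩ := h2
    rw [Finset.coe_range] at hm
    exact ⟨m, hm, hmX.symm⟩
  refine ⟨h1, fun Y hY => ?_⟩
  obtain ⟨m, hm, hmY⟩ := h1 (F Y) (by rw [hVF, hY])
  exact ⟨m, hm, hF _ _ hmY⟩

private theorem Deep_fix {G : Type} [AddCommGroup G] (p : ℕ) [Fact p.Prime] (T0 : G)
    (hp : p • T0 = 0) (g : G →+ G) (m : ℕ) (hm0 : m ≠ 0) (hm : m < p)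
    (h : g (m • T0) = m • T0) : g T0 = T0 := by
  have hcop : Nat.Coprime m p := by
    rw [Nat.coprime_comm, Nat.Prime.coprime_iff_not_dvd Fact.out]
    intro hd
    exact absurd (Nat.le_of_dvd (Nat.pos_of_ne_zero hm0) hd) (not_le.2 hm)
  obtain ⟨n, -, hn⟩ := Nat.exists_mul_mod_eq_one_of_coprime hcop (Fact.out : p.Prime).one_lt
  have h1 : n • m • T0 = T0 := by
    rw [← mul_smul, mul_comm n m, ← Nat.div_add_mod (m * n) p, hn, add_smul, one_smul,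
      mul_comm p, mul_smul, hp, smul_zero, zero_add]
  rw [← h1, map_nsmul, h]

private theorem Deep_core {Γ G0 Gk : Type} [AddCommGroup G0] [AddCommGroup Gk] (p : ℕ)
    [Fact p.Prime] (γ : Γ → G0 →+ G0) (γk : Γ → Gk →+ Gk) (Vn : Gk → G0)
    (hVn : ∀ a b, Vn (a + b) = Vn a + Vn b) (hγ : ∀ g u, Vn (γk g u) = γ g (Vn u))
    (Sc Ss : AddSubgroup G0) (Sk : AddSubgroup Gk) (hcs : Sc ≤ Ss)
    (hSs : ∀ g, ∀ s ∈ Ss, γ g s ∈ Ss) (hSk : ∀ g, ∀ s ∈ Sk, γk g s ∈ Sk)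
    (hL1 : ∀ s ∈ Ss, ∃ u, Vn u = s ∧ u ∈ Sk) (hL2 : ∀ u ∈ Sk, Vn u = 0 → u = 0) (T0 : G0)
    (hp : p • T0 = 0) (hTs : ∀ m : ℕ, m < p → m • T0 ∈ Ss → m • T0 = 0)
    (hkill : ∀ Y, p • Y = 0 → ∃ m < p, Y = m • T0)
    (hb : ∀ P, p • P ∈ Sc → ∃ m < p, P - m • T0 ∈ Ss) (h : Γ → ZMod p)
    (hsur : ∀ c, ∃ g, h g = c) (e : ZMod p → G0) (he0 : ∑ i, e i = 0)
    (he : ∀ g i, e i = γ g (e (i - h g))) (ha : ∀ g, γ g (e 0) - e 0 ∈ Sc) :
    ∃ (m : ℕ) (u : ZMod p → Gk), m < p ∧ (m = 0 ∨ ∀ g, γ g T0 = T0) ∧ ∑ i, u i = 0 ∧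
      (∀ g i, u i = γk g (u (i - h g))) ∧ ∀ i, e i = m • T0 + Vn (u i) := by
  have hg : ∀ g, e (h g) = γ g (e 0) := fun g => by
    have := he g (h g)
    rwa [sub_self] at this
  have hcard : (Finset.univ : Finset (ZMod p)).card = p := by
    rw [Finset.card_univ, ZMod.card]
  have h1 : p • e 0 ∈ Sc := by
    have h2 : p • e 0 = ∑ i : ZMod p, (e 0 - e i) := by
      rw [Finset.sum_sub_distrib, he0, sub_zero, Finset.sum_const, hcard]
    rw [h2]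
    refine Sc.sum_mem fun i _ => ?_
    obtain ⟨g, rfl⟩ := hsur i
    rw [hg, ← neg_sub]
    exact Sc.neg_mem (ha g)
  obtain ⟨m, hm, hms⟩ := hb _ h1
  have hpm : p • m • T0 = 0 := by rw [smul_comm, hp, smul_zero]
  have hfix : ∀ g, γ g (m • T0) = m • T0 := by
    intro g
    have h3 : γ g (m • T0) - m • T0 =
        (γ g (e 0) - e 0) - (γ g (e 0 - m • T0) - (e 0 - m • T0)) := by
      rw [map_sub]
      abel
    have h4 : γ g (m • T0) - m • T0 ∈ Ss := by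
      rw [h3]
      exact Ss.sub_mem (hcs (ha g)) (Ss.sub_mem (hSs g _ hms) hms)
    obtain ⟨m', hm', hY⟩ := hkill (γ g (m • T0) - m • T0) (by
      rw [smul_sub, ← map_nsmul, hpm, map_zero, sub_zero])
    rw [hY] at h4
    rw [hTs m' hm' h4, sub_eq_zero] at hY
    exact hY
  have hs : ∀ i, e i - m • T0 ∈ Ss := by
    intro i
    obtain ⟨g, rfl⟩ := hsur i
    have h5 : e (h g) - m • T0 = γ g (e 0 - m • T0) := by rw [hg, map_sub, hfix]
    rw [h5]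
    exact hSs g _ hms
  choose u hu1 hu2 using fun i => hL1 (e i - m • T0) (hs i)
  let φ : Gk →+ G0 := AddMonoidHom.mk' Vn hVn
  have hφ : ∀ x, Vn x = φ x := fun x => rfl
  have huniq : ∀ x ∈ Sk, ∀ y ∈ Sk, Vn x = Vn y → x = y := by
    intro x hx y hy hxy
    refine sub_eq_zero.1 (hL2 _ (Sk.sub_mem hx hy) ?_)
    rw [hφ, map_sub, ← hφ, ← hφ, hxy, sub_self]
  refine ⟨m, u, hm, ?_, ?_, ?_, ?_⟩
  · by_cases hm0 : m = 0
    · exact Or.inl hm0
    · exact Or.inr fun g => Deep_fix p T0 hp (γ g) m hm0 hm (hfix g)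
  · refine hL2 _ (Sk.sum_mem fun i _ => hu2 i) ?_
    rw [hφ, map_sum]
    have h6 : ∀ i, φ (u i) = e i - m • T0 := fun i => hu1 i
    rw [Finset.sum_congr rfl fun i _ => h6 i, Finset.sum_sub_distrib, he0, Finset.sum_const,
      hcard, hpm, sub_zero]
  · intro g i
    refine huniq _ (hu2 i) _ (hSk g _ (hu2 _)) ?_
    rw [hγ, hu1, hu1, map_sub, hfix, ← he]
  · intro i
    rw [hu1, add_sub_cancel]

/-! ### Points -/

private theorem Deep_XY {L : Type} [Field L] {W : WeierstrassCurve.Affine L} (P : W.Point)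
    (hP : P ≠ 0) : XY P (px P) (py P) := by
  cases P with
  | zero => exact absurd rfl hP
  | some x y h => exact ⟨h, rfl⟩

private theorem Deep_px {L : Type} [Field L] {W : WeierstrassCurve.Affine L} {P : W.Point}
    {x y : L} (h : XY P x y) : px P = x := by
  obtain ⟨h, rfl⟩ := h
  rfl

private theorem Deep_lgc {L : Type} [Field L] (a : AbsoluteValue L ℝ)
    (W : WeierstrassCurve.Affine L) (B : ℝ) : ∃ R, B ≤ R ∧ Lgc a W R := by
  have h2 := a.nonneg W.a₂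
  have h4 := a.nonneg W.a₄
  have h6 := a.nonneg W.a₆
  refine ⟨max B (1 + a W.a₂ + a W.a₄ + a W.a₆), le_max_left _ _, ?_⟩
  set R := max B (1 + a W.a₂ + a W.a₄ + a W.a₆) with hR
  have hR1 : 1 + a W.a₂ + a W.a₄ + a W.a₆ ≤ R := le_max_right _ _
  have h1 : 1 ≤ R := by linarith
  have hR2 : R ≤ R ^ 2 := le_self_pow₀ h1 two_ne_zero
  have hR3 : R ≤ R ^ 3 := le_self_pow₀ h1 (by norm_num)
  exact ⟨h1, by linarith, by linarith, by linarith⟩

private theorem Deep_two {L : Type} [Field L] (p : ℕ) [Fact p.Prime] [CharP L p] (hp2 : p ≠ 2) :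
    (2 : L) ≠ 0 ∧ ∀ a : AbsoluteValue L ℝ, a 2 = 1 := by
  have hp1 : p - 1 ≠ 0 := by
    have := (Fact.out : p.Prime).two_le
    omega
  have h2 : (2 : ZMod p) ≠ 0 := by
    intro h
    have h3 : ((2 : ℕ) : ZMod p) = 0 := by exact_mod_cast h
    rw [ZMod.natCast_eq_zero_iff] at h3
    exact hp2 ((Nat.prime_dvd_prime_iff_eq Fact.out Nat.prime_two).1 h3)
  have h4 := ZMod.pow_card_sub_one_eq_one h2
  have h5 : (2 : L) ^ (p - 1) = 1 := by
    have := congrArg (ZMod.castHom (dvd_refl p) L) h4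
    rwa [map_pow, map_one, map_ofNat] at this
  refine ⟨fun h => ?_, fun a => ?_⟩
  · rw [h, zero_pow hp1] at h5
    exact zero_ne_one h5
  · have h6 := congrArg a h5
    rw [map_pow, map_one] at h6
    exact (pow_eq_one_iff_of_nonneg (a.nonneg 2) hp1).1 h6

/-- The subgroup of the points close to `O`. -/
private def DeepS {L : Type} [Field L] (a : AbsoluteValue L ℝ) (W : WeierstrassCurve.Affine L)
    (R : ℝ) (h1 : ∀ P Q : W.Point, Sm a R P → Sm a R Q → Sm a R (P + Q))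
    (h2 : ∀ P : W.Point, Sm a R P → Sm a R (-P)) : AddSubgroup W.Point where
  carrier := {P | Sm a R P}
  add_mem' := fun {P Q} hP hQ => h1 P Q hP hQ
  zero_mem' := Or.inl rfl
  neg_mem' := fun {P} hP => h2 P hP

private theorem Deep_mono {L : Type} [Field L] {a : AbsoluteValue L ℝ}
    {W : WeierstrassCurve.Affine L} {R R' : ℝ} (h : R ≤ R') {P : W.Point} (hP : Sm a R' P) :
    Sm a R P := by
  rcases hP with hP | hP
  · exact Or.inl hP
  · exact Or.inr (h.trans hP)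

private theorem Deep_main (h1 : S_Bas) (h2 : S_Fr) (h3 : S_Vh) (h4 : S_It) (h6 : S_Sbg)
    (h7 : S_Cls) (h8 : S_Vns) (h9 : S_Lft) (p : ℕ) [Fact p.Prime] (hp2 : p ≠ 2) (K : Type)
    [Field K] [CharP K p] (W : WeierstrassCurve K) (hW : IsNf W) (hOd : Od p W) (S L : Type)
    [Field S] [Field L] [Algebra K S] [Algebra K L] [Algebra S L] [IsScalarTower K S L]
    [IsSepClosed L] (a : AbsoluteValue L ℝ) (hna : IsNonarchimedean a)
    (hag : ∀ (g : Gal(L/S)) (x : L), a (g x) = a x) (k : ℕ) (T0 : Pt p W 0 L) (hT0 : T0 ≠ 0)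
    (hpT0 : p • T0 = 0) :
    ∃ M : ℝ, 1 < M ∧ ∀ h : Gal(L/S) → ZMod p,
      (∀ z : L, (∀ g : Gal(L/S), h g = 0 → g z = z) →
        ∀ g : Gal(L/S), a (g z - z) ^ p * M ≤ a z ^ p) → (∀ c, ∃ g, h g = c) →
      ∀ e : ZMod p → Pt p W 0 L, ∑ i, e i = 0 → Twf p W h 0 e →
      ∃ (m : ℕ) (u : ZMod p → Pt p W k L), m < p ∧
        (m = 0 ∨ ∀ g : Gal(L/S), pmap (fr p W 0) (g : L →ₐ[S] L) T0 = T0) ∧
        ∑ i, u i = 0 ∧ Twf p W h k u ∧ ∀ i, e i = m • T0 + Vn p W k (u i) := by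
  have hc : CharP L p := charP_of_injective_algebraMap (algebraMap K L).injective p
  have h2K : (2 : K) ≠ 0 := (Deep_two (L := K) p hp2).1
  obtain ⟨hL2, ha2⟩ := Deep_two (L := L) p hp2
  have ha2 := ha2 a
  obtain ⟨B1, B2⟩ := h1
  have hNf := fun j => ((B2 K p W hW).1 j).1
  -- the curves over `L`
  obtain ⟨-, hN0, -, -, -, m0⟩ := B1 K h2K (fr p W 0) (hNf 0) L
  obtain ⟨-, hNk, -, -, -, mk⟩ := B1 K h2K (fr p W k) (hNf k) L
  obtain ⟨F0, F1, F2, F3, -, -⟩ := h2 p hp2 K W hW 0 L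
  obtain ⟨-, -, V3, -, -, V6, V7⟩ := h3 p hp2 K W hW 0 L
  obtain ⟨-, I2, -, -, -, I6, -⟩ := h4 p hp2 K W hW L
  obtain ⟨K1, K2⟩ := Deep_ker p (Fi p W 0) (Vi p W 0) F3 V3 V6 V7 T0 hT0 hpT0
  obtain ⟨L1, R₁, L2⟩ := h9 p hp2 K W hW hOd L a hna k
  obtain ⟨Rk, hRk1, hRk⟩ := Deep_lgc a ((fr p W k)⁄L).toAffine R₁
  obtain ⟨sk1, sk2, -⟩ := h6 L a hna hL2 _ hNk Rk hRk
  obtain ⟨R₂, hR₂, L1⟩ := L1 Rk
  obtain ⟨C, hC⟩ : ∃ C : ℝ, ∀ m < p, a (px (m • T0)) ≤ C := by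
    obtain ⟨C, hC⟩ := (Finset.image (fun m => a (px (m • T0))) (Finset.range p)).exists_le
    exact ⟨C, fun m hm => hC _ (Finset.mem_image_of_mem _ (Finset.mem_range.2 hm))⟩
  obtain ⟨Rs, hRs1, hRs⟩ := Deep_lgc a ((fr p W 0)⁄L).toAffine (max R₂ (C + 1))
  obtain ⟨ss1, ss2, -, ss4, -⟩ := h6 L a hna hL2 _ hN0 Rs hRs
  obtain ⟨RV, -, hRV⟩ := h8 p hp2 K W hW hOd 0 L a hna (Rs ^ p)
  obtain ⟨c, t₀, hc0, ht₀, hCls⟩ := h7 L a hna ha2 _ hN0
  obtain ⟨t, htt₀, htc⟩ : ∃ t : ℝ, t₀ ≤ t ∧ max RV Rs ≤ c * t ^ 2 := by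
    refine ⟨max t₀ (max RV Rs / c), le_max_left _ _, ?_⟩
    set t := max t₀ (max RV Rs / c) with ht
    have h1t : 1 ≤ t := ht₀.le.trans (le_max_left _ _)
    have h2t : max RV Rs / c ≤ t := le_max_right _ _
    rw [div_le_iff₀ hc0] at h2t
    have h3t : t ≤ t ^ 2 := le_self_pow₀ h1t two_ne_zero
    calc max RV Rs ≤ t * c := h2t
      _ = c * t := mul_comm _ _
      _ ≤ c * t ^ 2 := mul_le_mul_of_nonneg_left h3t hc0.le
  have ht1 : 1 < t := ht₀.trans_le htt₀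
  have ht0 : 0 < t := one_pos.trans ht1
  have hp0 : p ≠ 0 := (Fact.out : p.Prime).ne_zero
  obtain ⟨sc1, sc2, -⟩ := h6 L a hna hL2 _ hN0 (c * t ^ 2)
    (ss4 _ ((le_max_right _ _).trans htc))
  have hRs0 : 0 ≤ Rs := zero_le_one.trans hRs.one
  refine ⟨t ^ p, one_lt_pow₀ ht1 hp0, fun h r1 r2 e he0 hTw => ?_⟩
  have hmov : ∀ z : L, (∀ g : Gal(L/S), h g = 0 → g z = z) →
      ∀ g : Gal(L/S), a (g z - z) * t ≤ a z := by
    intro z hz g
    have h11 := r1 z hz g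
    rw [← mul_pow] at h11
    exact (pow_le_pow_iff_left₀ (mul_nonneg (a.nonneg _) ht0.le) (a.nonneg _) hp0).1 h11
  have hpx0 : ∀ (g : Gal(L/S)) (P : Pt p W 0 L),
      px (pmap (fr p W 0) (g : L →ₐ[S] L) P) = g (px P) ∧
        py (pmap (fr p W 0) (g : L →ₐ[S] L) P) = g (py P) := by
    intro g P
    exact (m0 S L (g : L →ₐ[S] L)).2.2.1 P
  have hinj0 : ∀ (g : Gal(L/S)), Function.Injective (pmap (fr p W 0) (g : L →ₐ[S] L)) := by
    intro g
    exact (m0 S L (g : L →ₐ[S] L)).2.1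
  have hpxk : ∀ (g : Gal(L/S)) (P : Pt p W k L),
      px (pmap (fr p W k) (g : L →ₐ[S] L) P) = g (px P) := by
    intro g P
    exact ((mk S L (g : L →ₐ[S] L)).2.2.1 P).1
  refine Deep_core p (fun g : Gal(L/S) => pmap (fr p W 0) (g : L →ₐ[S] L))
    (fun g : Gal(L/S) => pmap (fr p W k) (g : L →ₐ[S] L)) (Vn p W k) (I2 k) ?_
    (DeepS a _ (c * t ^ 2) sc1 sc2) (DeepS a _ Rs ss1 ss2) (DeepS a _ Rk sk1 sk2) ?_ ?_ ?_ ?_ ?_
    T0 hpT0 ?_ K2 ?_ h r2 e he0 hTw ?_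
  · intro g u
    exact ((I6 k S L (g : L →ₐ[S] L)).2 u).symm
  · intro P hP
    exact Deep_mono ((le_max_right _ _).trans htc) hP
  · rintro g s (hs | hs)
    · left
      rw [hs]
      exact map_zero _
    · right
      show Rs ≤ a (px (pmap (fr p W 0) (g : L →ₐ[S] L) s))
      rw [(hpx0 g s).1, hag]
      exact hs
  · rintro g s (hs | hs)
    · left
      rw [hs]
      exact map_zero _
    · right
      show Rk ≤ a (px (pmap (fr p W k) (g : L →ₐ[S] L) s))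
      rw [hpxk g s, hag]
      exact hs
  · intro s hs
    exact L1 s (Deep_mono ((le_max_left _ _).trans hRs1) hs)
  · intro u hu hu0
    exact L2 u hu0 (Deep_mono hRk1 hu)
  · rintro m hm (hs | hs)
    · exact hs
    · exfalso
      have h11 := hC m hm
      have h12 : C + 1 ≤ Rs := (le_max_right _ _).trans hRs1
      linarith
  · intro P hP
    have hP : Sm a (c * t ^ 2) (p • P) := hP
    rw [← V3] at hP
    obtain ⟨T, hT, hTs⟩ := hRV (Fi p W 0 P) (Deep_mono ((le_max_left _ _).trans htc) hP)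
    obtain ⟨m, hm, rfl⟩ := K1 T hT
    refine ⟨m, hm, ?_⟩
    have hsub : Fi p W 0 P - Fi p W 0 (m • T0) = Fi p W 0 (P - m • T0) := by
      have := F2 (P - m • T0) (m • T0)
      rw [sub_add_cancel] at this
      rw [this, add_sub_cancel_right]
    rw [hsub] at hTs
    rcases hTs with h11 | h11
    · left
      exact F3 _ _ (h11.trans F0.symm)
    · by_cases hZ : P - m • T0 = 0
      · exact Or.inl hZ
      · right
        rw [Deep_px (F1 _ _ _ (Deep_XY _ hZ)), map_pow] at h11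
        exact (pow_le_pow_iff_left₀ hRs0 (a.nonneg _) hp0).1 h11
  · intro g
    show Sm a (c * t ^ 2) (pmap (fr p W 0) (g : L →ₐ[S] L) (e 0) - e 0)
    by_cases hP : e 0 = 0
    · left
      rw [hP, map_zero, sub_zero]
    · have hfix : ∀ g : Gal(L/S), h g = 0 →
          pmap (fr p W 0) (g : L →ₐ[S] L) (e 0) = e 0 := by
        intro g hg
        have := hTw g 0
        rw [hg, sub_zero] at this
        exact this.symm
      refine hCls t (e 0) _ htt₀ hP (fun h0 => hP (hinj0 g (h0.trans (map_zero _).symm))) ?_ ?_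
      · rw [(hpx0 g _).1]
        refine hmov _ (fun g' hg' => ?_) g
        rw [← (hpx0 g' _).1, hfix g' hg']
      · rw [(hpx0 g _).2]
        refine hmov _ (fun g' hg' => ?_) g
        rw [← (hpx0 g' _).2, hfix g' hg']

/-- The same for an arbitrary decidability instance. -/
private theorem Deep_dec (h1 : S_Bas) (h2 : S_Fr) (h3 : S_Vh) (h4 : S_It) (h6 : S_Sbg)
    (h7 : S_Cls) (h8 : S_Vns) (h9 : S_Lft) (p : ℕ) [Fact p.Prime] (hp2 : p ≠ 2) (K : Type)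
    [Field K] [CharP K p] (W : WeierstrassCurve K) (hW : IsNf W) (hOd : Od p W) (S L : Type)
    [Field S] [Field L] [Algebra K S] [Algebra K L] [Algebra S L] [IsScalarTower K S L]
    [IsSepClosed L] [dec : DecidableEq L] (a : AbsoluteValue L ℝ) (hna : IsNonarchimedean a)
    (hag : ∀ (g : Gal(L/S)) (x : L), a (g x) = a x) (k : ℕ) (T0 : Pt p W 0 L) (hT0 : T0 ≠ 0)
    (hpT0 : p • T0 = 0) :
    ∃ M : ℝ, 1 < M ∧ ∀ h : Gal(L/S) → ZMod p,
      (∀ z : L, (∀ g : Gal(L/S), h g = 0 → g z = z) →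
        ∀ g : Gal(L/S), a (g z - z) ^ p * M ≤ a z ^ p) → (∀ c, ∃ g, h g = c) →
      ∀ e : ZMod p → Pt p W 0 L, ∑ i, e i = 0 → Twf p W h 0 e →
      ∃ (m : ℕ) (u : ZMod p → Pt p W k L), m < p ∧
        (m = 0 ∨ ∀ g : Gal(L/S), pmap (fr p W 0) (g : L →ₐ[S] L) T0 = T0) ∧
        ∑ i, u i = 0 ∧ Twf p W h k u ∧ ∀ i, e i = m • T0 + Vn p W k (u i) := by
  obtain rfl : dec = fun a b => Classical.propDecidable (a = b) := Subsingleton.elim _ _
  exact Deep_main h1 h2 h3 h4 h6 h7 h8 h9 p hp2 K W hW hOd S L a hna hag k T0 hT0 hpT0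

theorem tDeep (h1 : S_Bas) (h2 : S_Fr) (h3 : S_Vh) (h4 : S_It) (h5 : S_Nma) (h6 : S_Sbg)
    (h7 : S_Cls) (h8 : S_Vns) (h9 : S_Lft) (h10 : S_Rmf) : S_Deep := by
  intro p _ hp2 K _ _ W hW hOd v Q ϖ R hLF k T0 hT0 hpT0
  obtain ⟨a, ha, hna, -, hag⟩ := h5 p K v Q ϖ R hLF
  obtain ⟨M, hM, hmain⟩ := Deep_dec h1 h2 h3 h4 h6 h7 h8 h9 p hp2 K W hW hOd v.Completion
    (Kvs v) a hna hag k T0 hT0 hpT0
  refine ⟨M, hM, fun D h hTh hD e he0 hTw => ?_⟩
  obtain ⟨r1, r2⟩ := h10 p K v Q ϖ R hLF D h hTh M hM hD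
  refine hmain h (fun z hz g => ?_) r2 e he0 hTw
  rw [ha, ha]
  exact r1 z hz g

end Pool.Agent.MP72V
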