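import Pool.Agent.Lib.MP_72e2e6_nt.WP.Lo.Spec

/-!
# MP_72e2e6_nt, theorem T3 for odd characteristic, block Lo: `Ine`
-/

namespace Pool.Agent.MP72V

open Polynomial WeierstrassCurve
open Pool.Agent.MP72W (pmap)
open Pool.Agent.MP72P (EqN Kvs Kgs nm op rsH)
open Pool.Agent

open scoped Classical

private theorem ine_two (p : ℕ) [Fact p.Prime] (hp : p ≠ 2) (K : Type) [Field K] [CharP K p] :
    (2 : K) ≠ 0 ∧ (2 : K) ^ (p - 1) = 1 := by
  have hpp : p.Prime := Fact.out
  have h2 : (2 : K) ≠ 0 := by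
    intro h
    have h1 : ((2 : ℕ) : K) = 0 := by exact_mod_cast h
    rw [CharP.cast_eq_zero_iff K p] at h1
    exact hp ((Nat.prime_dvd_prime_iff_eq hpp Nat.prime_two).1 h1)
  refine ⟨h2, ?_⟩
  have h3 : (2 : K) ^ p = 2 := by
    have h4 := map_natCast (frobenius K p) 2
    rw [frobenius_def] at h4
    exact_mod_cast h4
  have h5 : p = (p - 1) + 1 := by have := hpp.pos; omega
  rw [h5, pow_succ] at h3
  have h6 : (2 : K) ^ (p - 1) * 2 = 1 * 2 := by rw [one_mul]; exact h3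
  exact mul_right_cancel₀ h2 h6

theorem tIne (h1 : S_Bas) (h2 : S_It) (h3 : S_Itg) (h4 : S_Rcl) (h5 : S_Kit) : S_Ine := by
  intro p _ hp K _ _ W hW v hv hGd L _ _ a ha hav S _ _ _ _ g hg1 hg2 k X hX
  obtain ⟨two, two'⟩ := ine_two p hp K
  have hNf := (h1.2 K p W hW).1 k
  obtain ⟨-, hNL, -, -, -, hB⟩ := h1.1 K two (fr p W k) hNf.1 L
  obtain ⟨-, hinj, hxy, -⟩ := hB S L g
  have hGr := ((h3 p hp K W hW v hv hGd).2 k).2 L a hav
  have ha2 : a (2 : L) = 1 := by
    have e1 : (2 : L) ^ (p - 1) = 1 := by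
      have := congrArg (algebraMap K L) two'
      rwa [map_pow, map_one, map_ofNat] at this
    have e2 : a (2 : L) ^ (p - 1) = 1 := by rw [← map_pow, e1, map_one]
    have hpp : p.Prime := Fact.out
    have e3 := hpp.two_le
    exact (pow_eq_one_iff_of_nonneg (a.nonneg _) (by omega)).1 e2
  obtain ⟨r1, r2, r3⟩ := h4 L a ha ha2 _ hNL hGr
  obtain ⟨-, k2, -, -⟩ := h5 p hp K W hW v hv hGd L a ha hav
  obtain ⟨-, i2, -, -, -, i6, -⟩ := h2 p hp K W hW L
  -- the difference is in the kernel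
  obtain ⟨D, hD⟩ : ∃ D, D = pmap (fr p W k) g X - X := ⟨_, rfl⟩
  have hV : Vn p W k D = 0 := by
    have e1 : ∀ P Q : Pt p W k L, Vn p W k (P - Q) = Vn p W k P - Vn p W k Q := by
      intro P Q
      exact map_sub (AddMonoidHom.mk' (Vn p W k) (i2 k)) P Q
    rw [hD, e1, ← (i6 k S L g).2 X, hX, sub_self]
  have hD1 := k2 k D hV
  have hD2 : D = 0 ∨ 1 < a (px D) := by
    by_cases h0 : X = 0
    · left
      rw [hD, h0, map_zero, sub_zero]
    have h0' : pmap (fr p W k) g X ≠ 0 := by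
      intro h
      apply h0
      apply hinj
      rw [h, map_zero]
    obtain ⟨x1, x2⟩ := hxy X
    by_cases hx : a (px X) ≤ 1
    · rw [hD]
      refine r2 X (pmap (fr p W k) g X) h0 h0' hx ?_ ?_ ?_
      · rw [x1, hg1]
        exact hx
      · rw [x1]
        exact hg2 _ hx
      · rw [x2]
        exact hg2 _ (r3 X hx)
    · rw [not_le] at hx
      rw [hD]
      exact (r1 (pmap (fr p W k) g X) X (Or.inr (by rw [x1, hg1]; exact hx)) (Or.inr hx)).2
  have hD0 : D = 0 := by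
    rcases hD1 with h | h
    · exact h
    · rcases hD2 with h' | h'
      · exact h'
      · exact absurd h' (not_lt.2 h)
  rw [hD] at hD0
  exact sub_eq_zero.1 hD0

end Pool.Agent.MP72V
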