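import Pool.Agent.Lib.MP_72e2e6_nt.WP.Lo.Spec

/-!
# MP_72e2e6_nt, theorem T3 for odd characteristic, block Lo: Itg
-/

namespace Pool.Agent.MP72V

open Polynomial WeierstrassCurve
open Pool.Agent.MP72W (pmap)
open Pool.Agent.MP72P (EqN Kvs Kgs nm op rsH)
open Pool.Agent

open scoped Classical

/-- The ring of integers. -/
private def Rv {K : Type} [Field K] (v : AbsoluteValue K ℝ) (hv : IsNonarchimedean v) :
    Subring K where
  carrier := {x | v x ≤ 1}
  mul_mem' := by
    intro a b ha hb
    simp only [Set.mem_setOf_eq, map_mul] at *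
    exact mul_le_one₀ ha (v.nonneg b) hb
  one_mem' := by simp
  add_mem' := by
    intro a b ha hb
    simp only [Set.mem_setOf_eq] at *
    exact (hv a b).trans (max_le ha hb)
  zero_mem' := by simp
  neg_mem' := by
    intro a ha
    simpa only [Set.mem_setOf_eq, AbsoluteValue.map_neg] using ha

private lemma sum_lt {K : Type} [Field K] (v : AbsoluteValue K ℝ) (hv : IsNonarchimedean v)
    {ι : Type} (s : Finset ι) (f : ι → K) (B : ℝ) (hB : 0 < B) (h : ∀ i ∈ s, v (f i) < B) :
    v (∑ i ∈ s, f i) < B := by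
  induction s using Finset.induction_on with
  | empty => simpa using hB
  | insert i s hi ih =>
    rw [Finset.sum_insert hi]
    refine lt_of_le_of_lt (hv _ _) (max_lt (h i (Finset.mem_insert_self i s)) (ih ?_))
    intro j hj
    exact h j (Finset.mem_insert_of_mem hj)

private lemma gauss {K : Type} [Field K] (v : AbsoluteValue K ℝ) (hv : IsNonarchimedean v)
    (P : K[X]) (h : ∀ i, v ((P ^ 2).coeff i) ≤ 1) (i : ℕ) : v (P.coeff i) ≤ 1 := by
  classical
  by_contra hc
  push Not at hc
  -- an index with maximal absolute value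
  have hi : i ∈ P.support := by
    rw [mem_support_iff]
    intro h0
    rw [h0] at hc
    simp only [map_zero] at hc
    linarith
  obtain ⟨m, hm, hmax⟩ := Finset.exists_max_image P.support (fun j => v (P.coeff j)) ⟨i, hi⟩
  have hall : ∀ j, v (P.coeff j) ≤ v (P.coeff m) := by
    intro j
    by_cases hj : j ∈ P.support
    · exact hmax j hj
    · rw [notMem_support_iff.mp hj]
      simp only [map_zero]
      exact v.nonneg _
  have hm1 : 1 < v (P.coeff m) := lt_of_lt_of_le hc (hall i)
  -- the smallest such index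
  have hex : ∃ k, v (P.coeff k) = v (P.coeff m) := ⟨m, rfl⟩
  set k := Nat.find hex with hk
  have hk1 : v (P.coeff k) = v (P.coeff m) := Nat.find_spec hex
  have hk2 : ∀ j, j < k → v (P.coeff j) < v (P.coeff m) := by
    intro j hj
    exact lt_of_le_of_ne (hall j) (Nat.find_min hex hj)
  set μ := v (P.coeff m) with hμ
  have hμ0 : 0 < μ := by linarith
  have hcoef : (P ^ 2).coeff (2 * k) = P.coeff k * P.coeff k +
      ∑ x ∈ (Finset.HasAntidiagonal.antidiagonal (2 * k)).erase (k, k), P.coeff x.1 * P.coeff x.2 := by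
    rw [sq, coeff_mul, ← Finset.add_sum_erase _ _
      (show (k, k) ∈ Finset.HasAntidiagonal.antidiagonal (2 * k) by
        rw [Finset.HasAntidiagonal.mem_antidiagonal]; ring)]
  have hrest : v (∑ x ∈ (Finset.HasAntidiagonal.antidiagonal (2 * k)).erase (k, k),
      P.coeff x.1 * P.coeff x.2) < μ * μ := by
    apply sum_lt v hv _ _ _ (mul_pos hμ0 hμ0)
    rintro ⟨a, b⟩ hx
    rw [Finset.mem_erase, Finset.HasAntidiagonal.mem_antidiagonal] at hx
    obtain ⟨hne, hab⟩ := hx
    replace hab : a + b = 2 * k := hab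
    change v (P.coeff a * P.coeff b) < μ * μ
    rw [map_mul]
    have hne' : a ≠ k := by
      intro hak
      apply hne
      have hbk : b = k := by omega
      rw [hak, hbk]
    have ha0 : 0 ≤ v (P.coeff a) := v.nonneg _
    have hb0 : 0 ≤ v (P.coeff b) := v.nonneg _
    have haμ : v (P.coeff a) ≤ μ := hall a
    have hbμ : v (P.coeff b) ≤ μ := hall b
    rcases lt_or_gt_of_ne hne' with h1 | h1
    · have h2 : v (P.coeff a) < μ := hk2 a h1
      calc v (P.coeff a) * v (P.coeff b) ≤ v (P.coeff a) * μ :=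
            mul_le_mul_of_nonneg_left hbμ ha0
        _ < μ * μ := mul_lt_mul_of_pos_right h2 hμ0
    · have h3 : b < k := by omega
      have h2 : v (P.coeff b) < μ := hk2 b h3
      calc v (P.coeff a) * v (P.coeff b) ≤ μ * v (P.coeff b) :=
            mul_le_mul_of_nonneg_right haμ hb0
        _ < μ * μ := mul_lt_mul_of_pos_left h2 hμ0
  have hkk : v (P.coeff k * P.coeff k) = μ * μ := by rw [map_mul, hk1]
  have hge : μ * μ ≤ v ((P ^ 2).coeff (2 * k)) := by
    have h3 : P.coeff k * P.coeff k = (P ^ 2).coeff (2 * k) +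
        -(∑ x ∈ (Finset.HasAntidiagonal.antidiagonal (2 * k)).erase (k, k), P.coeff x.1 * P.coeff x.2) := by
      rw [hcoef]; ring
    have h4 := hv ((P ^ 2).coeff (2 * k))
      (-(∑ x ∈ (Finset.HasAntidiagonal.antidiagonal (2 * k)).erase (k, k), P.coeff x.1 * P.coeff x.2))
    rw [← h3, hkk, AbsoluteValue.map_neg] at h4
    rcases le_max_iff.mp h4 with h5 | h5
    · exact h5
    · exact absurd h5 (not_le.mpr hrest)
  have := h (2 * k)
  nlinarith

/-- Integrality of the polynomials; the curves `E_j`. -/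
theorem tItg (h1 : S_Bas) (h2 : S_Deg) (h3 : S_Pw) : S_Itg := by
  intro p hp hp2 K _ hch W hW v hv hGd
  have hp0 : 0 < p := hp.out.pos
  refine ⟨?_, ?_⟩
  · -- integrality
    intro A Ps hAP i
    set W₀ : WeierstrassCurve (Rv v hv) :=
      ⟨⟨W.a₁, by change v W.a₁ ≤ 1; rw [hW.a1]; simp⟩, ⟨W.a₂, hGd.c2⟩,
        ⟨W.a₃, by change v W.a₃ ≤ 1; rw [hW.a3]; simp⟩, ⟨W.a₄, hGd.c4⟩, ⟨W.a₆, hGd.c6⟩⟩ with hW₀
    have hmap : W₀.map (Rv v hv).subtype = W := by
      ext <;> rfl
    have hf : ∀ k, v ((mf W p).coeff k) ≤ 1 := by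
      intro k
      have := (h2.2 (Rv v hv) K (Rv v hv).subtype W₀ p).1
      rw [hmap] at this
      rw [this, coeff_map]
      exact ((mf W₀ p).coeff k).2
    have hg : ∀ k, v ((mg W p).coeff k) ≤ 1 := by
      intro k
      have := (h2.2 (Rv v hv) K (Rv v hv).subtype W₀ p).2
      rw [hmap] at this
      rw [this, coeff_map]
      exact ((mg W₀ p).coeff k).2
    refine ⟨?_, ?_⟩
    · have := hf (i * p)
      rw [hAP.num, coeff_expand_mul hp0] at this
      exact this
    · refine gauss v hv Ps ?_ i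
      intro k
      have := hg (k * p)
      rw [hAP.den, coeff_expand_mul hp0] at this
      exact this
  · intro j
    obtain ⟨hNf, hfr⟩ := (h1.2 K p W hW).1 j
    have hD : (fr p W j).Δ = W.Δ ^ p ^ j := by
      rw [hfr, WeierstrassCurve.map_Δ, iterateFrobenius_def]
    have hle : ∀ x : K, v x ≤ 1 → v (x ^ p ^ j) ≤ 1 := by
      intro x hx
      rw [map_pow]
      exact pow_le_one₀ (v.nonneg x) hx
    have hG : Gd p (fr p W j) v := by
      refine ⟨hle _ hGd.c2, hle _ hGd.c4, hle _ hGd.c6, ?_, ?_⟩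
      · rw [hD, map_pow, hGd.dis, one_pow]
      · intro A' Ps' hA'
        obtain ⟨⟨A, Ps, hAP⟩, hall⟩ := h3 p hp2 K W hW
        obtain ⟨-, -, -, -, -, hmap, -⟩ := hall A Ps hAP
        obtain ⟨-, hall'⟩ := h3 p hp2 K (fr p W j) hNf
        obtain ⟨-, -, -, -, -, -, huniq⟩ := hall' _ _ (hmap j)
        obtain ⟨hdeg, hlc⟩ := hGd.ps A Ps hAP
        have hd2 : (Ps.map (iterateFrobenius K p j)).natDegree = (p - 1) / 2 := by
          rw [natDegree_map]; exact hdeg
        have hl2 : v (Ps.map (iterateFrobenius K p j)).leadingCoeff = 1 := by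
          rw [leadingCoeff_map, iterateFrobenius_def, map_pow, hlc, one_pow]
        rcases (huniq A' Ps' hA').2 with h | h
        · rw [h]; exact ⟨hd2, hl2⟩
        · rw [h, natDegree_neg, leadingCoeff_neg, AbsoluteValue.map_neg]
          exact ⟨hd2, hl2⟩
    refine ⟨hG, ?_⟩
    intro L _ _ a ha
    refine ⟨?_, ?_, ?_, ?_⟩
    · change a (algebraMap K L (fr p W j).a₂) ≤ 1
      rw [ha]; exact hG.c2
    · change a (algebraMap K L (fr p W j).a₄) ≤ 1
      rw [ha]; exact hG.c4
    · change a (algebraMap K L (fr p W j).a₆) ≤ 1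
      rw [ha]; exact hG.c6
    · have : ((fr p W j)⁄L).toAffine.Δ = algebraMap K L (fr p W j).Δ :=
        WeierstrassCurve.map_Δ (fr p W j) (algebraMap K L)
      rw [this, ha]; exact hG.dis

end Pool.Agent.MP72V
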