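import Pool.Agent.Lib.MP_72e2e6_nt.WP.Lo.Spec

/-!
# MP_72e2e6_nt, theorem T3 for odd characteristic, block Lo: `Kit`
-/

namespace Pool.Agent.MP72V

open Polynomial WeierstrassCurve
open Pool.Agent.MP72W (pmap)
open Pool.Agent.MP72P (EqN Kvs Kgs nm op rsH)
open Pool.Agent

open scoped Classical

private theorem kit_xy {L : Type} [Field L] {W : WeierstrassCurve.Affine L} {P : W.Point} (h : P ≠ 0) :
    XY P (px P) (py P) := by
  cases P with
  | zero => exact absurd rfl h
  | some x y hh => exact ⟨hh, rfl⟩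

private theorem kit_px {L : Type} [Field L] {W : WeierstrassCurve.Affine L} {P : W.Point} {x y : L}
    (h : XY P x y) : P ≠ 0 ∧ px P = x := by
  obtain ⟨hh, rfl⟩ := h
  exact ⟨WeierstrassCurve.Affine.Point.some_ne_zero hh, rfl⟩

private theorem kit_add {L : Type} [Field L] (a : AbsoluteValue L ℝ) (ha : IsNonarchimedean a) {t s : L}
    (h : a s < a t) : a (s + t) = a t := by
  apply le_antisymm
  · exact (ha s t).trans (max_le h.le le_rfl)
  · have h1 : t = (s + t) + (-s) := by ring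
    have h2 := ha (s + t) (-s)
    rw [← h1, a.map_neg] at h2
    rcases le_max_iff.1 h2 with h3 | h3
    · exact h3
    · exact absurd h3 (not_le.2 h)

/-- the value of a polynomial at a large element -/
private theorem kit_lead {K L : Type} [Field K] [Field L] [Algebra K L] (v : AbsoluteValue K ℝ)
    (a : AbsoluteValue L ℝ) (ha : IsNonarchimedean a) (hav : ∀ x : K, a (algebraMap K L x) = v x)
    (P : K[X]) (hP : ∀ i, v (P.coeff i) ≤ 1) (hl : v P.leadingCoeff = 1) {x : L} (hx : 1 < a x) :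
    a (aeval x P) = a x ^ P.natDegree := by
  have h1 : aeval x P = (∑ i ∈ Finset.range P.natDegree, algebraMap K L (P.coeff i) * x ^ i) +
      algebraMap K L P.leadingCoeff * x ^ P.natDegree := by
    rw [aeval_eq_sum_range, Finset.sum_range_succ]
    simp only [Algebra.smul_def]
    rfl
  have h2 : a (algebraMap K L P.leadingCoeff * x ^ P.natDegree) = a x ^ P.natDegree := by
    rw [map_mul, hav, hl, one_mul, map_pow]
  have h0 : 0 < a x := zero_lt_one.trans hx
  rw [h1, kit_add a ha, h2]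
  rw [h2]
  refine Finset.sum_induction _ (fun s => a s < a x ^ P.natDegree) (fun s t hs ht => ?_) ?_ ?_
  · exact (ha s t).trans_lt (max_lt hs ht)
  · rw [map_zero]
    exact pow_pos h0 _
  · intro i hi
    rw [map_mul, hav, map_pow]
    calc v (P.coeff i) * a x ^ i ≤ 1 * a x ^ i := mul_le_mul_of_nonneg_right (hP i) (pow_nonneg h0.le _)
      _ = a x ^ i := one_mul _
      _ < a x ^ P.natDegree := pow_lt_pow_right₀ hx (Finset.mem_range.1 hi)

theorem tKit (h1 : S_Bas) (h2 : S_Pw) (h3 : S_Fr) (h4 : S_Vr) (h5 : S_Vh) (h6 : S_It) (h7 : S_Itg) :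
    S_Kit := by
  intro p _ hp K _ _ W hW v hv hGd L _ _ a ha hav
  have hpp : p.Prime := Fact.out
  have hodd : 2 * ((p - 1) / 2) = p - 1 := by
    have h := hpp.eq_two_or_odd.resolve_left hp
    omega
  have key : ∀ (j : ℕ) (X : Pt p W (j + 1) L), X ≠ 0 → 1 < a (px X) →
      Vi p W j X ≠ 0 ∧ a (px (Vi p W j X)) = a (px X) := by
    intro j X hX hx
    have hNf := ((h1.2 K p W hW).1 j).1
    have hGj := ((h7 p hp K W hW v hv hGd).2 j).1
    obtain ⟨⟨A, Ps, hA⟩, hu⟩ := h2 p hp K (fr p W j) hNf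
    obtain ⟨hmon, hdeg, -⟩ := hu A Ps hA
    have hint := (h7 p hp K (fr p W j) hNf v hv hGj).1 A Ps hA
    obtain ⟨hd, hl⟩ := hGj.ps A Ps hA
    obtain ⟨v1, v2⟩ := (h4 p hp K W hW j L).2.2 A Ps hA X (px X) (py X) (kit_xy hX)
    have e1 := kit_lead v a ha hav A (fun i => (hint i).1) (by rw [hmon.leadingCoeff, map_one]) hx
    have e2 := kit_lead v a ha hav Ps (fun i => (hint i).2) hl hx
    have h0 : 0 < a (px X) := zero_lt_one.trans hx
    have hV : Vi p W j X ≠ 0 := by
      intro h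
      rw [v1.1 h, map_zero] at e2
      exact (pow_pos h0 _).ne e2
    refine ⟨hV, ?_⟩
    have e3 := congrArg a (v2 _ _ (kit_xy hV))
    rw [map_mul, map_pow, e1, e2, hdeg, hd, ← pow_mul, mul_comm ((p - 1) / 2) 2, hodd] at e3
    have e4 : a (px X) ^ p = a (px X) * a (px X) ^ (p - 1) := by
      rw [← pow_succ', Nat.sub_add_cancel hpp.one_lt.le]
    rw [e4] at e3
    exact mul_right_cancel₀ (pow_pos h0 _).ne' e3
  have k1 : ∀ (j : ℕ) (T : Pt p W (j + 1) L), (Vi p W j T = 0 ∨ a (px (Vi p W j T)) ≤ 1) →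
      T = 0 ∨ a (px T) ≤ 1 := by
    intro j T hT
    by_contra hc
    rw [not_or, not_le] at hc
    obtain ⟨e1, e2⟩ := key j T hc.1 hc.2
    rcases hT with h | h
    · exact e1 h
    · rw [e2] at h
      exact absurd hc.2 (not_lt.2 h)
  refine ⟨k1, ?_, key, ?_⟩
  · intro k
    induction k with
    | zero => exact fun T hT => Or.inl hT
    | succ k ih => exact fun T hT => k1 k T (ih _ hT)
  · intro P hP hx
    obtain ⟨-, f2, -⟩ := h3 p hp K W hW 0 L
    have e1 := kit_px (f2 P _ _ (kit_xy hP))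
    have e2 : a (px (Fi p W 0 P)) = a (px P) ^ p := by rw [e1.2, map_pow]
    obtain ⟨e3, e4⟩ := key 0 (Fi p W 0 P) e1.1 (by
      rw [e2]
      exact one_lt_pow₀ hx hpp.ne_zero)
    have e5 := (h5 p hp K W hW 0 L).2.2.1 P
    rw [e5] at e3 e4
    exact ⟨e3, by rw [e4, e2]⟩

end Pool.Agent.MP72V
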