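import Pool.Agent.Lib.MP_72e2e6_nt.WP.Lo.Spec

/-!
# MP_72e2e6_nt, T3p, Lo/Lft: small preimages under `Vn`
-/

set_option autoImplicit false

namespace Pool.Agent.MP72V

open Polynomial WeierstrassCurve

open scoped Classical

theorem tLft (h1 : S_Vh) (h2 : S_Vs) (h3 : S_It) (h4 : S_Vns) : S_Lft := by
  intro p _ hp K _ _ W hW hO L _ _ _ a ha k
  refine ⟨?_, ?_⟩
  · induction k with
    | zero =>
      intro R'
      refine ⟨max R' 1, lt_max_of_lt_right one_pos, fun s hs => ⟨s, rfl, ?_⟩⟩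
      rcases hs with h | h
      · exact Or.inl h
      · exact Or.inr ((le_max_left _ _).trans h)
    | succ k ih =>
      intro R'
      obtain ⟨R₁, -, hR₁⟩ := h4 p hp K W hW hO k L a ha R'
      obtain ⟨R, hR0, hR⟩ := ih R₁
      refine ⟨R, hR0, fun s hs => ?_⟩
      obtain ⟨u₁, hu1, hu2⟩ := hR s hs
      obtain ⟨X, hX⟩ := (h2 p hp K W hW hO k L).1 u₁
      rw [← hX] at hu2
      obtain ⟨T, hT, hXT⟩ := hR₁ X hu2
      refine ⟨X - T, ?_, hXT⟩
      have e1 := (h1 p hp K W hW k L).2.1 (X - T) T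
      rw [sub_add_cancel, hT, add_zero, hX] at e1
      show Vn p W k (Vi p W k (X - T)) = s
      rw [← e1]
      exact hu1
  · have hfin := ((h3 p hp K W hW L).2.2.2.2.2.2.1 k).1
    obtain ⟨B, hB⟩ := (hfin.image fun u => a (px u)).bddAbove
    refine ⟨B + 1, fun u hu hs => ?_⟩
    rcases hs with h | h
    · exact h
    · have h5 : a (px u) ≤ B := hB ⟨u, hu, rfl⟩
      exact absurd h (not_le.2 (by linarith))

end Pool.Agent.MP72V
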