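import Pool.Agent.Lib.MP_72e2e6_nt.WP.Lo.Spec

/-!
# MP_72e2e6_nt, theorem T3 for odd characteristic, block Lo: the norm of `Kvs v` as an absolute value
-/

namespace Pool.Agent.MP72V

open Polynomial WeierstrassCurve
open Pool.Agent.MP72P (EqN Kvs Kgs nm op rsH)
open Pool.Agent

open scoped Classical

theorem tNma (h1 : MP72P.S_Lc1) (h2 : MP72P.S_Lc2) : S_Nma := by
  intro p _ K _ _ v Q ϖ R hLF
  obtain ⟨hK, -⟩ := h1 p K v Q ϖ R hLF
  obtain ⟨n0, nz, nmul, nadd, nalg, ngal, -⟩ := h2 p K v Q ϖ R hLF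
  have hsum : ∀ x y : Kvs v, nm v (x + y) ≤ nm v x + nm v y := fun x y =>
    (nadd x y).trans (max_le (le_add_of_nonneg_right (n0 y)) (le_add_of_nonneg_left (n0 x)))
  refine ⟨{ toFun := nm v
            map_mul' := nmul
            nonneg' := n0
            eq_zero' := nz
            add_le' := hsum }, fun x => rfl, fun x y => nadd x y, fun x => ?_, ngal⟩
  change nm v (algebraMap K (Kvs v) x) = v x
  rw [IsScalarTower.algebraMap_apply K v.Completion (Kvs v) x, nalg, hK]

end Pool.Agent.MP72V
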