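import Pool.Agent.Lib.MP_72e2e6_nt.WP.Lo.Spec

/-!
# MP_72e2e6_nt, T3p, Lo/Rmf: deeply ramified extensions move elements by a small amount
-/

set_option autoImplicit false

namespace Pool.Agent.MP72V

open Polynomial
open Pool.Agent.MP72P (EqN Kvs Kgs nm op rsH)
open Pool.Agent

open scoped Classical

/-! ### Nonarchimedean absolute values -/

section

variable {F L : Type} [Field F] [Field L] [Algebra F L] {a : AbsoluteValue L ℝ}

private theorem rmf_sub (ha : IsNonarchimedean a) (x y : L) : a (x - y) ≤ max (a x) (a y) := by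
  have h := ha x (-y)
  rwa [← sub_eq_add_neg, AbsoluteValue.map_neg] at h

private theorem rmf_sum_lt {ι : Type} (ha : IsNonarchimedean a) (s : Finset ι) (f : ι → L)
    {B : ℝ} (hB : 0 < B) (h : ∀ j ∈ s, a (f j) < B) : a (∑ j ∈ s, f j) < B := by
  refine Finset.sum_induction f (fun x => a x < B) (fun x y hx hy => ?_) (by rwa [map_zero]) h
  exact (ha x y).trans_lt (max_lt hx hy)

private theorem rmf_sum_le {ι : Type} (ha : IsNonarchimedean a) (s : Finset ι) (f : ι → L)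
    {B : ℝ} (hB : 0 ≤ B) (h : ∀ j ∈ s, a (f j) ≤ B) : a (∑ j ∈ s, f j) ≤ B := by
  refine Finset.sum_induction f (fun x => a x ≤ B) (fun x y hx hy => ?_) (by rwa [map_zero]) h
  exact (ha x y).trans (max_le hx hy)

private theorem rmf_dist {p k : ℕ} (hp : p.Prime) (hk : ¬ p ∣ k) {r t : ℝ} (hr0 : 0 < r)
    (hr1 : r < 1) (ht : t ^ p = (r ^ k)⁻¹) {i j : ℕ} (hi : i < p) (hj : j < p) {n m : ℤ}
    (h : r ^ n * t ^ i = r ^ m * t ^ j) : i = j := by
  have key : ∀ (n : ℤ) (i : ℕ), (r ^ n * t ^ i) ^ p = r ^ (n * p - k * i : ℤ) := by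
    intro n i
    rw [mul_pow, ← pow_mul, mul_comm i p, pow_mul, ht, ← zpow_natCast (r ^ n), ← zpow_mul,
      ← zpow_natCast r k, ← zpow_neg, ← zpow_natCast, ← zpow_mul, ← zpow_add₀ hr0.ne']
    congr 1
    ring
  have h1 := congrArg (fun x => x ^ p) h
  simp only [key] at h1
  have h2 : n * (p : ℤ) - (k : ℤ) * (i : ℤ) = m * (p : ℤ) - (k : ℤ) * (j : ℤ) :=
    zpow_right_injective₀ hr0 hr1.ne h1
  have h3 : (p : ℤ) ∣ (k : ℤ) * ((i : ℤ) - j) := ⟨n - m, by linear_combination -h2⟩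
  rcases (Nat.prime_iff_prime_int.mp hp).dvd_or_dvd h3 with h4 | h4
  · exact absurd (Int.natCast_dvd_natCast.mp h4) hk
  · have h5 : (i : ℤ) - j = 0 := by
      refine Int.eq_zero_of_abs_lt_dvd h4 ?_
      rw [abs_lt]
      constructor <;> omega
    omega

private theorem rmf_term (ha : IsNonarchimedean a) {p k : ℕ} (hp : p.Prime) (hk : ¬ p ∣ k)
    {r : ℝ} (hr0 : 0 < r) (hr1 : r < 1)
    (hdisc : ∀ x : F, x ≠ 0 → ∃ n : ℤ, a (algebraMap F L x) = r ^ n) (θ : L)
    (ht : a θ ^ p = (r ^ k)⁻¹) (c : ℕ → F) (i : ℕ) (hi : i < p) :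
    a (algebraMap F L (c i) * θ ^ i) ≤
      a (∑ j ∈ Finset.range p, algebraMap F L (c j) * θ ^ j) := by
  obtain ⟨i0, hi0, hmax⟩ := Finset.exists_max_image (Finset.range p)
    (fun j => a (algebraMap F L (c j) * θ ^ j)) ⟨i, Finset.mem_range.2 hi⟩
  refine (hmax i (Finset.mem_range.2 hi)).trans ?_
  by_cases h0 : a (algebraMap F L (c i0) * θ ^ i0) = 0
  · rw [h0]
    exact a.nonneg _
  · have hpos : 0 < a (algebraMap F L (c i0) * θ ^ i0) := lt_of_le_of_ne (a.nonneg _) (Ne.symm h0)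
    have hc0 : c i0 ≠ 0 := by
      intro h
      rw [h, map_zero, zero_mul, map_zero] at h0
      exact h0 rfl
    have hrest : a (∑ j ∈ (Finset.range p).erase i0, algebraMap F L (c j) * θ ^ j) <
        a (algebraMap F L (c i0) * θ ^ i0) := by
      refine rmf_sum_lt ha _ _ hpos fun j hj => ?_
      rw [Finset.mem_erase] at hj
      refine lt_of_le_of_ne (hmax j hj.2) fun heq => hj.1 ?_
      by_cases hcj : c j = 0
      · rw [hcj, map_zero, zero_mul, map_zero] at heq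
        exact absurd heq.symm h0
      · obtain ⟨n, hn⟩ := hdisc _ hcj
        obtain ⟨m, hm⟩ := hdisc _ hc0
        rw [map_mul, map_mul, map_pow, map_pow, hn, hm] at heq
        exact rmf_dist hp hk hr0 hr1 ht (Finset.mem_range.1 hj.2) (Finset.mem_range.1 hi0) heq
    have h1 : algebraMap F L (c i0) * θ ^ i0 =
        (∑ j ∈ Finset.range p, algebraMap F L (c j) * θ ^ j) -
          ∑ j ∈ (Finset.range p).erase i0, algebraMap F L (c j) * θ ^ j := by
      rw [← Finset.add_sum_erase _ _ hi0]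
      ring
    have h2 := rmf_sub ha (∑ j ∈ Finset.range p, algebraMap F L (c j) * θ ^ j)
      (∑ j ∈ (Finset.range p).erase i0, algebraMap F L (c j) * θ ^ j)
    rw [← h1] at h2
    rcases le_max_iff.1 h2 with h3 | h3
    · exact h3
    · exact absurd h3 (not_le.2 hrest)

private theorem rmf_pow (ha : IsNonarchimedean a) {θ c : L} (ht : 1 ≤ a θ) (hc : a c ≤ 1)
    (i : ℕ) : a ((θ + c) ^ i - θ ^ i) * a θ ≤ a θ ^ i := by
  induction i with
  | zero => rw [pow_zero, pow_zero, sub_self, map_zero, zero_mul, pow_zero]; exact zero_le_one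
  | succ i ih =>
    have h1 : (θ + c) ^ (i + 1) - θ ^ (i + 1) =
        ((θ + c) ^ i - θ ^ i) * (θ + c) + θ ^ i * c := by ring
    have h0 : 0 ≤ a θ := a.nonneg _
    have h2 : a (θ + c) ≤ a θ := (ha θ c).trans (max_le le_rfl (hc.trans ht))
    have h3 : a (((θ + c) ^ i - θ ^ i) * (θ + c)) * a θ ≤ a θ ^ (i + 1) := by
      rw [map_mul]
      calc a ((θ + c) ^ i - θ ^ i) * a (θ + c) * a θ
          ≤ a ((θ + c) ^ i - θ ^ i) * a θ * a θ := by
            refine mul_le_mul_of_nonneg_right ?_ h0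
            exact mul_le_mul_of_nonneg_left h2 (a.nonneg _)
        _ ≤ a θ ^ i * a θ := mul_le_mul_of_nonneg_right ih h0
        _ = a θ ^ (i + 1) := (pow_succ _ _).symm
    have h4 : a (θ ^ i * c) * a θ ≤ a θ ^ (i + 1) := by
      rw [map_mul, map_pow]
      calc a θ ^ i * a c * a θ ≤ a θ ^ i * 1 * a θ := by
            refine mul_le_mul_of_nonneg_right ?_ h0
            exact mul_le_mul_of_nonneg_left hc (pow_nonneg h0 _)
        _ = a θ ^ (i + 1) := by rw [mul_one, pow_succ]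
    rw [h1]
    rcases le_max_iff.1 (ha (((θ + c) ^ i - θ ^ i) * (θ + c)) (θ ^ i * c)) with h5 | h5
    · exact (mul_le_mul_of_nonneg_right h5 h0).trans h3
    · exact (mul_le_mul_of_nonneg_right h5 h0).trans h4

private theorem rmf_move (ha : IsNonarchimedean a) {p k : ℕ} (hp : p.Prime) (hk : ¬ p ∣ k)
    {r : ℝ} (hr0 : 0 < r) (hr1 : r < 1)
    (hdisc : ∀ x : F, x ≠ 0 → ∃ n : ℤ, a (algebraMap F L x) = r ^ n) (θ : L)
    (ht : a θ ^ p = (r ^ k)⁻¹) (ht1 : 1 < a θ) (q : F[X]) (hq : q.natDegree < p) (g : L ≃ₐ[F] L)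
    (c₀ : L) (hg : g θ = θ + c₀) (hc₀ : a c₀ ≤ 1) :
    a (g (aeval θ q) - aeval θ q) * a θ ≤ a (aeval θ q) := by
  have hz : aeval θ q = ∑ j ∈ Finset.range p, algebraMap F L (q.coeff j) * θ ^ j := by
    rw [aeval_eq_sum_range' hq]
    refine Finset.sum_congr rfl fun j _ => ?_
    rw [Algebra.smul_def]
  have hgz : g (aeval θ q) - aeval θ q =
      ∑ j ∈ Finset.range p, algebraMap F L (q.coeff j) * ((θ + c₀) ^ j - θ ^ j) := by
    rw [hz, map_sum, ← Finset.sum_sub_distrib]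
    refine Finset.sum_congr rfl fun j _ => ?_
    rw [map_mul, map_pow, hg, AlgEquiv.commutes, mul_sub]
  have h0 : 0 < a θ := lt_trans one_pos ht1
  rw [← le_div_iff₀ h0, hgz]
  refine rmf_sum_le ha _ _ (div_nonneg (a.nonneg _) h0.le) fun j hj => ?_
  rw [le_div_iff₀ h0, map_mul, mul_assoc]
  calc a (algebraMap F L (q.coeff j)) * (a ((θ + c₀) ^ j - θ ^ j) * a θ)
      ≤ a (algebraMap F L (q.coeff j)) * a θ ^ j :=
        mul_le_mul_of_nonneg_left (rmf_pow ha ht1.le hc₀ j) (a.nonneg _)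
    _ = a (algebraMap F L (q.coeff j) * θ ^ j) := by rw [map_mul, map_pow]
    _ ≤ a (aeval θ q) := by
        rw [hz]
        exact rmf_term ha hp hk hr0 hr1 hdisc θ ht q.coeff j (Finset.mem_range.1 hj)

end

/-! ### The best approximation -/

private theorem rmf_min (h1 : MP72P.S_Lc1) {p : ℕ} [Fact p.Prime] {K : Type} [Field K] [CharP K p]
    (v : AbsoluteValue K ℝ) (Q : ℕ) (ϖ : K) (R : Finset K) (hL : MP72P.LF v p Q ϖ R)
    (D : v.Completion) (M : ℝ) (hM : 1 < M) (hD : ∀ y : v.Completion, M ≤ ‖D - (y ^ p - y)‖) :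
    ∃ (y : v.Completion) (k : ℕ), ¬ p ∣ k ∧ ‖D - (y ^ p - y)‖ = (v ϖ ^ k)⁻¹ := by
  obtain ⟨e1, -, e3, e4, -, -, e7, -, e9, -, -⟩ := h1 p K v Q ϖ R hL
  have hp : p.Prime := Fact.out
  have hr0 := hL.pi0
  have hr1 := hL.pi1
  have hex : ∀ y : v.Completion, ∃ k : ℕ, ‖D - (y ^ p - y)‖ = (v ϖ ^ k)⁻¹ := by
    intro y
    have h0 : 1 < ‖D - (y ^ p - y)‖ := hM.trans_le (hD y)
    have hne : D - (y ^ p - y) ≠ 0 := by
      intro h
      rw [h, norm_zero] at h0
      exact absurd h0 (not_lt.2 zero_le_one)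
    obtain ⟨n, hn⟩ := e4 _ hne
    have hn0 : n ≤ 0 := by
      by_contra hcon
      push Not at hcon
      have h2 : v ϖ ^ n ≤ 1 := by
        obtain ⟨k, rfl⟩ := Int.eq_ofNat_of_zero_le hcon.le
        rw [zpow_natCast]
        exact pow_le_one₀ hr0.le hr1.le
      rw [hn] at h0
      exact absurd h0 (not_lt.2 h2)
    obtain ⟨k, hk⟩ := Int.exists_eq_neg_ofNat hn0
    refine ⟨k, ?_⟩
    rw [hn, hk, zpow_neg, zpow_natCast]
  choose k hk using hex
  obtain ⟨-, ⟨y₀, rfl⟩, hmin⟩ := (wellFounded_lt (α := ℕ)).has_min (Set.range k) ⟨_, 0, rfl⟩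
  refine ⟨y₀, k y₀, ?_, hk y₀⟩
  rintro ⟨n, hn⟩
  have hk0 : k y₀ ≠ 0 := by
    intro h
    have h2 := hk y₀
    rw [h, pow_zero, inv_one] at h2
    have h3 := hD y₀
    rw [h2] at h3
    exact absurd h3 (not_le.2 hM)
  have hn0 : n ≠ 0 := by
    rintro rfl
    exact hk0 (by rw [hn, mul_zero])
  let π : v.Completion := algebraMap K v.Completion ϖ
  have hπ : ‖π‖ = v ϖ := e1 ϖ
  have hπ0 : π ≠ 0 := by
    intro h
    rw [h, norm_zero] at hπ
    exact hr0.ne hπ
  obtain ⟨D', hD'⟩ : ∃ D', D' = D - (y₀ ^ p - y₀) := ⟨_, rfl⟩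
  have hnD : ‖D'‖ = (v ϖ ^ k y₀)⁻¹ := by rw [hD']; exact hk y₀
  have hrk : 0 < v ϖ ^ k y₀ := pow_pos hr0 _
  have hx : ‖π ^ k y₀ * D'‖ = 1 := by
    rw [norm_mul, norm_pow, hπ, hnD, mul_inv_cancel₀ hrk.ne']
  obtain ⟨c, hc1, hc2⟩ := e9 _ hx.le
  obtain ⟨s, hs1, hs2⟩ := hL.qp
  have hcn : ‖c‖ ≤ 1 := by
    have h2 : c = π ^ k y₀ * D' + -(π ^ k y₀ * D' - c) := by ring
    rw [h2]
    refine (IsUltrametricDist.norm_add_le_max _ _).trans (max_le hx.le ?_)
    rw [norm_neg]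
    exact hc2.le
  obtain ⟨c₁, hc₁⟩ : ∃ c₁, c₁ = c ^ p ^ (s - 1) := ⟨_, rfl⟩
  have hc₁p : c₁ ^ p = c := by
    rw [hc₁, ← pow_mul, ← pow_succ, Nat.sub_add_cancel hs1, ← hs2, hc1]
  have hc₁n : ‖c₁‖ ≤ 1 := by
    rw [hc₁, norm_pow]
    exact pow_le_one₀ (norm_nonneg _) hcn
  obtain ⟨z, hz⟩ : ∃ z, z = c₁ * (π ^ n)⁻¹ := ⟨_, rfl⟩
  have hzp : z ^ p = c * (π ^ k y₀)⁻¹ := by
    rw [hz, mul_pow, hc₁p, inv_pow, ← pow_mul, mul_comm n p, ← hn]
  have hzn : ‖z‖ < (v ϖ ^ k y₀)⁻¹ := by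
    have h2 : ‖z‖ ≤ (v ϖ ^ n)⁻¹ := by
      rw [hz, norm_mul, norm_inv, norm_pow, hπ]
      exact mul_le_of_le_one_left (inv_nonneg.2 (pow_nonneg hr0.le _)) hc₁n
    refine h2.trans_lt ?_
    have h3 : n < k y₀ := by
      rw [hn]
      have := hp.two_le
      nlinarith [Nat.pos_of_ne_zero hn0]
    exact inv_strictAnti₀ hrk (pow_lt_pow_right_of_lt_one₀ hr0 hr1 h3)
  have hDz : ‖D' - z ^ p‖ < (v ϖ ^ k y₀)⁻¹ := by
    have h2 : D' - z ^ p = (π ^ k y₀)⁻¹ * (π ^ k y₀ * D' - c) := by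
      rw [hzp, mul_sub, inv_mul_cancel_left₀ (pow_ne_zero _ hπ0), mul_comm c]
    rw [h2, norm_mul, norm_inv, norm_pow, hπ]
    exact mul_lt_of_lt_one_right (inv_pos.2 hrk) hc2
  have h5 : ‖D - ((y₀ + z) ^ p - (y₀ + z))‖ < (v ϖ ^ k y₀)⁻¹ := by
    have h2 : D - ((y₀ + z) ^ p - (y₀ + z)) = (D' - z ^ p) + z := by
      rw [add_pow_char, hD']
      ring
    rw [h2]
    exact (IsUltrametricDist.norm_add_le_max _ _).trans_lt (max_lt hDz hzn)
  rw [hk (y₀ + z)] at h5
  have h6 : v ϖ ^ k y₀ < v ϖ ^ k (y₀ + z) := by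
    by_contra hcon
    push Not at hcon
    exact absurd h5 (not_lt.2 (inv_anti₀ (pow_pos hr0 _) hcon))
  have h7 : k (y₀ + z) < k y₀ := by
    by_contra hcon
    push Not at hcon
    exact absurd h6 (not_lt.2 (pow_le_pow_of_le_one hr0.le hr1.le hcon))
  exact hmin _ ⟨_, rfl⟩ h7

/-! ### The theorem -/

private theorem rmf_op {p : ℕ} [Fact p.Prime] (L : Type) [Field L] [CharP L p] (c : ZMod p) :
    op L c = ZMod.castHom (dvd_refl p) L c := by
  rw [ZMod.castHom_apply, op, ZMod.natCast_val]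

theorem tRmf (h1 : MP72P.S_Lc1) (h2 : MP72P.S_Lc2) : S_Rmf := by
  intro p _ K _ _ v Q ϖ R hL D h hTh M hM hD
  have hp : p.Prime := Fact.out
  have e1 := h1 p K v Q ϖ R hL
  obtain ⟨f1, f2, f3, f4, f5, f6, f7, -, -, f10⟩ := h2 p K v Q ϖ R hL
  obtain ⟨θ, hθ, hθg⟩ := hTh
  let a : AbsoluteValue (Kvs v) ℝ :=
    { toFun := nm v
      map_mul' := f3
      nonneg' := f1
      eq_zero' := f2
      add_le' := fun x y => (f4 x y).trans (max_le
        (le_add_of_nonneg_right (f1 y)) (le_add_of_nonneg_left (f1 x))) }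
  have ha : IsNonarchimedean a := f4
  have ha1 : ∀ x, a x = nm v x := fun _ => rfl
  have hop : ∀ c : ZMod p, a (op (Kvs v) c) ≤ 1 := by
    intro c
    by_cases hc : op (Kvs v) c = 0
    · rw [hc, map_zero]
      exact zero_le_one
    · rw [ha1, f7 _ ⟨1, le_rfl, ?_⟩ hc]
      rw [pow_one, rmf_op, ← map_pow, ZMod.pow_card]
  have hopinj : ∀ c d : ZMod p, op (Kvs v) c = op (Kvs v) d → c = d := by
    intro c d hcd
    rw [rmf_op, rmf_op] at hcd
    exact (ZMod.castHom (dvd_refl p) (Kvs v)).injective hcd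
  obtain ⟨y₀, k, hk, hyk⟩ := rmf_min h1 v Q ϖ R hL D M hM hD
  obtain ⟨D', hD'⟩ : ∃ D', D' = D - (y₀ ^ p - y₀) := ⟨_, rfl⟩
  obtain ⟨θ', hθ'⟩ : ∃ θ', θ' = θ - algebraMap v.Completion (Kvs v) y₀ := ⟨_, rfl⟩
  have hθ'e : θ' ^ p - θ' = algebraMap v.Completion (Kvs v) D' := by
    rw [hθ', sub_pow_char, hD', map_sub, map_sub, map_pow, ← hθ]
    ring
  have hgθ' : ∀ g : Gal(Kvs v/v.Completion), g θ' = θ' + op (Kvs v) (h g) := by
    intro g
    rw [hθ', map_sub, hθg, AlgEquiv.commutes]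
    ring
  have hnD : a (θ' ^ p - θ') = ‖D'‖ := by rw [hθ'e, ha1, f5]
  have hMD : M ≤ ‖D'‖ := by rw [hD']; exact hD y₀
  have ht1 : 1 < a θ' := by
    by_contra hcon
    push Not at hcon
    have h3 := rmf_sub ha (θ' ^ p) θ'
    rw [hnD, map_pow] at h3
    have h4 : max (a θ' ^ p) (a θ') ≤ 1 := max_le (pow_le_one₀ (a.nonneg _) hcon) hcon
    linarith
  have htp : a θ' ^ p = ‖D'‖ := by
    have h3 : a θ' < a θ' ^ p := by
      calc a θ' = a θ' ^ 1 := (pow_one _).symm
        _ < a θ' ^ p := pow_lt_pow_right₀ ht1 hp.one_lt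
    refine le_antisymm ?_ ?_
    · have h4 := ha (θ' ^ p - θ') θ'
      rw [sub_add_cancel, hnD, map_pow] at h4
      rcases le_max_iff.1 h4 with h5 | h5
      · exact h5
      · exact absurd h5 (not_le.2 h3)
    · rw [← hnD]
      refine (rmf_sub ha _ _).trans (max_le ?_ h3.le)
      rw [map_pow]
  have htk : a θ' ^ p = (v ϖ ^ k)⁻¹ := by rw [htp, hD', hyk]
  refine ⟨?_, ?_⟩
  · intro z hz g
    -- `z` is in the field generated by `θ'`
    have hzm : z ∈ IntermediateField.adjoin v.Completion {θ'} := by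
      rw [← InfiniteGalois.fixedField_fixingSubgroup
        (IntermediateField.adjoin v.Completion {θ'}), IntermediateField.mem_fixedField_iff]
      intro g hg
      refine hz g ?_
      rw [IntermediateField.mem_fixingSubgroup_iff] at hg
      have h3 := hg θ' (IntermediateField.mem_adjoin_simple_self _ _)
      rw [hgθ' g] at h3
      have h4 : op (Kvs v) (h g) = 0 := by
        have h5 := congrArg (fun x => x - θ') h3
        simpa using h5
      refine hopinj _ _ ?_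
      rw [h4, rmf_op, map_zero]
    let f : v.Completion[X] := X ^ p - (X + C D')
    have hdeg : (X + C D' : v.Completion[X]).degree < p := by
      rw [degree_X_add_C]
      exact_mod_cast hp.one_lt
    have hfm : f.Monic := monic_X_pow_sub hdeg
    have hfr : aeval θ' f = 0 := by
      show aeval θ' (X ^ p - (X + C D')) = 0
      rw [map_sub, map_pow, map_add, aeval_X, aeval_C, ← hθ'e]
      ring
    have hint : IsIntegral v.Completion θ' := ⟨f, hfm, hfr⟩
    rw [← IntermediateField.mem_toSubalgebra,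
      IntermediateField.adjoin_simple_toSubalgebra_of_isAlgebraic hint.isAlgebraic,
      Algebra.adjoin_singleton_eq_range_aeval] at hzm
    obtain ⟨q, hq⟩ := hzm
    have hq' : aeval θ' (q %ₘ f) = z := by
      have h3 := congrArg (aeval θ') (modByMonic_add_div q f)
      rw [map_add, map_mul, hfr, zero_mul, add_zero] at h3
      rw [h3]
      exact hq
    have hqd : (q %ₘ f).natDegree < p := by
      have h3 : f.natDegree = p := by
        refine natDegree_eq_of_degree_eq_some ?_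
        show (X ^ p - (X + C D') : v.Completion[X]).degree = p
        rw [degree_sub_eq_left_of_degree_lt (by rw [degree_X_pow]; exact hdeg), degree_X_pow]
      have h4 := natDegree_modByMonic_lt q hfm (by
        intro h5
        rw [h5, natDegree_one] at h3
        exact hp.ne_zero h3.symm)
      rwa [h3] at h4
    have h3 := rmf_move ha hp hk hL.pi0 hL.pi1 (fun x hx => by
      obtain ⟨n, hn⟩ := e1.2.2.2.1 x hx
      exact ⟨n, by rw [ha1, f5, hn]⟩) θ' htk ht1 (q %ₘ f) hqd g _ (hgθ' g) (hop _)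
    rw [hq'] at h3
    have h4 : (a (g z - z) * a θ') ^ p ≤ a z ^ p :=
      pow_le_pow_left₀ (mul_nonneg (a.nonneg _) (a.nonneg _)) h3 p
    rw [mul_pow, htp] at h4
    refine le_trans ?_ h4
    exact mul_le_mul_of_nonneg_left hMD (pow_nonneg (a.nonneg _) _)
  · -- surjectivity
    have hadd : ∀ g g' : Gal(Kvs v/v.Completion), h (g * g') = h g + h g' := by
      intro g g'
      refine hopinj _ _ ?_
      have h3 := hθg (g * g')
      rw [AlgEquiv.mul_apply, hθg g', map_add, hθg g] at h3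
      have h4 : g (op (Kvs v) (h g')) = op (Kvs v) (h g') := by
        rw [op, map_natCast]
      rw [h4, add_assoc] at h3
      have h5 := add_left_cancel h3
      rw [← h5, rmf_op, rmf_op, rmf_op, map_add]
    have hex : ∃ g, h g ≠ 0 := by
      by_contra hcon
      push Not at hcon
      have hfix : ∀ g : Gal(Kvs v/v.Completion), g θ = θ := by
        intro g
        rw [hθg g, hcon g, rmf_op, map_zero, add_zero]
      have h3 : θ ∈ (⊥ : IntermediateField v.Completion (Kvs v)) :=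
        (InfiniteGalois.mem_bot_iff_fixed θ).2 hfix
      obtain ⟨y, hy⟩ := IntermediateField.mem_bot.1 h3
      have h4 : D - (y ^ p - y) = 0 := by
        refine (algebraMap v.Completion (Kvs v)).injective ?_
        rw [map_zero, map_sub, map_sub, map_pow, hy, hθ, sub_self]
      have h5 := hD y
      rw [h4, norm_zero] at h5
      linarith
    obtain ⟨g, hg⟩ := hex
    have hpow : ∀ n : ℕ, h (g ^ n) = n * h g := by
      intro n
      induction n with
      | zero =>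
        have h3 := hadd 1 1
        rw [mul_one] at h3
        rw [pow_zero, Nat.cast_zero, zero_mul]
        exact (add_eq_left.1 h3.symm)
      | succ n ih => rw [pow_succ, hadd, ih]; push_cast; ring
    intro c
    refine ⟨g ^ (c / h g).val, ?_⟩
    rw [hpow, ZMod.natCast_zmod_val, div_mul_cancel₀ _ hg]

end Pool.Agent.MP72V
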