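import Pool.Agent.Lib.MP_72e2e6_nt.WP.Lo.Spec

/-! # MP_72e2e6_nt, block Lo: residues of elements of `Kvs v` -/

namespace Pool.Agent.MP72V

open Polynomial
open Pool.Agent.MP72P (Kvs nm op Cst IsGeo)
open Pool.Agent

open scoped Classical

private theorem rsd_sum {p : ℕ} {L : Type} [Field L] (h0 : (0 : L) ∈ Cst p L)
    (hadd : ∀ x ∈ Cst p L, ∀ y ∈ Cst p L, x + y ∈ Cst p L) {ι : Type} (s : Finset ι)
    (f : ι → L) (hf : ∀ i ∈ s, f i ∈ Cst p L) : ∑ i ∈ s, f i ∈ Cst p L := by
  induction s using Finset.induction_on with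
  | empty => simpa using h0
  | insert a s ha ih =>
    rw [Finset.sum_insert ha]
    exact hadd _ (hf a (Finset.mem_insert_self a s)) _
      (ih fun i hi => hf i (Finset.mem_insert_of_mem hi))

private theorem rsd_root {p : ℕ} {L : Type} [Field L] (N : L → ℝ)
    (h0 : (0 : L) ∈ Cst p L) (h1 : (1 : L) ∈ Cst p L)
    (hop : ∀ x ∈ Cst p L, ∀ y ∈ Cst p L, x + y ∈ Cst p L ∧ x * y ∈ Cst p L ∧ x - y ∈ Cst p L)
    (hrt : ∀ P : Polynomial L, P.Monic → 1 ≤ P.natDegree → (∀ i, P.coeff i ∈ Cst p L) →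
      ∃ x ∈ Cst p L, P.eval x = 0)
    (hN0 : ∀ x, 0 ≤ N x) (hN1 : N 1 = 1) (hNm : ∀ x y, N (x * y) = N x * N y) (z : L) :
    ∀ (n : ℕ) (P : L[X]), P.Monic → P.natDegree = n → (∀ i, P.coeff i ∈ Cst p L) →
      N (P.eval z) < 1 → ∃ c ∈ Cst p L, N (z - c) < 1 := by
  intro n
  induction n with
  | zero =>
    intro P hP hn _ hz
    rw [hP.natDegree_eq_zero.1 hn, eval_one, hN1] at hz
    exact absurd hz (lt_irrefl _)
  | succ n ih =>
    intro P hP hn hc hz
    obtain ⟨d, hd, hPd⟩ := hrt P hP (by omega) hc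
    have h2 : (X - C d) * (P /ₘ (X - C d)) = P := mul_divByMonic_eq_iff_isRoot.2 hPd
    have h3 : (P /ₘ (X - C d)).Monic := by
      have h4 : ((X - C d) * (P /ₘ (X - C d))).Monic := by rw [h2]; exact hP
      exact (monic_X_sub_C d).of_mul_monic_left h4
    have h4 : (P /ₘ (X - C d)).natDegree = n := by
      have h5 := congrArg natDegree h2
      rw [(monic_X_sub_C d).natDegree_mul h3, natDegree_X_sub_C, hn] at h5
      omega
    rw [← h2, eval_mul, hNm, eval_sub, eval_X, eval_C] at hz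
    by_cases h6 : N (z - d) < 1
    · exact ⟨d, hd, h6⟩
    · refine ih _ h3 h4 (fun i => ?_) ?_
      · rw [coeff_divByMonic_X_sub_C]
        refine rsd_sum h0 (fun x hx y hy => (hop x hx y hy).1) _ _ fun j _ => ?_
        have hpw : ∀ m : ℕ, d ^ m ∈ Cst p L := by
          intro m
          induction m with
          | zero => rw [pow_zero]; exact h1
          | succ m ihm => rw [pow_succ]; exact (hop _ ihm _ hd).2.1
        exact (hop _ (hpw _) _ (hc j)).2.1
      · by_contra h7
        have h8 := mul_le_mul (not_lt.1 h6) (not_lt.1 h7) zero_le_one (hN0 _)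
        rw [one_mul] at h8
        exact absurd hz (not_lt.2 h8)

theorem tRsd (h1 : MP72P.S_Lc1) (h2 : MP72P.S_Lc2) (h3 : MP72P.S_Cst) : S_Rsd := by
  intro p _ K _ _ v Q ϖ R hv
  obtain ⟨-, -, -, -, -, -, -, -, hcst, -⟩ := h1 p K v Q ϖ R hv
  obtain ⟨hn0, hnz, hnm, hna, hext, hgal, hc1, -, -, hch⟩ := h2 p K v Q ϖ R hv
  obtain ⟨c0, c1, cop, -, -, crt, -, cop'⟩ := h3 p (Kvs v)
  have hn1 : nm v 1 = 1 := hc1 1 c1 one_ne_zero
  have hneg : ∀ x : Kvs v, nm v (-x) = nm v x := by
    intro x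
    have h4 : nm v (-1) = 1 := by
      have h5 := hnm (-1) (-1)
      rw [neg_mul_neg, one_mul, hn1] at h5
      nlinarith [hn0 (-1 : Kvs v)]
    rw [← neg_one_mul, hnm, h4, one_mul]
  have hpw : ∀ (x : Kvs v) (n : ℕ), nm v (x ^ n) = nm v x ^ n := by
    intro x n
    induction n with
    | zero => rw [pow_zero, pow_zero, hn1]
    | succ n ih => rw [pow_succ, pow_succ, hnm, ih]
  -- (1)
  have hres : ∀ z : Kvs v, nm v z ≤ 1 → ∃ c ∈ Cst p (Kvs v), nm v (z - c) < 1 := by
    intro z hz
    have hint : IsIntegral v.Completion z := Algebra.IsIntegral.isIntegral z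
    have hPm : (minpoly v.Completion z).Monic := minpoly.monic hint
    have hPc : ∀ i, ‖(minpoly v.Completion z).coeff i‖ ≤ 1 :=
      (spectralValue_le_one_iff hPm).1 hz
    choose c hcQ hcn using fun i => hcst _ (hPc i)
    obtain ⟨P, hP⟩ : ∃ P, P = minpoly v.Completion z := ⟨_, rfl⟩
    have hPz : P.aeval z = 0 := by rw [hP]; exact minpoly.aeval _ _
    rw [← hP] at hPm hPc hcn
    have hdeg := degree_sum_fin_lt (n := P.natDegree)
      (fun i => algebraMap v.Completion (Kvs v) (c i))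
    have hcc : ∀ i, algebraMap v.Completion (Kvs v) (c i) ∈ Cst p (Kvs v) := by
      intro i
      obtain ⟨r, hr1, hr⟩ := hv.qp
      refine ⟨r, hr1, ?_⟩
      rw [← map_pow, ← hr, hcQ]
    refine rsd_root (nm v) c0 c1 cop crt hn0 hn1 hnm z P.natDegree
      (X ^ P.natDegree + ∑ i : Fin P.natDegree,
        C (algebraMap v.Completion (Kvs v) (c i)) * X ^ (i : ℕ))
      (monic_X_pow_add hdeg) ?_ (fun i => ?_) ?_
    · refine natDegree_eq_of_degree_eq_some ?_
      rw [degree_add_eq_left_of_degree_lt (by rw [degree_X_pow]; exact hdeg), degree_X_pow]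
    · rw [coeff_add, coeff_X_pow, finsetSum_coeff]
      refine (cop _ ?_ _ (rsd_sum c0 (fun x hx y hy => (cop x hx y hy).1) _ _ fun j _ => ?_)).1
      · split_ifs
        · exact c1
        · exact c0
      · rw [coeff_C_mul_X_pow]
        split_ifs
        · exact hcc _
        · exact c0
    · have h4 : z ^ P.natDegree + ∑ i : Fin P.natDegree,
          algebraMap v.Completion (Kvs v) (P.coeff i) * z ^ (i : ℕ) = 0 := by
        rw [hPm.as_sum, map_add, map_pow, aeval_X, map_sum] at hPz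
        rw [← Fin.sum_univ_eq_sum_range (fun i => (aeval z) (C (P.coeff i) * X ^ i))] at hPz
        rw [← hPz]
        congr 1
        refine Finset.sum_congr rfl fun i _ => ?_
        rw [map_mul, aeval_C, map_pow, aeval_X]
      have h5 : (X ^ P.natDegree + ∑ i : Fin P.natDegree,
          C (algebraMap v.Completion (Kvs v) (c i)) * X ^ (i : ℕ)).eval z =
          ∑ i : Fin P.natDegree, algebraMap v.Completion (Kvs v) (c i - P.coeff i) *
            z ^ (i : ℕ) := by
        rw [eval_add, eval_pow, eval_X, eval_finsetSum]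
        have h6 : ∑ i : Fin P.natDegree, eval z (C (algebraMap v.Completion (Kvs v) (c i)) *
            X ^ (i : ℕ)) = ∑ i : Fin P.natDegree, algebraMap v.Completion (Kvs v) (c i) *
            z ^ (i : ℕ) := Finset.sum_congr rfl fun i _ => by
          rw [eval_mul, eval_C, eval_pow, eval_X]
        rw [h6, ← sub_zero (z ^ P.natDegree + _), ← h4, add_sub_add_left_eq_sub,
          ← Finset.sum_sub_distrib]
        refine Finset.sum_congr rfl fun i _ => ?_
        rw [map_sub, sub_mul]
      rw [h5]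
      have h6 : ∀ s : Finset (Fin P.natDegree), nm v (∑ i ∈ s,
          algebraMap v.Completion (Kvs v) (c i - P.coeff i) * z ^ (i : ℕ)) < 1 := by
        intro s
        induction s using Finset.induction_on with
        | empty =>
          rw [Finset.sum_empty, (hnz 0).2 rfl]
          exact one_pos
        | insert a s ha ih =>
          rw [Finset.sum_insert ha]
          refine (hna _ _).trans_lt (max_lt ?_ ih)
          rw [hnm, hext, hpw]
          have h7 : ‖c a - P.coeff a‖ < 1 := by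
            rw [norm_sub_rev]
            exact hcn a
          calc ‖c a - P.coeff a‖ * nm v z ^ (a : ℕ) ≤ ‖c a - P.coeff a‖ * 1 :=
                mul_le_mul_of_nonneg_left (pow_le_one₀ (hn0 z) hz) (norm_nonneg _)
            _ < 1 := by rw [mul_one]; exact h7
      exact h6 Finset.univ
  have hgeo : ∀ g : Gal(Kvs v/v.Completion), IsGeo p g → ∀ z, nm v z ≤ 1 →
      nm v (g z - z) < 1 := by
    intro g hg z hz
    obtain ⟨c, hc, hcz⟩ := hres z hz
    have h4 : g z - z = g (z - c) + -(z - c) := by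
      rw [map_sub, hg c hc]
      ring
    rw [h4]
    refine (hna _ _).trans_lt (max_lt ?_ ?_)
    · rw [hgal]
      exact hcz
    · rw [hneg]
      exact hcz
  refine ⟨hres, hgeo, ?_⟩
  intro D h hD hD1 g hg
  obtain ⟨θ, hθ, hgθ⟩ := hD
  have hp : p.Prime := Fact.out
  have h4 : nm v θ ≤ 1 := by
    by_contra h5
    rw [not_le] at h5
    have h6 : nm v θ < nm v (θ ^ p) := by
      rw [hpw]
      calc nm v θ = nm v θ ^ 1 := (pow_one _).symm
        _ < nm v θ ^ p := pow_lt_pow_right₀ h5 hp.one_lt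
    have h7 : nm v (θ ^ p) ≤ max (nm v (θ ^ p - θ)) (nm v θ) := by
      have h8 := hna (θ ^ p - θ) θ
      rwa [sub_add_cancel] at h8
    rw [hθ, hext] at h7
    exact absurd h7 (not_le.2 (max_lt (hD1.trans_lt (h5.trans h6)) h6))
  have h5 := hgeo g hg θ h4
  rw [hgθ, add_sub_cancel_left] at h5
  have h6 : op (Kvs v) (h g) = 0 := by
    by_contra h7
    exact absurd (hc1 _ (cop' (h g)) h7) h5.ne
  have h7 : (p : ℕ) ∣ (h g).val := (CharP.cast_eq_zero_iff (Kvs v) p _).1 h6
  have h8 : (h g).val = 0 := Nat.eq_zero_of_dvd_of_lt h7 (ZMod.val_lt _)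
  exact (ZMod.val_eq_zero _).1 h8

end Pool.Agent.MP72V
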