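import Pool.Agent.Lib.MP_72e2e6_nt.WP.Lo.Spec

/-!
# MP_72e2e6_nt, theorem T3 for odd characteristic, block Lo: the points close to `O` form a subgroup
-/

namespace Pool.Agent.MP72V

open Polynomial WeierstrassCurve
open Pool.Agent.MP72W (pmap)
open Pool.Agent.MP72P (EqN Kvs Kgs nm op rsH)
open Pool.Agent

open scoped Classical

section na

variable {L : Type} [Field L] {a : AbsoluteValue L ℝ}

private theorem sbg_lt (ha : IsNonarchimedean a) {x y : L} {C : ℝ} (hx : a x < C) (hy : a y < C) :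
    a (x + y) < C := (ha x y).trans_lt (max_lt hx hy)

private theorem sbg_le (ha : IsNonarchimedean a) {x y : L} {C : ℝ} (hx : a x ≤ C) (hy : a y ≤ C) :
    a (x + y) ≤ C := (ha x y).trans (max_le hx hy)

private theorem sbg_eq (ha : IsNonarchimedean a) {x y : L} (h : a y < a x) : a (x + y) = a x := by
  refine le_antisymm (sbg_le ha le_rfl h.le) ?_
  by_contra h1
  push Not at h1
  have h2 : x = (x + y) + -y := by ring
  have h3 : a x < a x := by
    conv_lhs => rw [h2]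
    refine sbg_lt ha h1 ?_
    rw [AbsoluteValue.map_neg]
    exact h
  exact lt_irrefl _ h3

private theorem sbg_two (ha : IsNonarchimedean a) : a 2 ≤ 1 := by
  have h : (2 : L) = 1 + 1 := by norm_num
  rw [h]
  exact sbg_le ha (map_one a).le (map_one a).le

private theorem sbg_four (ha : IsNonarchimedean a) : a 4 ≤ 1 := by
  have h : (4 : L) = 2 * 2 := by norm_num
  rw [h, map_mul]
  exact mul_le_one₀ (sbg_two ha) (a.nonneg _) (sbg_two ha)

end na

/-- The estimate. -/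
private theorem sbg_est {L : Type} [Field L] {a : AbsoluteValue L ℝ} (ha : IsNonarchimedean a)
    {W : WeierstrassCurve.Affine L} {R : ℝ} (hR : Lgc a W R) {x x' X : L} (hx : R ≤ a x)
    (hx' : R ≤ a x')
    (h : ((x + x') ^ 2 - 4 * (x * x')) * X ^ 2 - (2 * (x + x') * (x * x') + 4 * W.a₂ * (x * x') +
      2 * W.a₄ * (x + x') + 4 * W.a₆) * X + ((x * x') ^ 2 - 2 * W.a₄ * (x * x') -
      4 * W.a₆ * (x + x') - (4 * W.a₂ * W.a₆ - W.a₄ ^ 2)) = 0) : R ≤ a X := by
  by_contra hX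
  push Not at hX
  have h1 := hR.one
  have hR0 : 0 < R := by linarith
  obtain ⟨M, hM⟩ : ∃ M, M = max (a x) (a x') := ⟨_, rfl⟩
  obtain ⟨m, hm⟩ : ∃ m, m = min (a x) (a x') := ⟨_, rfl⟩
  have hMm : a x * a x' = M * m := by
    rw [hM, hm, max_mul_min]
  have hmR : R ≤ m := by rw [hm]; exact le_min hx hx'
  have hmM : m ≤ M := by rw [hM, hm]; exact min_le_max
  have hxM : a x ≤ M := by rw [hM]; exact le_max_left _ _
  have hxM' : a x' ≤ M := by rw [hM]; exact le_max_right _ _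
  have hm0 : 0 < m := by linarith
  have hM0 : 0 < M := by linarith
  have hMR : R ≤ M := hmR.trans hmM
  have e2 := sbg_two ha (a := a)
  have e4 := sbg_four ha (a := a)
  have p2 : 0 ≤ a W.a₂ := a.nonneg _
  have p4 : 0 ≤ a W.a₄ := a.nonneg _
  have p6 : 0 ≤ a W.a₆ := a.nonneg _
  have c2 := hR.c2
  have c4 := hR.c4
  have c6 := hR.c6
  have n2 : 0 ≤ a (2 : L) := a.nonneg _
  have n4 : 0 ≤ a (4 : L) := a.nonneg _
  have nX : 0 ≤ a X := a.nonneg _
  have hMm0 : 0 < M * m := mul_pos hM0 hm0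
  have hsum : a (x + x') ≤ M := sbg_le ha hxM hxM'
  have hprod : a (x * x') = M * m := by rw [map_mul, hMm]
  have hRR : R ^ 2 ≤ M * m := by
    rw [pow_two]
    exact mul_le_mul hMR hmR hR0.le hM0.le
  -- the terms of the constant coefficient
  have t1 : a (2 * W.a₄ * (x * x')) < (M * m) ^ 2 := by
    rw [map_mul, map_mul, hprod]
    have : a (2 : L) * a W.a₄ < M * m := by
      have : a (2 : L) * a W.a₄ ≤ 1 * a W.a₄ := mul_le_mul_of_nonneg_right e2 p4
      linarith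
    rw [pow_two]
    exact mul_lt_mul_of_pos_right this hMm0
  have hR3 : R ^ 3 ≤ m * (M * m) := by
    have : R ^ 3 = R * R ^ 2 := by ring
    rw [this]
    exact mul_le_mul hmR hRR (by positivity) hm0.le
  have t2 : a (4 * W.a₆ * (x + x')) < (M * m) ^ 2 := by
    rw [map_mul, map_mul]
    have h3 : a (4 : L) * a W.a₆ ≤ a W.a₆ := by
      have := mul_le_mul_of_nonneg_right e4 p6
      linarith
    have h4 : a (4 : L) * a W.a₆ * a (x + x') ≤ a W.a₆ * M :=
      mul_le_mul h3 hsum (a.nonneg _) p6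
    have h5 : a W.a₆ * M < (m * (M * m)) * M := mul_lt_mul_of_pos_right (c6.trans_le hR3) hM0
    have h6 : (m * (M * m)) * M = (M * m) ^ 2 := by ring
    linarith
  have hR4 : R ^ 4 ≤ (M * m) ^ 2 := by
    have : R ^ 4 = (R ^ 2) ^ 2 := by ring
    rw [this]
    exact pow_le_pow_left₀ (by positivity) hRR 2
  have t3 : a (4 * W.a₂ * W.a₆ - W.a₄ ^ 2) < (M * m) ^ 2 := by
    rw [sub_eq_add_neg]
    refine sbg_lt ha ?_ ?_
    · rw [map_mul, map_mul]
      have h3 : a (4 : L) * a W.a₂ ≤ a W.a₂ := by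
        have := mul_le_mul_of_nonneg_right e4 p2
        linarith
      have h4 : a (4 : L) * a W.a₂ * a W.a₆ ≤ a W.a₂ * a W.a₆ := mul_le_mul_of_nonneg_right h3 p6
      have h5 : a W.a₂ * a W.a₆ ≤ a W.a₂ * R ^ 3 := mul_le_mul_of_nonneg_left c6.le p2
      have h6 : a W.a₂ * R ^ 3 < R * R ^ 3 := mul_lt_mul_of_pos_right c2 (by positivity)
      have h7 : R * R ^ 3 = R ^ 4 := by ring
      linarith
    · rw [AbsoluteValue.map_neg, map_pow]
      have h5 : a W.a₄ ^ 2 < (R ^ 2) ^ 2 := pow_lt_pow_left₀ c4 p4 two_ne_zero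
      have h7 : (R ^ 2) ^ 2 = R ^ 4 := by ring
      linarith
  have hN0 : a ((x * x') ^ 2 - 2 * W.a₄ * (x * x') -
      4 * W.a₆ * (x + x') - (4 * W.a₂ * W.a₆ - W.a₄ ^ 2)) = (M * m) ^ 2 := by
    have h3 : (x * x') ^ 2 - 2 * W.a₄ * (x * x') -
      4 * W.a₆ * (x + x') - (4 * W.a₂ * W.a₆ - W.a₄ ^ 2) = (x * x') ^ 2 +
        (-(2 * W.a₄ * (x * x')) + (-(4 * W.a₆ * (x + x')) + -(4 * W.a₂ * W.a₆ - W.a₄ ^ 2))) := by
      ring
    have h4 : a ((x * x') ^ 2) = (M * m) ^ 2 := by rw [map_pow, hprod]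
    rw [h3, sbg_eq ha, h4]
    rw [h4]
    refine sbg_lt ha ?_ (sbg_lt ha ?_ ?_)
    · rw [AbsoluteValue.map_neg]
      exact t1
    · rw [AbsoluteValue.map_neg]
      exact t2
    · rw [AbsoluteValue.map_neg]
      exact t3
  have hN1 : a (2 * (x + x') * (x * x') + 4 * W.a₂ * (x * x') +
      2 * W.a₄ * (x + x') + 4 * W.a₆) ≤ M * (M * m) := by
    refine sbg_le ha (sbg_le ha (sbg_le ha ?_ ?_) ?_) ?_
    · rw [map_mul, map_mul, hprod]
      have h3 : a (2 : L) * a (x + x') ≤ 1 * M := mul_le_mul e2 hsum (a.nonneg _) zero_le_one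
      rw [one_mul] at h3
      exact mul_le_mul_of_nonneg_right h3 hMm0.le
    · rw [map_mul, map_mul, hprod]
      have h3 : a (4 : L) * a W.a₂ ≤ 1 * M := mul_le_mul e4 (c2.le.trans hMR) p2 zero_le_one
      rw [one_mul] at h3
      exact mul_le_mul_of_nonneg_right h3 hMm0.le
    · rw [map_mul, map_mul]
      have h3 : a (2 : L) * a W.a₄ ≤ 1 * (M * m) := mul_le_mul e2 (c4.le.trans hRR) p4 zero_le_one
      rw [one_mul] at h3
      rw [mul_comm M]
      exact mul_le_mul h3 hsum (a.nonneg _) hMm0.le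
    · rw [map_mul]
      have h3 : a (4 : L) * a W.a₆ ≤ 1 * R ^ 3 := mul_le_mul e4 c6.le p6 zero_le_one
      have h4 : m * (M * m) ≤ M * (M * m) := mul_le_mul_of_nonneg_right hmM hMm0.le
      linarith
  have hN2 : a ((x + x') ^ 2 - 4 * (x * x')) ≤ M ^ 2 := by
    rw [sub_eq_add_neg]
    refine sbg_le ha ?_ ?_
    · rw [map_pow]
      exact pow_le_pow_left₀ (a.nonneg _) hsum 2
    · rw [AbsoluteValue.map_neg, map_mul, hprod]
      have h3 : a (4 : L) * (M * m) ≤ 1 * (M * m) := mul_le_mul_of_nonneg_right e4 hMm0.le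
      have h4 : M * m ≤ M * M := mul_le_mul_of_nonneg_left hmM hM0.le
      have h5 : M * M = M ^ 2 := by ring
      linarith
  -- the contradiction
  have hXm : a X < m := hX.trans_le hmR
  have hlt : a ((x * x') ^ 2 - 2 * W.a₄ * (x * x') -
      4 * W.a₆ * (x + x') - (4 * W.a₂ * W.a₆ - W.a₄ ^ 2)) < (M * m) ^ 2 := by
    have h3 : (x * x') ^ 2 - 2 * W.a₄ * (x * x') -
      4 * W.a₆ * (x + x') - (4 * W.a₂ * W.a₆ - W.a₄ ^ 2) =
        (2 * (x + x') * (x * x') + 4 * W.a₂ * (x * x') +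
      2 * W.a₄ * (x + x') + 4 * W.a₆) * X + -(((x + x') ^ 2 - 4 * (x * x')) * X ^ 2) := by
      linear_combination h
    rw [h3]
    refine sbg_lt ha ?_ ?_
    · rw [map_mul]
      calc _ ≤ M * (M * m) * a X := mul_le_mul_of_nonneg_right hN1 nX
        _ < M * (M * m) * m := mul_lt_mul_of_pos_left hXm (mul_pos hM0 hMm0)
        _ = (M * m) ^ 2 := by ring
    · rw [AbsoluteValue.map_neg, map_mul, map_pow]
      calc _ ≤ M ^ 2 * a X ^ 2 := mul_le_mul_of_nonneg_right hN2 (by positivity)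
        _ < M ^ 2 * m ^ 2 := mul_lt_mul_of_pos_left (pow_lt_pow_left₀ hXm nX two_ne_zero)
            (by positivity)
        _ = (M * m) ^ 2 := by ring
  rw [hN0] at hlt
  exact lt_irrefl _ hlt

theorem tSbg (hPts : S_Pts) (hAS : S_AS) : S_Sbg := by
  intro L _ a ha h2 W hW R hR
  obtain ⟨q1, q2, -, -, q5, -, -, -, -, -⟩ := hPts L h2 W hW
  have hadd : ∀ P Q : W.Point, Sm a R P → Sm a R Q → Sm a R (P + Q) := by
    intro P Q hP hQ
    rcases hP with rfl | hP
    · rw [zero_add]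
      exact hQ
    rcases hQ with rfl | hQ
    · rw [add_zero]
      exact Or.inr hP
    rcases q1 P with rfl | ⟨x, y, hxy⟩
    · rw [zero_add]
      exact Or.inr hQ
    rcases q1 Q with rfl | ⟨x', y', hxy'⟩
    · rw [add_zero]
      exact Or.inr hP
    rcases q1 (P + Q) with h0 | ⟨X, Y, hXY⟩
    · exact Or.inl h0
    right
    have hRp : ∀ (T : W.Point) (u v : L), XY T u v → Rp T u 1 := by
      intro T u v hT
      obtain ⟨k1, k2, -, -⟩ := q2 T u v hT
      refine ⟨Or.inr one_ne_zero, fun h => absurd h k1, fun u' v' hT' => ⟨one_ne_zero, ?_⟩⟩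
      obtain ⟨-, k3, -, -⟩ := q2 T u' v' hT'
      rw [mul_one, ← k2, ← k3]
    have hex : ∃ r' t', Rp (P - Q) r' t' := by
      rcases q1 (P - Q) with h0 | ⟨u, v, huv⟩
      · refine ⟨1, 0, Or.inl one_ne_zero, fun _ => rfl, fun u v huv => ?_⟩
        exact absurd h0 (q2 _ u v huv).1
      · exact ⟨u, 1, hRp _ u v huv⟩
    obtain ⟨r', t', hrt⟩ := hex
    obtain ⟨c, hc, k1, k2, k3⟩ := hAS L h2 W hW P Q x 1 x' 1 X 1 r' t' (x * x') (x + x') 1
      (hRp P x y hxy) (hRp Q x' y' hxy') (hRp _ X Y hXY) hrt rfl (by ring) (by ring)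
    have hpx : px P = x := (q2 P x y hxy).2.1
    have hpx' : px Q = x' := (q2 Q x' y' hxy').2.1
    have hpX : px (P + Q) = X := (q2 _ X Y hXY).2.1
    rw [hpx] at hP
    rw [hpx'] at hQ
    rw [hpX]
    refine sbg_est ha hR hP hQ ?_
    have h3 : c * (((x + x') ^ 2 - 4 * (x * x')) * X ^ 2 - (2 * (x + x') * (x * x') +
        4 * W.a₂ * (x * x') + 2 * W.a₄ * (x + x') + 4 * W.a₆) * X + ((x * x') ^ 2 -
        2 * W.a₄ * (x * x') - 4 * W.a₆ * (x + x') - (4 * W.a₂ * W.a₆ - W.a₄ ^ 2))) = 0 := by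
      linear_combination -k1 + X * k2 - X ^ 2 * k3
    exact (mul_eq_zero.1 h3).resolve_left hc
  have hneg : ∀ P : W.Point, Sm a R P → Sm a R (-P) := by
    intro P hP
    rcases hP with rfl | hP
    · left
      exact neg_zero
    rcases q1 P with rfl | ⟨x, y, hxy⟩
    · left
      exact neg_zero
    right
    rw [(q2 _ _ _ (q5 P x y hxy)).2.1, ← (q2 P x y hxy).2.1]
    exact hP
  refine ⟨hadd, hneg, ?_, ?_, ?_, ?_⟩
  · intro n P hP
    induction n with
    | zero =>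
      left
      exact zero_smul ℕ P
    | succ n ih =>
      rw [succ_nsmul]
      exact hadd _ _ ih hP
  · intro R' hR'
    have h1 := hR.one
    refine ⟨h1.trans hR', hR.c2.trans_le hR', hR.c4.trans_le ?_, hR.c6.trans_le ?_⟩
    · exact pow_le_pow_left₀ (by linarith) hR' 2
    · exact pow_le_pow_left₀ (by linarith) hR' 3
  · intro P hP hx
    rcases q1 P with rfl | ⟨x, y, hxy⟩
    · exact absurd rfl hP
    obtain ⟨-, k1, k2, k3⟩ := q2 P x y hxy
    rw [k1] at hx ⊢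
    rw [k2, ← map_pow, ← map_pow, k3]
    have h1 := hR.one
    have hR0 : 0 < R := by linarith
    have hx0 : 0 < a x := by linarith
    have h3 : x ^ 3 + W.a₂ * x ^ 2 + W.a₄ * x + W.a₆ =
        x ^ 3 + (W.a₂ * x ^ 2 + (W.a₄ * x + W.a₆)) := by ring
    rw [h3]
    refine sbg_eq ha (sbg_lt ha ?_ (sbg_lt ha ?_ ?_))
    · rw [map_mul, map_pow, map_pow]
      calc a W.a₂ * a x ^ 2 < R * a x ^ 2 := mul_lt_mul_of_pos_right hR.c2 (by positivity)
        _ ≤ a x * a x ^ 2 := mul_le_mul_of_nonneg_right hx (by positivity)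
        _ = a x ^ 3 := by ring
    · rw [map_mul, map_pow]
      calc a W.a₄ * a x < R ^ 2 * a x := mul_lt_mul_of_pos_right hR.c4 hx0
        _ ≤ a x ^ 2 * a x := mul_le_mul_of_nonneg_right (pow_le_pow_left₀ hR0.le hx 2) hx0.le
        _ = a x ^ 3 := by ring
    · rw [map_pow]
      exact hR.c6.trans_le (pow_le_pow_left₀ hR0.le hx 3)
  · intro P hP hx
    rcases q1 P with rfl | ⟨x, y, hxy⟩
    · exact absurd rfl hP
    obtain ⟨-, k1, k2, k3⟩ := q2 P x y hxy
    rw [k1] at hx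
    rw [k2, ← map_pow, k3]
    have h1 := hR.one
    have hR0 : 0 < R := by linarith
    have nx : 0 ≤ a x := a.nonneg _
    have p2 : 0 ≤ a W.a₂ := a.nonneg _
    have p4 : 0 ≤ a W.a₄ := a.nonneg _
    refine sbg_le ha (sbg_le ha (sbg_le ha ?_ ?_) ?_) hR.c6.le
    · rw [map_pow]
      exact pow_le_pow_left₀ nx hx.le 3
    · rw [map_mul, map_pow]
      calc a W.a₂ * a x ^ 2 ≤ R * R ^ 2 := mul_le_mul hR.c2.le (pow_le_pow_left₀ nx hx.le 2)
            (by positivity) hR0.le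
        _ = R ^ 3 := by ring
    · rw [map_mul]
      calc a W.a₄ * a x ≤ R ^ 2 * R := mul_le_mul hR.c4.le hx.le nx (by positivity)
        _ = R ^ 3 := by ring

end Pool.Agent.MP72V
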