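import Pool.Agent.Lib.MP_72e2e6_nt.WP.Lo.Spec

/-!
# MP_72e2e6_nt, T3p, Lo/Unr: the absolute values of `wn` at places of good reduction
-/

set_option autoImplicit false

namespace Pool.Agent.MP72V

open Polynomial WeierstrassCurve
open Pool.Agent.MP72W (pmap)
open Pool.Agent.MP72P (EqN Kvs Kgs nm op rsH)
open Pool.Agent

open scoped Classical

private theorem unr_pow {p : ℕ} [Fact p.Prime] (hp : p ≠ 2) (L : Type) [Field L] [CharP L p] :
    (2 : L) ^ (p - 1) = 1 := by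
  have h2 : (2 : ZMod p) ≠ 0 := by
    intro h
    have h3 : ((2 : ℕ) : ZMod p) = 0 := by exact_mod_cast h
    rw [ZMod.natCast_eq_zero_iff] at h3
    exact hp ((Nat.prime_dvd_prime_iff_eq Fact.out Nat.prime_two).1 h3)
  have h4 := ZMod.pow_card_sub_one_eq_one h2
  have h5 := congrArg (ZMod.castHom (dvd_refl p) L) h4
  rw [map_pow, map_one] at h5
  have h6 : ZMod.castHom (dvd_refl p) L 2 = 2 := map_ofNat _ 2
  rwa [h6] at h5

private theorem unr_two {p : ℕ} [Fact p.Prime] (hp : p ≠ 2) {L : Type} [Field L] [CharP L p]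
    (a : AbsoluteValue L ℝ) : a 2 = 1 := by
  have h7 := congrArg a (unr_pow hp L)
  rw [map_pow, map_one] at h7
  exact (pow_eq_one_iff_of_nonneg (a.nonneg _)
    (by have := (Fact.out : p.Prime).two_le; omega)).1 h7

private theorem unr_ne {p : ℕ} [Fact p.Prime] (hp : p ≠ 2) (L : Type) [Field L] [CharP L p] :
    (2 : L) ≠ 0 := by
  intro h
  have h1 := unr_pow hp L
  rw [h, zero_pow (by have := (Fact.out : p.Prime).two_le; omega)] at h1
  exact zero_ne_one h1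

theorem tUnr (h1 : S_Bas) (h2 : S_It) (h3 : S_WAd) (h4 : S_Nz) (h5 : S_Itg) (h6 : S_Wu1)
    (h7 : S_Wu2) : S_Unr := by
  intro p _ hp K _ _ W hW v hv hG L _ _ a ha hav hR k R P hRk hP
  have hcL : CharP L p := charP_of_injective_algebraMap (algebraMap K L).injective p
  have hWk : IsNf (fr p W k) := ((h1.2 K p W hW).1 k).1
  obtain ⟨h2L, hNf, -⟩ := h1.1 K (unr_ne hp K) (fr p W k) hWk L
  have hGr : Gr a ((fr p W k)⁄L).toAffine := ((h5 p hp K W hW v hv hG).2 k).2 L a hav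
  obtain ⟨w1, w2⟩ := h6 p hp K W hW v hv hG L a ha hav k R hRk
  obtain ⟨hord, -⟩ := (h2 p hp K W hW L).2.2.2.2.2.2.2.1 k R hRk
  have hpk : 0 < p ^ k := pow_pos (Fact.out : p.Prime).pos k
  have hfin : (AddSubgroup.zmultiples R : Set (Pt p W k L)).Finite := by
    rw [← Set.finite_coe_iff]
    have h8 : IsOfFinAddOrder R := by
      rw [← addOrderOf_pos_iff, hord]
      exact hpk
    exact (finite_zmultiples.2 h8)
  obtain ⟨H, hH⟩ : ∃ H : Set L, H = {h | ∃ T ∈ AddSubgroup.zmultiples R, T ≠ 0 ∧ px T = h} :=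
    ⟨_, rfl⟩
  have hHf : H.Finite := by
    refine (hfin.image px).subset ?_
    rw [hH]
    rintro h ⟨T, hT, -, rfl⟩
    exact ⟨T, hT, rfl⟩
  have hH1 : ∀ h ∈ H, a h ≤ 1 := by
    intro h hh
    rw [hH] at hh
    obtain ⟨T, hT, hT0, rfl⟩ := hh
    exact w1 T hT hT0
  have hP0 : P ≠ 0 := by
    rintro rfl
    exact hP (zero_mem _)
  obtain ⟨c, hc0, hcP, hcm, hc1, hcP1, hcm1, hcH⟩ :=
    h7 L a ha (unr_two hp a) hR ((fr p W k)⁄L).toAffine hNf hGr H hHf hH1 P hP0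
  have hmem : ∀ T ∈ AddSubgroup.zmultiples R, T ≠ 0 → px T ∈ H := by
    intro T hT hT0
    rw [hH]
    exact ⟨T, hT, hT0, rfl⟩
  have hout : ∀ X : Pt p W k L, X ≠ 0 → (∀ h ∈ H, a (px X - h) = 1) →
      X ∉ AddSubgroup.zmultiples R := by
    intro X hX0 hX hXm
    have h8 := hX _ (hmem X hXm hX0)
    rw [sub_self, map_zero] at h8
    exact zero_ne_one h8
  have hgen : Gen (AddSubgroup.zmultiples R) c P :=
    ⟨hout c hc0 fun h hh => (hcH h hh).1, hP, hout _ hcP fun h hh => (hcH h hh).2.1,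
      hout _ hcm fun h hh => (hcH h hh).2.2⟩
  have hRm : R ∈ AddSubgroup.zmultiples R := AddSubgroup.mem_zmultiples R
  have e1 := (h3 L h2L ((fr p W k)⁄L).toAffine hNf (p ^ k) (AddSubgroup.zmultiples R) c P R
    hRm).2 hgen
  have hnR : p ^ k • R = 0 := by
    rw [← hord]
    exact addOrderOf_nsmul_eq_zero R
  have hAv : Av c P (p ^ k • R) = 1 := by
    rw [hnR]
    exact if_pos rfl
  rw [hAv, mul_one] at e1
  have e2 := congrArg a e1
  rw [map_mul, map_mul, map_pow, w2 c hc0 hc1 (fun T hT hT0 => (hcH _ (hmem T hT hT0)).1),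
    w2 (c + P) hcP hcP1 (fun T hT hT0 => (hcH _ (hmem T hT hT0)).2.1), one_mul, one_mul] at e2
  exact ⟨Av c P R, (h4 L h2L ((fr p W k)⁄L).toAffine hNf).2.2 (AddSubgroup.zmultiples R) c P R
    hgen hRm, e2⟩

end Pool.Agent.MP72V
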