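import Pool.Agent.Lib.MP_72e2e6_nt.WP.Lo.Spec

/-!
# MP_72e2e6_nt, T3p, Lo/Unw: the absolute values of `w` at places of good reduction
-/

set_option autoImplicit false

namespace Pool.Agent.MP72V

open Polynomial WeierstrassCurve
open Pool.Agent.MP72W (pmap)
open Pool.Agent.MP72P (EqN Kvs Kgs nm op rsH)
open Pool.Agent

open scoped Classical

private theorem unw_ne {p : ℕ} [Fact p.Prime] (hp : p ≠ 2) (L : Type) [Field L] [CharP L p] :
    (2 : L) ≠ 0 := by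
  intro h
  have h3 : ((2 : ℕ) : L) = 0 := by exact_mod_cast h
  rw [CharP.cast_eq_zero_iff L p] at h3
  exact hp ((Nat.prime_dvd_prime_iff_eq Fact.out Nat.prime_two).1 h3)

section

variable {L : Type} [Field L] {a : AbsoluteValue L ℝ}

private theorem unw_sub (ha : IsNonarchimedean a) {x y : L} {B : ℝ} (hx : a x < B) (hy : a y < B) :
    a (x - y) < B := by
  have h := ha x (-y)
  rw [← sub_eq_add_neg, AbsoluteValue.map_neg] at h
  exact h.trans_lt (max_lt hx hy)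

/-- Four different elements of `s` are not all bad. -/
private theorem unw_four (ha : IsNonarchimedean a) (b c d : L) (x₁ x₂ x₃ x₄ : L)
    (h12 : a (x₁ - x₂) = 1) (h13 : a (x₁ - x₃) = 1) (h14 : a (x₁ - x₄) = 1)
    (h23 : a (x₂ - x₃) = 1) (h24 : a (x₂ - x₄) = 1) (h34 : a (x₃ - x₄) = 1)
    (h1 : a (x₁ ^ 3 + b * x₁ ^ 2 + c * x₁ + d) < 1) (h2 : a (x₂ ^ 3 + b * x₂ ^ 2 + c * x₂ + d) < 1)
    (h3 : a (x₃ ^ 3 + b * x₃ ^ 2 + c * x₃ + d) < 1)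
    (h4 : a (x₄ ^ 3 + b * x₄ ^ 2 + c * x₄ + d) < 1) : False := by
  have key : ∀ x y : L, a (x - y) = 1 → a (x ^ 3 + b * x ^ 2 + c * x + d) < 1 →
      a (y ^ 3 + b * y ^ 2 + c * y + d) < 1 →
      a (x ^ 2 + x * y + y ^ 2 + b * (x + y) + c) < 1 := by
    intro x y hxy hx hy
    have e : (x - y) * (x ^ 2 + x * y + y ^ 2 + b * (x + y) + c) =
        (x ^ 3 + b * x ^ 2 + c * x + d) - (y ^ 3 + b * y ^ 2 + c * y + d) := by ring
    have e2 := congrArg a e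
    rw [map_mul, hxy, one_mul] at e2
    rw [e2]
    exact unw_sub ha hx hy
  have key2 : ∀ x y z : L, a (y - z) = 1 → a (x ^ 2 + x * y + y ^ 2 + b * (x + y) + c) < 1 →
      a (x ^ 2 + x * z + z ^ 2 + b * (x + z) + c) < 1 → a (x + y + z + b) < 1 := by
    intro x y z hyz h h'
    have e : (y - z) * (x + y + z + b) = (x ^ 2 + x * y + y ^ 2 + b * (x + y) + c) -
        (x ^ 2 + x * z + z ^ 2 + b * (x + z) + c) := by ring
    have e2 := congrArg a e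
    rw [map_mul, hyz, one_mul] at e2
    rw [e2]
    exact unw_sub ha h h'
  have e3 := key2 x₁ x₂ x₃ h23 (key _ _ h12 h1 h2) (key _ _ h13 h1 h3)
  have e4 := key2 x₁ x₂ x₄ h24 (key _ _ h12 h1 h2) (key _ _ h14 h1 h4)
  have e5 := unw_sub ha e3 e4
  have e6 : x₁ + x₂ + x₃ + b - (x₁ + x₂ + x₄ + b) = x₃ - x₄ := by ring
  rw [e6, h34] at e5
  exact lt_irrefl _ e5

private theorem unw_inf (h1 : S_Pts) (ha : IsNonarchimedean a) (h2 : (2 : L) ≠ 0) (hR : Rsf a)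
    {W : WeierstrassCurve.Affine L} (hN : IsNf W) (hG : Gr a W) : Infinite W.Point := by
  obtain ⟨s, hs, hs1, hs2⟩ := hR.inf
  obtain ⟨-, p2, p3, -⟩ := h1 L h2 W hN
  have hle : ∀ x ∈ s, a (x ^ 3 + W.a₂ * x ^ 2 + W.a₄ * x + W.a₆) ≤ 1 := by
    intro x hx
    have hx1 := hs1 x hx
    have hxn : ∀ n : ℕ, a (x ^ n) ≤ 1 := fun n => by
      rw [map_pow]
      exact pow_le_one₀ (a.nonneg _) hx1
    refine (ha _ _).trans (max_le ((ha _ _).trans (max_le ((ha _ _).trans (max_le (hxn 3) ?_))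
      ?_)) hG.c6)
    · rw [map_mul]
      exact mul_le_one₀ hG.c2 (a.nonneg _) (hxn 2)
    · rw [map_mul]
      exact mul_le_one₀ hG.c4 (a.nonneg _) hx1
  have hbad : {x ∈ s | a (x ^ 3 + W.a₂ * x ^ 2 + W.a₄ * x + W.a₆) < 1}.Finite := by
    by_contra hcon
    have hinf : {x ∈ s | a (x ^ 3 + W.a₂ * x ^ 2 + W.a₄ * x + W.a₆) < 1}.Infinite := hcon
    obtain ⟨x₁, hx₁⟩ := hinf.nonempty
    obtain ⟨x₂, hx₂, hn₂⟩ := (hinf.sdiff (Set.finite_singleton x₁)).nonempty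
    obtain ⟨x₃, hx₃, hn₃⟩ := (hinf.sdiff (Set.toFinite {x₁, x₂})).nonempty
    obtain ⟨x₄, hx₄, hn₄⟩ := (hinf.sdiff (Set.toFinite {x₁, x₂, x₃})).nonempty
    simp only [Set.mem_singleton_iff, Set.mem_insert_iff, not_or] at hn₂ hn₃ hn₄
    exact unw_four ha W.a₂ W.a₄ W.a₆ x₁ x₂ x₃ x₄
      (hs2 _ hx₁.1 _ hx₂.1 (Ne.symm hn₂)) (hs2 _ hx₁.1 _ hx₃.1 (Ne.symm hn₃.1))
      (hs2 _ hx₁.1 _ hx₄.1 (Ne.symm hn₄.1)) (hs2 _ hx₂.1 _ hx₃.1 (Ne.symm hn₃.2))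
      (hs2 _ hx₂.1 _ hx₄.1 (Ne.symm hn₄.2.1)) (hs2 _ hx₃.1 _ hx₄.1 (Ne.symm hn₄.2.2))
      hx₁.2 hx₂.2 hx₃.2 hx₄.2
  rw [← not_finite_iff_infinite]
  intro hfin
  refine (hs.sdiff hbad).not_finite ((Set.finite_range (px : W.Point → L)).subset ?_)
  rintro x ⟨hx, hxb⟩
  have hx1 : a (x ^ 3 + W.a₂ * x ^ 2 + W.a₄ * x + W.a₆) = 1 := by
    refine le_antisymm (hle x hx) ?_
    by_contra hcon
    push Not at hcon
    exact hxb ⟨hx, hcon⟩
  obtain ⟨y, hy⟩ := hR.sq _ hx1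
  obtain ⟨P, hP⟩ := p3 x y hy
  exact ⟨P, (p2 P x y hP).2.1⟩

end

theorem tUnw (h1 : S_Pts) (h2 : S_Bas) (h3 : S_It) (h4 : S_Wmp) (h5 : S_WAd) (h6 : S_Itg)
    (h7 : S_Unr) : S_Unw := by
  intro p _ hp K _ _ W hW v hv hG L _ _ a ha hav hR M _ _ _ _ k R P hRk w hw
  have hcL : CharP L p := charP_of_injective_algebraMap (algebraMap K L).injective p
  have hW0 : IsNf (fr p W 0) := ((h2.2 K p W hW).1 0).1
  have hWk : IsNf (fr p W k) := ((h2.2 K p W hW).1 k).1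
  obtain ⟨h2L, hNf0, -⟩ := h2.1 K (unw_ne hp K) (fr p W 0) hW0 L
  obtain ⟨-, hNfk, -, -, -, hmap⟩ := h2.1 K (unw_ne hp K) (fr p W k) hWk L
  obtain ⟨-, hinjι, -⟩ := hmap L M (Algebra.ofId L M)
  have hGr : Gr a ((fr p W 0)⁄L).toAffine := ((h6 p hp K W hW v hv hG).2 0).2 L a hav
  have hinf : Infinite (Pt p W 0 L) := unw_inf h1 ha h2L hR hNf0 hGr
  obtain ⟨-, -, -, -, hFinj, hFmap, -, hIsR, -, -⟩ := h3 p hp K W hW L
  obtain ⟨hord, -⟩ := hIsR k R hRk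
  have hpk : 0 < p ^ k := pow_pos (Fact.out : p.Prime).pos k
  have hfin : (AddSubgroup.zmultiples R : Set (Pt p W k L)).Finite := by
    rw [← Set.finite_coe_iff]
    have h8 : IsOfFinAddOrder R := by
      rw [← addOrderOf_pos_iff, hord]
      exact hpk
    exact (finite_zmultiples.2 h8)
  have hfin2 : {q : Pt p W 0 L | P + Fn p W k q ∈ AddSubgroup.zmultiples R}.Finite := by
    refine hfin.preimage ?_
    intro q _ q' _ hqq
    exact hFinj k q q' (add_left_cancel hqq)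
  obtain ⟨q, hq⟩ := hfin2.exists_notMem
  have hP' : P + Fn p W k q ∉ AddSubgroup.zmultiples R := hq
  obtain ⟨z, hz0, hz⟩ := h7 p hp K W hW v hv hG L a ha hav hR k R _ hRk hP'
  refine ⟨wn (p ^ k) R (P + Fn p W k q), z, ?_, hz0, hz, ?_⟩
  · exact (h5 L h2L ((fr p W k)⁄L).toAffine hNfk (p ^ k) (AddSubgroup.zmultiples R)
      (P + Fn p W k q) 0 R (AddSubgroup.mem_zmultiples R)).1 hP'
  · have hιP' : pmap (fr p W k) (Algebra.ofId L M) (P + Fn p W k q) ∉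
        AddSubgroup.zmultiples (pmap (fr p W k) (Algebra.ofId L M) R) := by
      intro hmem
      obtain ⟨n, hn⟩ := AddSubgroup.mem_zmultiples_iff.1 hmem
      refine hP' (AddSubgroup.mem_zmultiples_iff.2 ⟨n, ?_⟩)
      refine hinjι ?_
      rw [← hn, map_zsmul]
    obtain ⟨s₃, hs₃, e₃⟩ := hw.gen _ hιP'
    obtain ⟨s₁, hs₁, e₁⟩ := hw.add (pmap (fr p W k) (Algebra.ofId L M) P)
      (pmap (fr p W k) (Algebra.ofId L M) (Fn p W k q))
    obtain ⟨s₂, hs₂, e₂⟩ := (hw.ker (pmap (fr p W k) (Algebra.ofId L M) (Fn p W k q))).2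
      ⟨pmap (fr p W 0) (Algebra.ofId L M) q, (hFmap k L M (Algebra.ofId L M)).1 q⟩
    have e₄ := ((h4.1 K (unw_ne hp K) (fr p W k) hWk L L M (Algebra.ofId L M)).2.2) (p ^ k) R
      (P + Fn p W k q)
    rw [← map_add, e₃, e₄, e₂, one_mul] at e₁
    refine ⟨s₃ / (s₁ * s₂), div_ne_zero hs₃ (mul_ne_zero hs₁ hs₂), ?_⟩
    have e₅ : (algebraMap L M) (wn (p ^ k) R (P + Fn p W k q)) * s₃ ^ p ^ k =
        w (pmap (fr p W k) (Algebra.ofId L M) P) * s₂ ^ p ^ k * s₁ ^ p ^ k := e₁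
    rw [div_pow, mul_pow, mul_div_assoc', e₅]
    have h9 : s₁ ^ p ^ k ≠ 0 := pow_ne_zero _ hs₁
    have h10 : s₂ ^ p ^ k ≠ 0 := pow_ne_zero _ hs₂
    field_simp

end Pool.Agent.MP72V
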