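import Pool.Agent.Lib.MP_72e2e6_nt.WP.Lo.Spec

/-!
# MP_72e2e6_nt, T3p, Lo/Vns: if `V X` is close to `O` then `X` is close to the kernel
-/

set_option autoImplicit false

namespace Pool.Agent.MP72V

open Polynomial WeierstrassCurve

open scoped Classical

private theorem vns_two_ne (p : ℕ) [hp : Fact p.Prime] (hp2 : p ≠ 2) (K : Type) [Field K]
    [CharP K p] : (2 : K) ≠ 0 := by
  intro h0
  have h : ((2 : ℕ) : K) = 0 := by exact_mod_cast h0
  rw [CharP.cast_eq_zero_iff K p 2] at h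
  exact hp2 ((Nat.prime_dvd_prime_iff_eq hp.out Nat.prime_two).mp h)

private theorem vns_odd {G : Type} [AddCommGroup G] (n m : ℕ) (h : n = 2 * m + 1) (Q : G) :
    n • Q = m • (Q + Q) + Q := by
  rw [h, add_nsmul, mul_nsmul, two_nsmul, one_nsmul]

private theorem vns_nat {L : Type} [Field L] (a : AbsoluteValue L ℝ) (ha : IsNonarchimedean a)
    (n : ℕ) : a (n : L) ≤ 1 := by
  induction n with
  | zero => rw [Nat.cast_zero, map_zero]; exact zero_le_one
  | succ n ih =>
    rw [Nat.cast_succ]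
    exact (ha _ _).trans (max_le ih (by rw [map_one]))

private theorem vns_a2 {L : Type} [Field L] (a : AbsoluteValue L ℝ) (ha : IsNonarchimedean a)
    (p : ℕ) (m : ℕ) (hm : p = 2 * m + 1) [CharP L p] : a 2 = 1 := by
  have h1 : (2 : L) * ((m + 1 : ℕ) : L) = 1 := by
    have h2 : ((p : ℕ) : L) = 0 := CharP.cast_eq_zero L p
    rw [hm] at h2
    push_cast at h2 ⊢
    linear_combination h2
  have h3 : a 2 * a ((m + 1 : ℕ) : L) = 1 := by rw [← map_mul, h1, map_one]
  have h4 : a (2 : L) ≤ 1 := by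
    have := vns_nat a ha 2
    exact_mod_cast this
  have h5 := vns_nat a ha (m + 1)
  refine le_antisymm h4 ?_
  rw [← h3]
  exact mul_le_of_le_one_right (a.nonneg _) h5

/-- A product of many factors which are at least `δ`. -/
private theorem vns_prod {L : Type} [Field L] (a : AbsoluteValue L ℝ) (x : L) {δ : ℝ}
    (hδ : 0 ≤ δ) (s : Multiset L) (hs : ∀ z ∈ s, δ ≤ a (x - z)) :
    δ ^ Multiset.card s ≤ a (s.map fun z => x - z).prod := by
  induction s using Multiset.induction_on with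
  | empty => simp
  | cons z s ih =>
    rw [Multiset.card_cons, Multiset.map_cons, Multiset.prod_cons, map_mul, pow_succ, mul_comm]
    exact mul_le_mul (hs z (Multiset.mem_cons_self _ _))
      (ih fun w hw => hs w (Multiset.mem_cons_of_mem hw)) (pow_nonneg hδ _) (a.nonneg _)

/-- A lower bound on a finite set. -/
private theorem vns_min {X : Type} (s : Finset X) (g : X → ℝ) (hg : ∀ z ∈ s, 0 < g z) :
    ∃ κ : ℝ, 0 < κ ∧ ∀ z ∈ s, κ ≤ g z := by
  rcases s.eq_empty_or_nonempty with rfl | hs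
  · exact ⟨1, one_pos, fun z hz => absurd hz (Finset.notMem_empty z)⟩
  · obtain ⟨z, hz, hzm⟩ := Finset.exists_min_image s g hs
    exact ⟨g z, hg z hz, hzm⟩

/-- The value of a polynomial on a ball. -/
private theorem vns_bd {K L : Type} [Field K] [Field L] [Algebra K L] (a : AbsoluteValue L ℝ)
    (A : K[X]) (B : ℝ) : ∃ C : ℝ, 0 ≤ C ∧ ∀ x : L, a x ≤ B → a (aeval x A) ≤ C := by
  refine ⟨∑ i ∈ Finset.range (A.natDegree + 1), a (algebraMap K L (A.coeff i)) * |B| ^ i,
    Finset.sum_nonneg fun i _ => mul_nonneg (a.nonneg _) (pow_nonneg (abs_nonneg _) _),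
    fun x hx => ?_⟩
  rw [Polynomial.aeval_eq_sum_range]
  refine (a.sum_le _ _).trans (Finset.sum_le_sum fun i _ => ?_)
  rw [Algebra.smul_def, map_mul, map_pow]
  exact mul_le_mul_of_nonneg_left (pow_le_pow_left₀ (a.nonneg _) (hx.trans (le_abs_self B)) _)
    (a.nonneg _)

/-- **Vns**. If `V X` is close to `O` then `X` is close to a point of the kernel. -/
theorem tVns (h1 : S_Pts) (h2 : S_Bas) (h3 : S_Pw) (h4 : S_Vr) (h5 : S_Vh) (h6 : S_Or)
    (_h7 : S_Sbg) : S_Vns := by
  intro p hp hp2 K _ _ W hW hod j L _ _ _ a ha R'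
  have : CharP L p := charP_of_injective_algebraMap (algebraMap K L).injective p
  have h2K := vns_two_ne p hp2 K
  have hnf : ∀ i, IsNf (fr p W i) := fun i => ((h2.2 K p W hW).1 i).1
  obtain ⟨⟨A, Ps, hPs⟩, hu⟩ := h3 p hp2 K (fr p W j) (hnf j)
  obtain ⟨-, -, hP1, -, -, -⟩ := hu A Ps hPs
  have hodj : Od p (fr p W j) := ((h6 p hp2 K W hW).2.1 j).mpr hod
  obtain ⟨-, -, o3⟩ := (h6 p hp2 K (fr p W j) (hnf j)).1 A Ps hPs
  have hsepK : Ps.Separable := o3 hodj
  obtain ⟨h2L, hE, -⟩ := h2.1 K h2K (fr p W (j + 1)) (hnf (j + 1)) L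
  obtain ⟨-, hE0, -⟩ := h2.1 K h2K (fr p W j) (hnf j) L
  obtain ⟨q1, q2, q3, -, q5, q6, q7, -, q9, -⟩ := h1 L h2L _ hE
  obtain ⟨r1, r2, -⟩ := h1 L h2L _ hE0
  obtain ⟨-, -, v3⟩ := h4 p hp2 K W hW j L
  obtain ⟨w1, -, -, w4, -⟩ := h5 p hp2 K W hW j L
  obtain ⟨m, hm⟩ : ∃ m, p = 2 * m + 1 := by
    rcases hp.out.eq_two_or_odd' with h | h
    · exact absurd h hp2
    · exact h
  have ha2 : a 2 = 1 := vns_a2 a ha p m hm
  have hsep : (Ps.map (algebraMap K L)).Separable := hsepK.map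
  have hsplit : (Ps.map (algebraMap K L)).Splits := IsSepClosed.splits_of_separable _ hsep
  have hne : Ps.map (algebraMap K L) ≠ 0 := by
    rw [Ne, Polynomial.map_eq_zero]
    exact hP1
  set rts := (Ps.map (algebraMap K L)).roots with hrts
  have hZr : ∀ x ∈ rts, aeval x Ps = 0 := by
    intro x hx
    rw [hrts, mem_roots hne] at hx
    rw [← eval_map_algebraMap]
    exact hx
  have hev : ∀ x : L, aeval x Ps = (Ps.map (algebraMap K L)).leadingCoeff *
      (rts.map fun z => x - z).prod := by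
    intro x
    rw [← eval_map_algebraMap, hsplit.eval_eq_prod_roots]
  -- the points of the kernel
  have hpt : ∀ x : L, ∃ (X : Pt p W (j + 1) L) (y : L), XY X x y := by
    intro x
    have : NeZero (2 : L) := ⟨h2L⟩
    obtain ⟨y, hy⟩ := IsSepClosed.exists_eq_mul_self
      (x ^ 3 + ((fr p W (j + 1))⁄L).toAffine.a₂ * x ^ 2 +
      ((fr p W (j + 1))⁄L).toAffine.a₄ * x + ((fr p W (j + 1))⁄L).toAffine.a₆)
    obtain ⟨P, hP⟩ := q3 x y (by rw [sq, ← hy])
    exact ⟨P, y, hP⟩
  choose T Y hXY using hpt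
  have hker : ∀ x ∈ rts, ∀ (P : Pt p W (j + 1) L) (y : L), XY P x y → Vi p W j P = 0 := by
    intro x hx P y hP
    rw [(v3 A Ps hPs P x y hP).1]
    exact hZr x hx
  have hY : ∀ x ∈ rts, Y x ≠ 0 := by
    intro x hx hy
    have e0 := hXY x
    rw [hy] at e0
    have e1 := q9 _ _ e0
    have e2 := w4 (T x)
    have e3 : Fi p W j (0 : Pt p W j L) = 0 := by
      unfold Fi
      rw [dif_neg]
      rintro ⟨Q, h, -⟩
      exact h rfl
    have e4 : p • T x = m • (T x + T x) + T x := vns_odd p m hm (T x)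
    rw [hker x hx _ _ (hXY x), e3, e4, e1, smul_zero, zero_add] at e2
    exact (q2 _ _ _ (hXY x)).1 e2.symm
  obtain ⟨κ, hκ, hκY⟩ := vns_min rts.toFinset (fun z => a (Y z)) (fun z hz =>
    a.pos (hY z (Multiset.mem_toFinset.1 hz)))
  -- the bound `B`
  obtain ⟨B, hB1, hBR, hBa, hBx⟩ : ∃ B : ℝ, 1 ≤ B ∧ R' ≤ B ∧
      a ((fr p W (j + 1))⁄L).toAffine.a₂ < B ∧ ∀ z ∈ rts, a z < B := by
    obtain ⟨M, hM⟩ := (rts.toFinset.finite_toSet.image fun z => a z).bddAbove
    refine ⟨max (max 1 R') (max (a ((fr p W (j + 1))⁄L).toAffine.a₂) M + 1),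
      (le_max_left _ _).trans (le_max_left _ _), (le_max_right _ _).trans (le_max_left _ _),
      ?_, fun z hz => ?_⟩
    · refine lt_of_lt_of_le ?_ (le_max_right _ _)
      exact (le_max_left _ _).trans_lt (lt_add_one _)
    · refine lt_of_lt_of_le ?_ (le_max_right _ _)
      refine lt_of_le_of_lt ?_ (lt_add_one _)
      exact (hM ⟨z, by simpa using hz, rfl⟩).trans (le_max_right _ _)
  have hB0 : 0 < B := lt_of_lt_of_le one_pos hB1
  obtain ⟨C, hC0, hC⟩ := vns_bd a A B
  have hδ : 0 < κ / B := div_pos hκ hB0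
  have hh : 0 < a (Ps.map (algebraMap K L)).leadingCoeff :=
    a.pos (leadingCoeff_ne_zero.2 hne)
  set D := a (Ps.map (algebraMap K L)).leadingCoeff * (κ / B) ^ Multiset.card rts with hD
  have hD0 : 0 < D := mul_pos hh (pow_pos hδ _)
  refine ⟨C / D ^ 2 + 1, add_pos_of_nonneg_of_pos (div_nonneg hC0 (sq_nonneg _)) one_pos,
    fun X hX => ?_⟩
  by_cases hVX : Vi p W j X = 0
  · exact ⟨X, hVX, Or.inl (sub_self X)⟩
  replace hX := hX.resolve_left hVX
  obtain ⟨x', y', hx'⟩ := (r1 (Vi p W j X)).resolve_left hVX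
  rw [(r2 _ _ _ hx').2.1] at hX
  have hX0 : X ≠ 0 := by
    rintro rfl
    exact hVX w1
  obtain ⟨x, y, hxy⟩ := (q1 X).resolve_left hX0
  rcases le_or_gt B (a x) with hcase | hcase
  · refine ⟨0, w1, Or.inr ?_⟩
    rw [sub_zero, (q2 _ _ _ hxy).2.1]
    exact hBR.trans hcase
  · -- some root is near to `x`
    obtain ⟨z, hz, hzx⟩ : ∃ z ∈ rts, a (x - z) < κ / B := by
      by_contra hcon
      have hcon' : ∀ z ∈ rts, κ / B ≤ a (x - z) := by
        intro z hz
        by_contra h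
        exact hcon ⟨z, hz, not_le.1 h⟩
      have e1 : D ≤ a (aeval x Ps) := by
        rw [hev x, map_mul]
        exact mul_le_mul_of_nonneg_left (vns_prod a x hδ.le rts hcon') (a.nonneg _)
      have e2 : a x' * a (aeval x Ps) ^ 2 ≤ C := by
        rw [← map_pow, ← map_mul, (v3 A Ps hPs X x y hxy).2 x' y' hx']
        exact hC x hcase.le
      have e3 : (C / D ^ 2 + 1) * D ^ 2 ≤ a x' * a (aeval x Ps) ^ 2 :=
        mul_le_mul hX (pow_le_pow_left₀ hD0.le e1 2) (sq_nonneg _) (a.nonneg _)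
      have e4 : (C / D ^ 2 + 1) * D ^ 2 = C + D ^ 2 := by
        field_simp
      have e5 : 0 < D ^ 2 := pow_pos hD0 2
      rw [e4] at e3
      linarith
    -- the sign
    have hsg : ∃ (S : Pt p W (j + 1) L) (w : L), XY S z w ∧ κ ≤ a w ∧
        a (y - w) ≤ a (y + w) := by
      have hk := hκY z (Multiset.mem_toFinset.2 hz)
      rcases le_total (a (y - Y z)) (a (y + Y z)) with h | h
      · exact ⟨T z, Y z, hXY z, hk, h⟩
      · refine ⟨-T z, -Y z, q5 _ _ _ (hXY z), ?_, ?_⟩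
        · rw [AbsoluteValue.map_neg]
          exact hk
        · rw [sub_neg_eq_add, ← sub_eq_add_neg]
          exact h
    obtain ⟨S, w, hS, hkw, hyw⟩ := hsg
    have hw : a w ≤ a (y + w) := by
      have e1 : a (2 * w) = a w := by rw [map_mul, ha2, one_mul]
      have e2 : 2 * w = (y + w) + -(y - w) := by ring
      rw [← e1, e2]
      refine (ha _ _).trans (max_le le_rfl ?_)
      rw [AbsoluteValue.map_neg]
      exact hyw
    refine ⟨S, hker z hz S w hS, ?_⟩
    by_cases hxz : x = z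
    · left
      subst hxz
      rcases q6 S X x w y hS hxy with h | h
      · rw [h, sub_self]
      · exfalso
        have e1 := q5 _ _ _ hS
        rw [← h] at e1
        have e2 : y = -w := by
          rw [← (q2 _ _ _ hxy).2.2.1, ← (q2 _ _ _ e1).2.2.1]
        rw [e2, neg_add_cancel, map_zero] at hw
        linarith
    · right
      have hxz0 : 0 < a (x - z) := a.pos (sub_ne_zero.2 hxz)
      have e1 := q7 X (-S) x y z (-w) ((y - -w) / (x - z)) hxy (q5 _ _ _ hS) hxz rfl
      rw [← sub_eq_add_neg] at e1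
      rw [(q2 _ _ _ e1).2.1]
      set l := (y - -w) / (x - z) with hl
      have hal : B ≤ a l := by
        rw [hl, map_div₀, sub_neg_eq_add, le_div_iff₀ hxz0]
        have e3 : B * a (x - z) ≤ B * (κ / B) := mul_le_mul_of_nonneg_left hzx.le hB0.le
        have e4 : B * (κ / B) = κ := by field_simp
        rw [e4] at e3
        exact e3.trans (hkw.trans hw)
      have hal2 : B ≤ a (l ^ 2) := by
        rw [map_pow, sq]
        have e3 : B * 1 ≤ a l * a l := mul_le_mul hal (hB1.trans hal) zero_le_one (a.nonneg _)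
        rwa [mul_one] at e3
      have e5 : a (((fr p W (j + 1))⁄L).toAffine.a₂ + (x + z)) < B :=
        (ha _ _).trans_lt (max_lt hBa ((ha _ _).trans_lt (max_lt hcase (hBx z hz))))
      have e6 : l ^ 2 = (l ^ 2 - ((fr p W (j + 1))⁄L).toAffine.a₂ - x - z) +
          (((fr p W (j + 1))⁄L).toAffine.a₂ + (x + z)) := by ring
      have e7 : a (l ^ 2) ≤ max (a (l ^ 2 - ((fr p W (j + 1))⁄L).toAffine.a₂ - x - z))
          (a (((fr p W (j + 1))⁄L).toAffine.a₂ + (x + z))) := by
        conv_lhs => rw [e6]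
        exact ha _ _
      rcases le_max_iff.1 e7 with h | h
      · exact hBR.trans (hal2.trans h)
      · linarith

end Pool.Agent.MP72V
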