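import Pool.Agent.Lib.MP_72e2e6_nt.WP.Lo.Spec

/-! # MP_72e2e6_nt, block Lo: unit values at places of good reduction -/

namespace Pool.Agent.MP72V

open Polynomial WeierstrassCurve
open Pool.Agent.MP72W (pmap)
open Pool.Agent

open scoped Classical

section wu1

variable {L : Type} [Field L] {a : AbsoluteValue L ℝ}

private theorem wu1_add (ha : IsNonarchimedean a) {x y : L} (hx : a x ≤ 1) (hy : a y ≤ 1) :
    a (x + y) ≤ 1 := (ha x y).trans (max_le hx hy)

private theorem wu1_sub (ha : IsNonarchimedean a) {x y : L} (hx : a x ≤ 1) (hy : a y ≤ 1) :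
    a (x - y) ≤ 1 := by
  rw [sub_eq_add_neg]
  exact wu1_add ha hx (by rw [a.map_neg]; exact hy)

private theorem wu1_mul {x y : L} (hx : a x ≤ 1) (hy : a y ≤ 1) : a (x * y) ≤ 1 := by
  rw [map_mul]
  exact mul_le_one₀ hx (a.nonneg y) hy

private theorem wu1_one {x y : ℝ} (hx0 : 0 ≤ x) (hx : x ≤ 1) (hy : y ≤ 1) (h : x * y = 1) :
    x = 1 := by
  refine le_antisymm hx ?_
  calc 1 = x * y := h.symm
    _ ≤ x * 1 := mul_le_mul_of_nonneg_left hy hx0
    _ = x := mul_one x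

private theorem wu1_fv (h1 : S_Pts) (h3 : S_Sl) (h4 : S_Nz) (ha : IsNonarchimedean a)
    (h2 : (2 : L) ≠ 0) {W : WeierstrassCurve.Affine L} (hW : IsNf W) (hg : Gr a W)
    (hpy : ∀ P : W.Point, a (px P) ≤ 1 → a (py P) ≤ 1) {G : AddSubgroup W.Point}
    (hG : ∀ T ∈ G, T ≠ 0 → a (px T) ≤ 1) {c : W.Point} (hc : c ≠ 0) (hc1 : a (px c) ≤ 1)
    (hcG : ∀ T ∈ G, T ≠ 0 → a (px c - px T) = 1) {A B : W.Point} (hA : A ∈ G) (hB : B ∈ G) :
    a (fv A B c) = 1 := by
  unfold fv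
  by_cases h5 : A = 0 ∨ B = 0
  · have h6 : nv A B c = 1 := by unfold nv; rw [if_pos h5]
    have h7 : dv A B c = 1 := by
      unfold dv
      rw [if_pos (h5.elim Or.inl fun h => Or.inr (Or.inl h))]
    rw [h6, h7, div_one, map_one]
  obtain ⟨hA0, hB0⟩ := not_or.1 h5
  by_cases h6 : A + B = 0
  · have h7 : nv A B c = px c - px A := by unfold nv; rw [if_neg h5, if_pos h6]
    have h8 : dv A B c = 1 := by
      unfold dv
      rw [if_pos (Or.inr (Or.inr h6))]
    rw [h7, h8, div_one]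
    exact hcG A hA hA0
  have hAB : A + B ∈ G := G.add_mem hA hB
  have h7 : dv A B c = px c - px (A + B) := by
    unfold dv
    rw [if_neg]
    rintro (h | h | h)
    · exact hA0 h
    · exact hB0 h
    · exact h6 h
  have hpA := hG A hA hA0
  have hpB := hG B hB hB0
  have hpAB := hG _ hAB h6
  have hsl : a (sl A B) ≤ 1 := by
    obtain ⟨h8, -⟩ := (h3 L h2 W hW).2.2.2 A B hA0 hB0 h6
    have h9 : sl A B ^ 2 = px (A + B) + W.a₂ + px A + px B := by
      rw [h8]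
      ring
    have h10 : a (sl A B) ^ 2 ≤ 1 := by
      rw [← map_pow, h9]
      exact wu1_add ha (wu1_add ha (wu1_add ha hpAB hg.c2) hpA) hpB
    exact (pow_le_one_iff_of_nonneg (a.nonneg _) two_ne_zero).1 h10
  have hnv : ∀ T : W.Point, a (px T) ≤ 1 → a (nv A B T) ≤ 1 := by
    intro T hT
    unfold nv
    rw [if_neg h5, if_neg h6]
    exact wu1_sub ha (wu1_sub ha (hpy T hT) (hpy A hpA)) (wu1_mul hsl (wu1_sub ha hT hpA))
  have hneg : px (-c) = px c := by
    rcases (h1 L h2 W hW).1 c with h | ⟨x, y, hxy⟩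
    · exact absurd h hc
    · have h8 := (h1 L h2 W hW).2.2.2.2.1 c x y hxy
      rw [((h1 L h2 W hW).2.1 _ _ _ h8).2.1, ((h1 L h2 W hW).2.1 _ _ _ hxy).2.1]
  have h8 := (h4 L h2 W hW).1 A B c hA0 hB0 h6 hc
  have h9 := congrArg a h8
  rw [map_mul, a.map_neg, map_mul, map_mul, hcG A hA hA0, hcG B hB hB0, hcG _ hAB h6,
    one_mul, one_mul] at h9
  have h10 : a (nv A B c) = 1 :=
    wu1_one (a.nonneg _) (hnv c hc1) (hnv (-c) (by rw [hneg]; exact hc1)) h9
  rw [map_div₀, h10, h7, hcG _ hAB h6, div_one]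

end wu1

theorem tWu1 (h1 : S_Pts) (h2 : S_Bas) (h3 : S_Sl) (h4 : S_Nz) (h5 : S_It) (h6 : S_Itg)
    (h7 : S_Rcl) (h8 : S_Kit) : S_Wu1 := by
  intro p _ hp2 K _ _ W hW v hv hgd L _ _ a ha hav k R hR
  have hp : p.Prime := Fact.out
  have hcL : CharP L p := charP_of_injective_algebraMap (algebraMap K L).injective p
  have h2K : (2 : K) ≠ 0 := by
    intro h
    have h9 : ((2 : ℕ) : K) = 0 := by exact_mod_cast h
    rw [CharP.cast_eq_zero_iff K p] at h9
    exact hp2 ((Nat.prime_dvd_prime_iff_eq hp Nat.prime_two).1 h9)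
  obtain ⟨h2L, hWk, -⟩ := h2.1 K h2K (fr p W k) ((h2.2 K p W hW).1 k).1 L
  have hgr : Gr a ((fr p W k)⁄L).toAffine := ((h6 p hp2 K W hW v hv hgd).2 k).2 L a hav
  have ha2 : a 2 = 1 := by
    have h9 : (2 : ZMod p) ^ (p - 1) = 1 := by
      refine ZMod.pow_card_sub_one_eq_one ?_
      intro h
      have h10 : ((2 : ℕ) : ZMod p) = 0 := by exact_mod_cast h
      rw [ZMod.natCast_eq_zero_iff] at h10
      exact hp2 ((Nat.prime_dvd_prime_iff_eq hp Nat.prime_two).1 h10)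
    have h10 : (2 : L) ^ (p - 1) = 1 := by
      have h11 := congrArg (ZMod.castHom (dvd_refl p) L) h9
      rw [map_pow, map_one, map_ofNat] at h11
      exact h11
    have h11 : a 2 ^ (p - 1) = 1 := by rw [← map_pow, h10, map_one]
    exact (pow_eq_one_iff_of_nonneg (a.nonneg _) (Nat.sub_ne_zero_of_lt hp.one_lt)).1 h11
  have hG : ∀ T ∈ AddSubgroup.zmultiples R, T ≠ 0 → a (px T) ≤ 1 := by
    intro T hT hT0
    rw [AddSubgroup.mem_zmultiples_iff] at hT
    obtain ⟨m, rfl⟩ := hT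
    have h9 : Vn p W k (m • R) = 0 := by
      have h10 := map_zsmul (AddMonoidHom.mk' (Vn p W k) ((h5 p hp2 K W hW L).2.1 k)) m R
      change Vn p W k (m • R) = m • Vn p W k R at h10
      rw [h10, hR.1, smul_zero]
    exact ((h8 p hp2 K W hW v hv hgd L a ha hav).2.1 k _ h9).resolve_left hT0
  refine ⟨hG, ?_⟩
  intro c hc hc1 hcG n
  unfold wn
  rw [map_prod]
  refine Finset.prod_eq_one fun i _ => ?_
  exact wu1_fv h1 h3 h4 ha h2L hWk hgr (h7 L a ha ha2 _ hWk hgr).2.2 hG hc hc1 hcG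
    (AddSubgroup.mem_zmultiples R) (AddSubgroup.nsmul_mem _ (AddSubgroup.mem_zmultiples R) i)

end Pool.Agent.MP72V
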