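import Pool.Agent.Lib.MP_72e2e6_nt.WP.Lo.Spec

/-!
# MP_72e2e6_nt, theorem T3 for odd characteristic, block Lo: the choice of an auxiliary point
-/

namespace Pool.Agent.MP72V

open Polynomial WeierstrassCurve
open Pool.Agent

open scoped Classical

section

variable {L : Type} [Field L] {a : AbsoluteValue L ℝ}

private theorem wu_lt_add (ha : IsNonarchimedean a) {x y : L} (hx : a x < 1) (hy : a y < 1) :
    a (x + y) < 1 := (ha x y).trans_lt (max_lt hx hy)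

private theorem wu_lt_neg {x : L} (hx : a x < 1) : a (-x) < 1 := by rwa [a.map_neg]

private theorem wu_lt_sub (ha : IsNonarchimedean a) {x y : L} (hx : a x < 1) (hy : a y < 1) :
    a (x - y) < 1 := by
  rw [sub_eq_add_neg]
  exact wu_lt_add ha hx (wu_lt_neg hy)

private theorem wu_lt_mul {x y : L} (hx : a x < 1) (hy : a y ≤ 1) : a (x * y) < 1 := by
  rw [map_mul]
  calc a x * a y ≤ a x * 1 := mul_le_mul_of_nonneg_left hy (a.nonneg x)
    _ < 1 := by rwa [mul_one]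

private theorem wu_lt_div {d z w : L} (hd : a d = 1) (h : d * z = w) (hw : a w < 1) : a z < 1 := by
  rw [← h, map_mul, hd, one_mul] at hw
  exact hw

/-- the integral elements -/
private def wuO (ha : IsNonarchimedean a) : Subring L where
  carrier := {x | a x ≤ 1}
  mul_mem' {x y} hx hy := by
    change a (x * y) ≤ 1
    rw [map_mul]
    exact mul_le_one₀ hx (a.nonneg y) hy
  one_mem' := by
    change a 1 ≤ 1
    rw [map_one]
  add_mem' {x y} hx hy := (ha x y).trans (max_le hx hy)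
  zero_mem' := by
    change a 0 ≤ 1
    rw [map_zero]
    exact zero_le_one
  neg_mem' {x} hx := by
    change a (-x) ≤ 1
    rw [a.map_neg]
    exact hx

private theorem wu_eq_add (ha : IsNonarchimedean a) {x y : L} (hx : a x = 1) (hy : a y < 1) :
    a (x + y) = 1 := by
  apply le_antisymm
  · exact (ha x y).trans (max_le hx.le hy.le)
  · by_contra h
    rw [not_le] at h
    have h1 : a x < 1 := by
      have h2 : x = (x + y) - y := by ring
      rw [h2]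
      exact wu_lt_sub ha h hy
    exact h1.ne hx

private theorem wu_bad (ha : IsNonarchimedean a) (s : Set L) (hs1 : ∀ x ∈ s, a x ≤ 1)
    (hs2 : ∀ x ∈ s, ∀ y ∈ s, x ≠ y → a (x - y) = 1) (c0 c1 c2 c3 : L)
    (hu : ¬(a c0 < 1 ∧ a c1 < 1 ∧ a c2 < 1 ∧ a c3 < 1)) :
    {x | x ∈ s ∧ a (c0 + c1 * x + c2 * x ^ 2 + c3 * x ^ 3) < 1}.Finite := by
  by_contra hinf
  have hinf' : {x | x ∈ s ∧ a (c0 + c1 * x + c2 * x ^ 2 + c3 * x ^ 3) < 1}.Infinite := hinf
  obtain ⟨x1, hx1, h1⟩ := hinf'.nonempty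
  obtain ⟨x2, ⟨hx2, h2⟩, n2⟩ := (hinf'.sdiff (Set.finite_singleton x1)).nonempty
  obtain ⟨x3, ⟨hx3, h3⟩, n3⟩ := (hinf'.sdiff (Set.toFinite {x1, x2})).nonempty
  obtain ⟨x4, ⟨hx4, h4⟩, n4⟩ := (hinf'.sdiff (Set.toFinite {x1, x2, x3})).nonempty
  simp only [Set.mem_singleton_iff, Set.mem_insert_iff, not_or] at n2 n3 n4
  have i1 : x1 ∈ wuO ha := hs1 _ hx1
  have i2 : x2 ∈ wuO ha := hs1 _ hx2
  have i3 : x3 ∈ wuO ha := hs1 _ hx3
  have q2 : a (c1 + c2 * (x2 + x1) + c3 * (x2 ^ 2 + x2 * x1 + x1 ^ 2)) < 1 :=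
    wu_lt_div (hs2 _ hx2 _ hx1 n2) (by ring) (wu_lt_sub ha h2 h1)
  have q3 : a (c1 + c2 * (x3 + x1) + c3 * (x3 ^ 2 + x3 * x1 + x1 ^ 2)) < 1 :=
    wu_lt_div (hs2 _ hx3 _ hx1 n3.1) (by ring) (wu_lt_sub ha h3 h1)
  have q4 : a (c1 + c2 * (x4 + x1) + c3 * (x4 ^ 2 + x4 * x1 + x1 ^ 2)) < 1 :=
    wu_lt_div (hs2 _ hx4 _ hx1 n4.1) (by ring) (wu_lt_sub ha h4 h1)
  have r3 : a (c2 + c3 * (x3 + x2 + x1)) < 1 :=
    wu_lt_div (hs2 _ hx3 _ hx2 n3.2) (by ring) (wu_lt_sub ha q3 q2)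
  have r4 : a (c2 + c3 * (x4 + x2 + x1)) < 1 :=
    wu_lt_div (hs2 _ hx4 _ hx2 n4.2.1) (by ring) (wu_lt_sub ha q4 q2)
  have e3 : a c3 < 1 := wu_lt_div (hs2 _ hx4 _ hx3 n4.2.2) (by ring) (wu_lt_sub ha r4 r3)
  have j1 : x3 + x2 + x1 ∈ wuO ha := add_mem (add_mem i3 i2) i1
  have j2 : x2 + x1 ∈ wuO ha := add_mem i2 i1
  have j3 : x2 ^ 2 + x2 * x1 + x1 ^ 2 ∈ wuO ha :=
    add_mem (add_mem (pow_mem i2 2) (mul_mem i2 i1)) (pow_mem i1 2)
  have e2 : a c2 < 1 := by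
    have h5 := wu_lt_sub ha r3 (wu_lt_mul e3 j1)
    rwa [add_sub_cancel_right] at h5
  have e1 : a c1 < 1 := by
    have h5 := wu_lt_sub ha (wu_lt_sub ha q2 (wu_lt_mul e3 j3)) (wu_lt_mul e2 j2)
    rwa [add_sub_cancel_right, add_sub_cancel_right] at h5
  have e0 : a c0 < 1 := by
    have h5 := wu_lt_sub ha (wu_lt_sub ha (wu_lt_sub ha h1 (wu_lt_mul e3 (pow_mem i1 3)))
      (wu_lt_mul e2 (pow_mem i1 2))) (wu_lt_mul e1 i1)
    rwa [add_sub_cancel_right, add_sub_cancel_right, add_sub_cancel_right] at h5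
  exact hu ⟨e0, e1, e2, e3⟩

private theorem wu_fin (ha : IsNonarchimedean a) {Xp Xm e n0 n1 : L} (he : a e = 1)
    (h0 : Xp * Xm * e ^ 2 = n0) (h1 : (Xp + Xm) * e ^ 2 = n1) (i0 : a n0 ≤ 1) (i1 : a n1 ≤ 1) :
    a Xp ≤ 1 ∧ a Xm ≤ 1 ∧ ∀ h, a h ≤ 1 → a (n0 - h * n1 + h ^ 2 * e ^ 2) = 1 →
      a (Xp - h) = 1 ∧ a (Xm - h) = 1 := by
  have k0 : a (Xp * Xm) ≤ 1 := by
    have h2 := congrArg a h0
    rw [map_mul, map_pow, he, one_pow, mul_one] at h2
    rw [h2]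
    exact i0
  have k1 : a (Xp + Xm) ≤ 1 := by
    have h2 := congrArg a h1
    rw [map_mul, map_pow, he, one_pow, mul_one] at h2
    rw [h2]
    exact i1
  have key : ∀ X Y : L, a (X * Y) ≤ 1 → a (X + Y) ≤ 1 → a X ≤ 1 := by
    intro X Y h2 h3
    by_contra h4
    rw [not_le] at h4
    have h5 : X * X = (X + Y) * X + -(X * Y) := by ring
    have h6 : a (X * X) ≤ a X := by
      rw [h5]
      refine (ha _ _).trans (max_le ?_ ?_)
      · rw [map_mul]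
        exact mul_le_of_le_one_left (a.nonneg X) h3
      · rw [a.map_neg]
        exact h2.trans h4.le
    rw [map_mul] at h6
    nlinarith
  have kp : a Xp ≤ 1 := key Xp Xm k0 k1
  have km : a Xm ≤ 1 := key Xm Xp (by rwa [mul_comm]) (by rwa [add_comm])
  refine ⟨kp, km, fun h hh h2 => ?_⟩
  have h3 : n0 - h * n1 + h ^ 2 * e ^ 2 = (Xp - h) * (Xm - h) * e ^ 2 := by
    rw [← h0, ← h1]
    ring
  rw [h3, map_mul, map_mul, map_pow, he, one_pow, mul_one] at h2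
  have mp : a (Xp - h) ≤ 1 := (wuO ha).sub_mem kp hh
  have mm : a (Xm - h) ≤ 1 := (wuO ha).sub_mem km hh
  have np := a.nonneg (Xp - h)
  have nm := a.nonneg (Xm - h)
  constructor
  · nlinarith
  · nlinarith

/-- The identity (B). -/
private theorem wu_disc (W : WeierstrassCurve.Affine L) (hW : IsNf W) (x : L) :
    W.Δ = 16 * (((18 * W.a₄ - 6 * W.a₂ ^ 2) * x + 15 * W.a₂ * W.a₄ - 4 * W.a₂ ^ 3 - 27 * W.a₆) *
      (x ^ 3 + W.a₂ * x ^ 2 + W.a₄ * x + W.a₆) -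
      ((6 * W.a₄ - 2 * W.a₂ ^ 2) * x ^ 2 + (7 * W.a₂ * W.a₄ - 2 * W.a₂ ^ 3 - 9 * W.a₆) * x +
        4 * W.a₄ ^ 2 - W.a₂ ^ 2 * W.a₄ - 3 * W.a₂ * W.a₆) *
      (3 * x ^ 2 + 2 * W.a₂ * x + W.a₄)) := by
  rw [WeierstrassCurve.Δ, WeierstrassCurve.b₂, WeierstrassCurve.b₄, WeierstrassCurve.b₆,
    WeierstrassCurve.b₈, hW.a1, hW.a3]
  ring

/-- The sum and the product of the abscissae of `c + P`, `c - P`. -/
private theorem wu_sumprod {A B C x y x0 y0 lp lm Xp Xm : L} (hd : x0 - x ≠ 0)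
    (hy : y ^ 2 = x ^ 3 + A * x ^ 2 + B * x + C)
    (hy0 : y0 ^ 2 = x0 ^ 3 + A * x0 ^ 2 + B * x0 + C)
    (hlp : lp = (y0 - y) / (x0 - x)) (hlm : lm = (y0 - -y) / (x0 - x))
    (hXp : Xp = lp ^ 2 - A - x0 - x) (hXm : Xm = lm ^ 2 - A - x0 - x) :
    Xp * Xm * (x0 - x) ^ 2 = (x * x0) ^ 2 - 2 * B * (x * x0) - 4 * C * (x + x0) -
      (4 * A * C - B ^ 2) ∧
    (Xp + Xm) * (x0 - x) ^ 2 = 2 * (x + x0) * (x * x0) + 4 * A * (x * x0) + 2 * B * (x + x0) +
      4 * C := by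
  have h1 : lp * (x0 - x) = y0 - y := by
    rw [hlp, div_mul_cancel₀ _ hd]
  have h2 : lm * (x0 - x) = y0 + y := by
    rw [hlm, div_mul_cancel₀ _ hd, sub_neg_eq_add]
  have e1 : Xp * (x0 - x) ^ 2 = (y0 - y) ^ 2 - (A + x0 + x) * (x0 - x) ^ 2 := by
    rw [hXp, ← h1]
    ring
  have e2 : Xm * (x0 - x) ^ 2 = (y0 + y) ^ 2 - (A + x0 + x) * (x0 - x) ^ 2 := by
    rw [hXm, ← h2]
    ring
  constructor
  · have h3 : (Xp * Xm * (x0 - x) ^ 2 - ((x * x0) ^ 2 - 2 * B * (x * x0) - 4 * C * (x + x0) -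
        (4 * A * C - B ^ 2))) * (x0 - x) ^ 2 = 0 := by
      have h4 : (Xp * Xm * (x0 - x) ^ 2 - ((x * x0) ^ 2 - 2 * B * (x * x0) - 4 * C * (x + x0) -
        (4 * A * C - B ^ 2))) * (x0 - x) ^ 2 = (Xp * (x0 - x) ^ 2) * (Xm * (x0 - x) ^ 2) -
        ((x * x0) ^ 2 - 2 * B * (x * x0) - 4 * C * (x + x0) -
        (4 * A * C - B ^ 2)) * (x0 - x) ^ 2 := by ring
      rw [h4, e1, e2]
      have h5 : ((y0 - y) ^ 2 - (A + x0 + x) * (x0 - x) ^ 2) *
          ((y0 + y) ^ 2 - (A + x0 + x) * (x0 - x) ^ 2) = (y0 ^ 2 - y ^ 2) ^ 2 -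
          2 * (A + x0 + x) * (x0 - x) ^ 2 * (y0 ^ 2 + y ^ 2) +
          (A + x0 + x) ^ 2 * (x0 - x) ^ 4 := by ring
      rw [h5, hy, hy0]
      ring
    have h4 := (mul_eq_zero.1 h3).resolve_right (pow_ne_zero 2 hd)
    exact sub_eq_zero.1 h4
  · rw [add_mul, e1, e2]
    linear_combination 2 * hy0 + 2 * hy

private theorem wu_eq_one {x : L} (h1 : a x ≤ 1) (h2 : ¬ a x < 1) : a x = 1 :=
  le_antisymm h1 (not_lt.1 h2)

end

theorem tWu2 (h1 : S_Pts) (_h2 : S_AS) : S_Wu2 := by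
  intro L _ a ha h2a hR W hW hG H hHf hH P hP
  have two : (2 : L) ≠ 0 := by
    intro h
    rw [h, map_zero] at h2a
    exact zero_ne_one h2a
  obtain ⟨p1, p2, p3, p4, p5, p6, p7, -, -, -⟩ := h1 L two W hW
  obtain ⟨s, hsi, hs1, hs2⟩ := hR.inf
  have iA : W.a₂ ∈ wuO ha := hG.c2
  have iB : W.a₄ ∈ wuO ha := hG.c4
  have iC : W.a₆ ∈ wuO ha := hG.c6
  have hdisc := wu_disc W hW
  have hdis := hG.dis
  rcases p1 P with rfl | ⟨x, y, hxy⟩
  · exact absurd rfl hP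
  obtain ⟨-, -, -, hy⟩ := p2 P x y hxy
  set A := W.a₂ with hA
  set B := W.a₄ with hB
  set C := W.a₆ with hC
  have o1 : (1 : L) ∈ wuO ha := one_mem _
  have o2 : (2 : L) ∈ wuO ha := h2a.le
  have o4 : (4 : L) ∈ wuO ha := by norm_num
  have o3 : (3 : L) ∈ wuO ha := by norm_num
  have hnone : ¬ a (1 : L) < 1 := by rw [map_one]; exact lt_irrefl 1
  let c2 : L → L := fun h => (x - h) ^ 2
  let c1 : L → L := fun h => -(2 * B * x + 4 * C + h * (2 * x ^ 2 + 4 * A * x + 2 * B) +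
    2 * h ^ 2 * x)
  let c0 : L → L := fun h => h ^ 2 * x ^ 2 - 4 * C * x - (4 * A * C - B ^ 2) - 2 * B * h * x -
    4 * C * h
  -- the choice of the abscissa
  have hex : ∃ x0 ∈ s, (∀ h ∈ H, ¬ a (-h + 1 * x0 + 0 * x0 ^ 2 + 0 * x0 ^ 3) < 1) ∧
      ¬ a (C + B * x0 + A * x0 ^ 2 + 1 * x0 ^ 3) < 1 ∧
      (a x ≤ 1 → ¬ a (-x + 1 * x0 + 0 * x0 ^ 2 + 0 * x0 ^ 3) < 1 ∧
        ∀ h ∈ H, ¬ a (c0 h + c1 h * x0 + c2 h * x0 ^ 2 + 0 * x0 ^ 3) < 1) := by
    have f1 : (⋃ h ∈ H, {x0 | x0 ∈ s ∧ a (-h + 1 * x0 + 0 * x0 ^ 2 + 0 * x0 ^ 3) < 1}).Finite :=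
      hHf.biUnion fun h _ => wu_bad ha s hs1 hs2 _ _ _ _ fun hc => hnone hc.2.1
    have f2 : {x0 | x0 ∈ s ∧ a (C + B * x0 + A * x0 ^ 2 + 1 * x0 ^ 3) < 1}.Finite :=
      wu_bad ha s hs1 hs2 _ _ _ _ fun hc => hnone hc.2.2.2
    have f3 : {x0 | x0 ∈ s ∧ a (-x + 1 * x0 + 0 * x0 ^ 2 + 0 * x0 ^ 3) < 1}.Finite :=
      wu_bad ha s hs1 hs2 _ _ _ _ fun hc => hnone hc.2.1
    have f4 : a x ≤ 1 → (⋃ h ∈ H, {x0 | x0 ∈ s ∧
        a (c0 h + c1 h * x0 + c2 h * x0 ^ 2 + 0 * x0 ^ 3) < 1}).Finite := by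
      intro hx
      have ix : x ∈ wuO ha := hx
      refine hHf.biUnion fun h hh => wu_bad ha s hs1 hs2 _ _ _ _ ?_
      rintro ⟨k0, k1, k2, -⟩
      have ih : h ∈ wuO ha := hH h hh
      have hxh : a (x - h) < 1 := by
        by_contra hcon
        rw [not_lt] at hcon
        have k3 : a (x - h) ^ 2 < 1 := by
          rw [← map_pow]
          exact k2
        nlinarith
      -- `4 f(x)`
      have k4 : a (x ^ 3 + A * x ^ 2 + B * x + C) < 1 := by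
        have e1 : (4 : L) * (x ^ 3 + A * x ^ 2 + B * x + C) = -(c1 h) +
            (x - h) * (2 * x ^ 2 + 4 * A * x + 2 * B + 2 * x * (x + h)) := by
          simp only [c1]
          ring
        have j : 2 * x ^ 2 + 4 * A * x + 2 * B + 2 * x * (x + h) ∈ wuO ha :=
          add_mem (add_mem (add_mem (mul_mem o2 (pow_mem ix 2)) (mul_mem (mul_mem o4 iA) ix))
            (mul_mem o2 iB)) (mul_mem (mul_mem o2 ix) (add_mem ix ih))
        have a4 : a (4 : L) = 1 := by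
          have e2 : (4 : L) = 2 * 2 := by norm_num
          rw [e2, map_mul, h2a, mul_one]
        exact wu_lt_div a4 e1 (wu_lt_add ha (wu_lt_neg k1) (wu_lt_mul hxh j))
      -- `f'(x) ^ 2`
      have k5 : a (3 * x ^ 2 + 2 * A * x + B) < 1 := by
        by_contra hcon
        rw [not_lt] at hcon
        have e1 : (3 * x ^ 2 + 2 * A * x + B) ^ 2 = c0 h +
            ((x ^ 3 + A * x ^ 2 + B * x + C) * (4 * (A + 2 * x)) +
            (x - h) * (x ^ 2 * (x + h) - 2 * B * x - 4 * C)) := by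
          simp only [c0]
          ring
        have j1 : 4 * (A + 2 * x) ∈ wuO ha := mul_mem o4 (add_mem iA (mul_mem o2 ix))
        have j2 : x ^ 2 * (x + h) - 2 * B * x - 4 * C ∈ wuO ha :=
          sub_mem (sub_mem (mul_mem (pow_mem ix 2) (add_mem ix ih)) (mul_mem (mul_mem o2 iB) ix))
            (mul_mem o4 iC)
        have k6 : a (3 * x ^ 2 + 2 * A * x + B) ^ 2 < 1 := by
          rw [← map_pow, e1]
          exact wu_lt_add ha k0 (wu_lt_add ha (wu_lt_mul k4 j1) (wu_lt_mul hxh j2))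
        nlinarith
      have k7 : a W.Δ < 1 := by
        rw [hdisc x]
        have j3 : (18 * B - 6 * A ^ 2) * x + 15 * A * B - 4 * A ^ 3 - 27 * C ∈ wuO ha := by
          have n18 : (18 : L) ∈ wuO ha := by norm_num
          have n6 : (6 : L) ∈ wuO ha := by norm_num
          have n27 : (27 : L) ∈ wuO ha := by norm_num
          have n15 : (15 : L) ∈ wuO ha := by norm_num
          exact sub_mem (sub_mem (add_mem (mul_mem (sub_mem (mul_mem n18 iB)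
            (mul_mem n6 (pow_mem iA 2))) ix) (mul_mem (mul_mem n15 iA) iB))
            (mul_mem o4 (pow_mem iA 3))) (mul_mem n27 iC)
        have j4 : (6 * B - 2 * A ^ 2) * x ^ 2 + (7 * A * B - 2 * A ^ 3 - 9 * C) * x +
            4 * B ^ 2 - A ^ 2 * B - 3 * A * C ∈ wuO ha := by
          have n6 : (6 : L) ∈ wuO ha := by norm_num
          have n9 : (9 : L) ∈ wuO ha := by norm_num
          have n7 : (7 : L) ∈ wuO ha := by norm_num
          exact sub_mem (sub_mem (add_mem (add_mem (mul_mem (sub_mem (mul_mem n6 iB)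
            (mul_mem o2 (pow_mem iA 2))) (pow_mem ix 2)) (mul_mem (sub_mem (sub_mem
            (mul_mem (mul_mem n7 iA) iB) (mul_mem o2 (pow_mem iA 3))) (mul_mem n9 iC)) ix))
            (mul_mem o4 (pow_mem iB 2))) (mul_mem (pow_mem iA 2) iB)) (mul_mem (mul_mem o3 iA) iC)
        have n16 : (16 : L) ∈ wuO ha := by norm_num
        rw [mul_comm]
        refine wu_lt_mul (wu_lt_sub ha ?_ ?_) n16
        · rw [mul_comm]
          exact wu_lt_mul k4 j3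
        · rw [mul_comm]
          exact wu_lt_mul k5 j4
      rw [hdis] at k7
      exact lt_irrefl 1 k7
    by_cases hx : a x ≤ 1
    · obtain ⟨x0, hx0, hn⟩ := (hsi.sdiff (((f1.union f2).union f3).union (f4 hx))).nonempty
      simp only [Set.mem_union, Set.mem_iUnion, not_or, not_exists, Set.mem_ofPred_eq, not_and] at hn
      exact ⟨x0, hx0, fun h hh => hn.1.1.1 h hh hx0, hn.1.1.2 hx0, fun _ =>
        ⟨hn.1.2 hx0, fun h hh => hn.2 h hh hx0⟩⟩
    · obtain ⟨x0, hx0, hn⟩ := (hsi.sdiff (f1.union f2)).nonempty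
      simp only [Set.mem_union, Set.mem_iUnion, not_or, not_exists, Set.mem_ofPred_eq, not_and] at hn
      exact ⟨x0, hx0, fun h hh => hn.1 h hh hx0, hn.2 hx0, fun h => absurd h hx⟩
  obtain ⟨x0, hx0s, g1, g2, g3⟩ := hex
  have ix0 : x0 ∈ wuO ha := hs1 x0 hx0s
  -- the point
  have hfx0 : a (x0 ^ 3 + A * x0 ^ 2 + B * x0 + C) = 1 := by
    have e1 : C + B * x0 + A * x0 ^ 2 + 1 * x0 ^ 3 = x0 ^ 3 + A * x0 ^ 2 + B * x0 + C := by ring
    rw [e1] at g2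
    refine wu_eq_one ?_ g2
    exact add_mem (add_mem (add_mem (pow_mem ix0 3) (mul_mem iA (pow_mem ix0 2)))
      (mul_mem iB ix0)) iC
  obtain ⟨y0, hy0⟩ := hR.sq _ hfx0
  obtain ⟨c, hc⟩ := p3 x0 y0 hy0
  have hH0 : ∀ h ∈ H, a (x0 - h) = 1 := by
    intro h hh
    have h3 := g1 h hh
    have e1 : -h + 1 * x0 + 0 * x0 ^ 2 + 0 * x0 ^ 3 = x0 - h := by ring
    rw [e1] at h3
    exact wu_eq_one ((wuO ha).sub_mem ix0 (hH h hh)) h3
  have hne : x0 - x ≠ 0 := by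
    intro h
    by_cases hx : a x ≤ 1
    · have h3 := (g3 hx).1
      have e1 : -x + 1 * x0 + 0 * x0 ^ 2 + 0 * x0 ^ 3 = x0 - x := by ring
      rw [e1, h, map_zero] at h3
      exact h3 zero_lt_one
    · rw [← sub_eq_zero.1 h] at hx
      exact hx ix0
  have hne' : x0 ≠ x := sub_ne_zero.1 hne
  have hcP := p7 c P x0 y0 x y _ hc hxy hne' rfl
  have hcM := p7 c (-P) x0 y0 x (-y) _ hc (p5 P x y hxy) hne' rfl
  set lp := (y0 - y) / (x0 - x) with hlp
  set lm := (y0 - -y) / (x0 - x) with hlm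
  obtain ⟨hprod, hsum⟩ := wu_sumprod hne hy hy0 hlp hlm rfl rfl
  set Xp := lp ^ 2 - A - x0 - x with hXp
  set Xm := lm ^ 2 - A - x0 - x with hXm
  obtain ⟨hc0, hpc, -, -⟩ := p2 c _ _ hc
  obtain ⟨hcP0, hpcP, -, -⟩ := p2 (c + P) _ _ hcP
  obtain ⟨hcM0, hpcM, -, -⟩ := p2 (c + -P) _ _ hcM
  have hfin : a Xp ≤ 1 ∧ a Xm ≤ 1 ∧ ∀ h ∈ H, a (Xp - h) = 1 ∧ a (Xm - h) = 1 := by
    by_cases hx : a x ≤ 1
    · have ix : x ∈ wuO ha := hx
      have he : a (x0 - x) = 1 := by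
        have h3 := (g3 hx).1
        have e1 : -x + 1 * x0 + 0 * x0 ^ 2 + 0 * x0 ^ 3 = x0 - x := by ring
        rw [e1] at h3
        exact wu_eq_one ((wuO ha).sub_mem ix0 hx) h3
      have j0 : (x * x0) ^ 2 - 2 * B * (x * x0) - 4 * C * (x + x0) - (4 * A * C - B ^ 2) ∈ wuO ha :=
        sub_mem (sub_mem (sub_mem (pow_mem (mul_mem ix ix0) 2) (mul_mem (mul_mem o2 iB)
          (mul_mem ix ix0))) (mul_mem (mul_mem o4 iC) (add_mem ix ix0)))
          (sub_mem (mul_mem (mul_mem o4 iA) iC) (pow_mem iB 2))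
      have j1 : 2 * (x + x0) * (x * x0) + 4 * A * (x * x0) + 2 * B * (x + x0) + 4 * C ∈ wuO ha :=
        add_mem (add_mem (add_mem (mul_mem (mul_mem o2 (add_mem ix ix0)) (mul_mem ix ix0))
          (mul_mem (mul_mem o4 iA) (mul_mem ix ix0))) (mul_mem (mul_mem o2 iB) (add_mem ix ix0)))
          (mul_mem o4 iC)
      obtain ⟨k1, k2, k3⟩ := wu_fin ha he hprod hsum j0 j1
      refine ⟨k1, k2, fun h hh => k3 h (hH h hh) ?_⟩
      have ih : h ∈ wuO ha := hH h hh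
      refine wu_eq_one ?_ ?_
      · exact add_mem (sub_mem j0 (mul_mem ih j1)) (mul_mem (pow_mem ih 2)
          (pow_mem (sub_mem ix0 ix) 2))
      · have h3 := (g3 hx).2 h hh
        have e1 : c0 h + c1 h * x0 + c2 h * x0 ^ 2 + 0 * x0 ^ 3 =
            (x * x0) ^ 2 - 2 * B * (x * x0) - 4 * C * (x + x0) - (4 * A * C - B ^ 2) -
            h * (2 * (x + x0) * (x * x0) + 4 * A * (x * x0) + 2 * B * (x + x0) + 4 * C) +
            h ^ 2 * (x0 - x) ^ 2 := by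
          simp only [c0, c1, c2]
          ring
        rwa [e1] at h3
    · rw [not_le] at hx
      have hx0 : x ≠ 0 := by
        intro h
        rw [h, map_zero] at hx
        exact absurd hx (by norm_num)
      obtain ⟨u, hu⟩ : ∃ u, u = x⁻¹ := ⟨_, rfl⟩
      have hxu : x * u = 1 := by rw [hu, mul_inv_cancel₀ hx0]
      have hul : a u < 1 := by
        rw [hu, map_inv₀]
        exact inv_lt_one_of_one_lt₀ hx
      have iu : u ∈ wuO ha := hul.le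
      have he : a (x0 * u - 1) = 1 := by
        have e1 : x0 * u - 1 = -1 + u * x0 := by ring
        rw [e1]
        exact wu_eq_add ha (by rw [a.map_neg, map_one]) (wu_lt_mul hul ix0)
      have hex2 : (x0 * u - 1) * x = x0 - x := by linear_combination x0 * hxu
      set n0 := x0 ^ 2 - 2 * B * x0 * u - 4 * C * (u + x0 * u ^ 2) - (4 * A * C - B ^ 2) * u ^ 2
        with hn0
      set n1 := 2 * (1 + x0 * u) * x0 + 4 * A * x0 * u + 2 * B * (u + x0 * u ^ 2) + 4 * C * u ^ 2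
        with hn1
      have q0 : n0 * x ^ 2 = (x * x0) ^ 2 - 2 * B * (x * x0) - 4 * C * (x + x0) -
          (4 * A * C - B ^ 2) := by
        rw [hn0, hu]
        field_simp
      have q1 : n1 * x ^ 2 = 2 * (x + x0) * (x * x0) + 4 * A * (x * x0) + 2 * B * (x + x0) +
          4 * C := by
        rw [hn1, hu]
        field_simp
      have r0 : Xp * Xm * (x0 * u - 1) ^ 2 = n0 := by
        apply mul_right_cancel₀ (pow_ne_zero 2 hx0)
        rw [q0, ← hprod, ← hex2]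
        ring
      have r1 : (Xp + Xm) * (x0 * u - 1) ^ 2 = n1 := by
        apply mul_right_cancel₀ (pow_ne_zero 2 hx0)
        rw [q1, ← hsum, ← hex2]
        ring
      have j0 : n0 ∈ wuO ha :=
        sub_mem (sub_mem (sub_mem (pow_mem ix0 2) (mul_mem (mul_mem (mul_mem o2 iB) ix0) iu))
          (mul_mem (mul_mem o4 iC) (add_mem iu (mul_mem ix0 (pow_mem iu 2)))))
          (mul_mem (sub_mem (mul_mem (mul_mem o4 iA) iC) (pow_mem iB 2)) (pow_mem iu 2))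
      have j1 : n1 ∈ wuO ha :=
        add_mem (add_mem (add_mem (mul_mem (mul_mem o2 (add_mem o1 (mul_mem ix0 iu))) ix0)
          (mul_mem (mul_mem (mul_mem o4 iA) ix0) iu)) (mul_mem (mul_mem o2 iB)
          (add_mem iu (mul_mem ix0 (pow_mem iu 2))))) (mul_mem (mul_mem o4 iC) (pow_mem iu 2))
      obtain ⟨k1, k2, k3⟩ := wu_fin ha he r0 r1 j0 j1
      refine ⟨k1, k2, fun h hh => k3 h (hH h hh) ?_⟩
      have ih : h ∈ wuO ha := hH h hh
      have e1 : n0 - h * n1 + h ^ 2 * (x0 * u - 1) ^ 2 = (x0 - h) ^ 2 +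
          u * (-(2 * B * x0) - 4 * C - h * (2 * x0 ^ 2 + 4 * A * x0 + 2 * B) - 2 * h ^ 2 * x0 +
          u * (-(4 * C * x0) - (4 * A * C - B ^ 2) - h * (2 * B * x0 + 4 * C) +
          h ^ 2 * x0 ^ 2)) := by
        rw [hn0, hn1]
        ring
      rw [e1]
      refine wu_eq_add ha ?_ (wu_lt_mul hul ?_)
      · rw [map_pow, hH0 h hh, one_pow]
      · exact add_mem (sub_mem (sub_mem (sub_mem (neg_mem (mul_mem (mul_mem o2 iB) ix0))
          (mul_mem o4 iC)) (mul_mem ih (add_mem (add_mem (mul_mem o2 (pow_mem ix0 2))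
          (mul_mem (mul_mem o4 iA) ix0)) (mul_mem o2 iB)))) (mul_mem (mul_mem o2 (pow_mem ih 2))
          ix0)) (mul_mem iu (add_mem (sub_mem (sub_mem (neg_mem (mul_mem (mul_mem o4 iC) ix0))
          (sub_mem (mul_mem (mul_mem o4 iA) iC) (pow_mem iB 2))) (mul_mem ih (add_mem
          (mul_mem (mul_mem o2 iB) ix0) (mul_mem o4 iC)))) (mul_mem (pow_mem ih 2)
          (pow_mem ix0 2))))
  refine ⟨c, hc0, hcP0, ?_⟩
  rw [sub_eq_add_neg c P, hpc, hpcP, hpcM]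
  exact ⟨hcM0, ix0, hfin.1, hfin.2.1, fun h hh => ⟨hH0 h hh, hfin.2.2 h hh⟩⟩

end Pool.Agent.MP72V
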