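import Pool.Agent.Lib.MP_72e2e6_nt.WP.Fd.Defs

/-!
# MP_72e2e6_nt, theorem T3 for odd characteristic, block Lo (local theory of the curves): definitions
-/

namespace Pool.Agent.MP72V

open Polynomial WeierstrassCurve
open Pool.Agent.MP72W (pmap)
open Pool.Agent.MP72P (EqN Kvs Kgs nm op)

open scoped Classical

section

variable {L : Type} [Field L]

/-- `P` is close to the point at infinity: `P = O` or the abscissa of `P` is at least `R`. -/
def Sm (a : AbsoluteValue L ℝ) (R : ℝ) {W : WeierstrassCurve.Affine L} (P : W.Point) : Prop :=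
  P = 0 ∨ R ≤ a (px P)

/-- `R` is large with respect to the coefficients. -/
structure Lgc (a : AbsoluteValue L ℝ) (W : WeierstrassCurve.Affine L) (R : ℝ) : Prop where
  one : 1 ≤ R
  c2 : a W.a₂ < R
  c4 : a W.a₄ < R ^ 2
  c6 : a W.a₆ < R ^ 3

/-- Integral coefficients and unit discriminant. -/
structure Gr (a : AbsoluteValue L ℝ) (W : WeierstrassCurve.Affine L) : Prop where
  c2 : a W.a₂ ≤ 1
  c4 : a W.a₄ ≤ 1
  c6 : a W.a₆ ≤ 1
  dis : a W.Δ = 1

/-- The residue field is infinite, and units are squares. -/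
structure Rsf (a : AbsoluteValue L ℝ) : Prop where
  inf : ∃ s : Set L, s.Infinite ∧ (∀ x ∈ s, a x ≤ 1) ∧ ∀ x ∈ s, ∀ y ∈ s, x ≠ y → a (x - y) = 1
  sq : ∀ u : L, a u = 1 → ∃ y : L, y ^ 2 = u

end

/-- Good ordinary reduction at `v`. -/
structure Gd (p : ℕ) {K : Type} [Field K] (W : WeierstrassCurve K) (v : AbsoluteValue K ℝ) :
    Prop where
  c2 : v W.a₂ ≤ 1
  c4 : v W.a₄ ≤ 1
  c6 : v W.a₆ ≤ 1
  dis : v W.Δ = 1
  ps : ∀ A Ps : K[X], IsPs W p A Ps → Ps.natDegree = (p - 1) / 2 ∧ v Ps.leadingCoeff = 1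

/-- `h` is the Artin-Schreier homomorphism of `D`: `g θ = θ + h g` for a root of `θ ^ p - θ = D`. -/
def IsTh (p : ℕ) {S L : Type} [Field S] [Field L] [Algebra S L] (D : S) (h : Gal(L/S) → ZMod p) :
    Prop :=
  ∃ θ : L, θ ^ p - θ = algebraMap S L D ∧ ∀ g : Gal(L/S), g θ = θ + op L (h g)

/-- The vector `e` is fixed by the twisted action of the Galois group. -/
def Twf (p : ℕ) {K : Type} [Field K] (W : WeierstrassCurve K) {S L : Type} [Field S] [Field L]
    [Algebra K S] [Algebra K L] [Algebra S L] [IsScalarTower K S L] (h : Gal(L/S) → ZMod p)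
    (j : ℕ) (e : ZMod p → Pt p W j L) : Prop :=
  ∀ (g : Gal(L/S)) (i : ZMod p), e i = pmap (fr p W j) (g : L →ₐ[S] L) (e (i - h g))

end Pool.Agent.MP72V
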