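import Pool.Agent.Lib.MP_72e2e6_nt.WP.Lo.Spec

/-!
# MP_72e2e6_nt, theorem T3 for odd characteristic, block Lo, End: `p`-divisible groups of local
points are finite (helper66)
-/

set_option autoImplicit false

namespace Pool.Agent.MP72V

open Polynomial WeierstrassCurve
open Pool.Agent.MP72W (pmap)
open Pool.Agent.MP72P (EqN Kvs Kgs nm op rsH)
open Pool.Agent

open scoped Classical

/-- A subgroup of finite index, from a classification. -/
private theorem end_idx {G T : Type} [AddCommGroup G] [Finite T] (F S : AddSubgroup G) (cl : G → T)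
    (h : ∀ P ∈ F, ∀ P' ∈ F, cl P = cl P' → P' - P ∈ S) :
    ∃ n : ℕ, 1 ≤ n ∧ ∀ P ∈ F, n • P ∈ S := by
  have hfin : Finite (↥F ⧸ S.addSubgroupOf F) := by
    refine Finite.of_injective (fun q : ↥F ⧸ S.addSubgroupOf F => cl (Quotient.out q : ↥F).1) ?_
    intro q q' hq
    have h1 := h _ (Quotient.out q : ↥F).2 _ (Quotient.out q' : ↥F).2 hq
    rw [← Quotient.out_eq q, ← Quotient.out_eq q']
    refine QuotientAddGroup.eq.2 ?_
    rw [AddSubgroup.mem_addSubgroupOf]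
    have h2 : ((-(Quotient.out q : ↥F) + (Quotient.out q' : ↥F) : ↥F) : G) =
        (Quotient.out q' : ↥F).1 - (Quotient.out q : ↥F).1 := by
      push_cast
      abel
    rw [h2]
    exact h1
  refine ⟨Nat.card (↥F ⧸ S.addSubgroupOf F), Nat.card_pos, fun P hP => ?_⟩
  have h1 : Nat.card (↥F ⧸ S.addSubgroupOf F) • (QuotientAddGroup.mk ⟨P, hP⟩ :
      ↥F ⧸ S.addSubgroupOf F) = 0 := card_nsmul_eq_zero'
  rw [← QuotientAddGroup.mk_nsmul, QuotientAddGroup.eq_zero_iff,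
    AddSubgroup.mem_addSubgroupOf] at h1
  exact h1

/-- The theorem for a general field `L` and a set `G` of homomorphisms. -/
private theorem end_gen (h1 : S_Bas) (h4 : S_Rcl) (h5 : S_Kit) (h7 : S_Tfi) {p : ℕ}
    [hp : Fact p.Prime] (hp2 : p ≠ 2) {K : Type} [Field K] [CharP K p] {W : WeierstrassCurve K}
    (hW : IsNf W) (h2K : (2 : K) ≠ 0) (v : AbsoluteValue K ℝ) (hna : IsNonarchimedean v)
    (hGd : Gd p W v)
    {L : Type} [Field L] [inst : DecidableEq L] [Algebra K L] (a : AbsoluteValue L ℝ)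
    (hana : IsNonarchimedean a) (ha2 : a 2 = 1) (hGr : Gr a ((fr p W 0)⁄L).toAffine)
    (haK : ∀ x : K, a (algebraMap K L x) = v x)
    {S : Type} [Field S] [Algebra K S] [Algebra S L] [IsScalarTower K S L] (G : Set (L →ₐ[S] L))
    (C : Set L) (hC : C.Finite) (u : ℝ) (hu : 1 < u)
    (hCr : ∀ z : L, (∀ g ∈ G, g z = z) →
      (a z ≤ 1 → ∃ c ∈ C, a (z - c) < 1) ∧ (1 < a z → u ≤ a z ^ p))
    (B : AddSubgroup (ZMod p → Pt p W 0 L))
    (hB : ∀ b ∈ B, ∀ i, ∀ g ∈ G, pmap (fr p W 0) g (b i) = b i)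
    (hBd : ∀ b ∈ B, ∃ b' ∈ B, b = p • b') : (B : Set (ZMod p → Pt p W 0 L)).Finite := by
  obtain rfl : inst = fun a b => Classical.propDecidable (a = b) := Subsingleton.elim _ _
  have hN : IsNf (fr p W 0) := ((h1.2 K p W hW).1 0).1
  obtain ⟨-, hNL, -, -, -, hmap⟩ := h1.1 K h2K (fr p W 0) hN L
  obtain ⟨hs1, hs2, hs3⟩ := h4 L a hana ha2 _ hNL hGr
  obtain ⟨-, -, -, hk4⟩ := h5 p hp2 K W hW v hna hGd L a hana haK
  have : Finite C := hC
  -- the subgroups
  obtain ⟨F, hF⟩ : ∃ F : AddSubgroup (Pt p W 0 L), ∀ P, P ∈ F ↔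
      ∀ g ∈ G, pmap (fr p W 0) g P = P :=
    ⟨{  carrier := {P | ∀ g ∈ G, pmap (fr p W 0) g P = P}
        zero_mem' := fun g _ => map_zero _
        add_mem' := fun {P P'} hP hP' g hg => by rw [map_add, hP g hg, hP' g hg]
        neg_mem' := fun {P} hP g hg => by rw [map_neg, hP g hg] }, fun P => Iff.rfl⟩
  obtain ⟨T, hT⟩ : ∃ T : AddSubgroup (Pt p W 0 L), ∀ P, P ∈ T ↔ (P = 0 ∨ 1 < a (px P)) :=
    ⟨{  carrier := {P | P = 0 ∨ 1 < a (px P)}
        zero_mem' := Or.inl rfl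
        add_mem' := fun {P P'} hP hP' => (hs1 P P' hP hP').1
        neg_mem' := fun {P} hP => by
          have e1 := (hs1 0 P (Or.inl rfl) hP).2
          rwa [zero_sub] at e1 }, fun P => Iff.rfl⟩
  have hfix : ∀ P ∈ F, ∀ g ∈ G, g (px P) = px P ∧ g (py P) = py P := by
    intro P hP g hg
    obtain ⟨-, -, e1, -⟩ := hmap S L g
    obtain ⟨e2, e3⟩ := e1 P
    rw [(hF P).1 hP g hg] at e2 e3
    exact ⟨e2.symm, e3.symm⟩
  -- the classification
  have hres : ∀ P ∈ F, P ∉ T → ∃ c : C × C, a (px P - c.1.1) < 1 ∧ a (py P - c.2.1) < 1 := by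
    intro P hP hPS
    rw [hT, not_or, not_lt] at hPS
    obtain ⟨c, hc, hc1⟩ := (hCr (px P) fun g hg => (hfix P hP g hg).1).1 hPS.2
    obtain ⟨c', hc', hc1'⟩ := (hCr (py P) fun g hg => (hfix P hP g hg).2).1 (hs3 P hPS.2)
    exact ⟨(⟨c, hc⟩, ⟨c', hc'⟩), hc1, hc1'⟩
  obtain ⟨cl, hcl1, hcl2⟩ : ∃ cl : Pt p W 0 L → Option (C × C),
      (∀ P, P ∈ T → cl P = none) ∧ ∀ P ∈ F, P ∉ T → ∃ c : C × C, cl P = some c ∧
        a (px P - c.1.1) < 1 ∧ a (py P - c.2.1) < 1 := by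
    refine ⟨fun P => if H : P ∈ F ∧ P ∉ T then some (hres P H.1 H.2).choose else none, ?_, ?_⟩
    · intro P hP
      exact dif_neg fun H => H.2 hP
    · intro P hP hPS
      exact ⟨(hres P hP hPS).choose, dif_pos ⟨hP, hPS⟩, (hres P hP hPS).choose_spec⟩
  obtain ⟨n, hn1, hn⟩ := end_idx F T cl (by
    intro P hP P' hP' hPP
    by_cases hPS : P ∈ T
    · by_cases hPS' : P' ∈ T
      · exact T.sub_mem hPS' hPS
      · exfalso
        obtain ⟨c, e1, -⟩ := hcl2 P' hP' hPS'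
        rw [hcl1 P hPS, e1] at hPP
        exact absurd hPP (by simp)
    · obtain ⟨c, e1, e2, e3⟩ := hcl2 P hP hPS
      by_cases hPS' : P' ∈ T
      · exfalso
        rw [hcl1 P' hPS', e1] at hPP
        exact absurd hPP (by simp)
      · obtain ⟨c', e1', e2', e3'⟩ := hcl2 P' hP' hPS'
        rw [e1, e1'] at hPP
        obtain rfl : c = c' := Option.some.inj hPP
        rw [hT, not_or, not_lt] at hPS hPS'
        rw [hT]
        refine hs2 P P' hPS.1 hPS'.1 hPS.2 hPS'.2 ?_ ?_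
        · have e4 : px P' - px P = (px P' - c.1.1) + -(px P - c.1.1) := by ring
          rw [e4]
          refine (hana _ _).trans_lt (max_lt e2' ?_)
          rw [AbsoluteValue.map_neg]
          exact e2
        · have e4 : py P' - py P = (py P' - c.2.1) + -(py P - c.2.1) := by ring
          rw [e4]
          refine (hana _ _).trans_lt (max_lt e3' ?_)
          rw [AbsoluteValue.map_neg]
          exact e3)
  -- multiples by powers of `p`
  have hpow : ∀ (r : ℕ) (Z : Pt p W 0 L), Z ≠ 0 → 1 < a (px Z) →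
      p ^ r • Z ≠ 0 ∧ a (px (p ^ r • Z)) = a (px Z) ^ p ^ r := by
    intro r Z hZ0 hZ1
    induction r with
    | zero => rw [pow_zero, one_smul, pow_one]; exact ⟨hZ0, rfl⟩
    | succ r ih =>
      have e1 : 1 < a (px (p ^ r • Z)) := by
        rw [ih.2]
        exact one_lt_pow₀ hZ1 (pow_ne_zero r hp.out.ne_zero)
      obtain ⟨e2, e3⟩ := hk4 _ ih.1 e1
      have e4 : p ^ (r + 1) • Z = p • (p ^ r • Z) := by rw [pow_succ', mul_smul]
      rw [e4]
      refine ⟨e2, ?_⟩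
      rw [e3, ih.2, ← pow_mul, ← pow_succ]
  have hdiv : ∀ (r : ℕ), ∀ b ∈ B, ∃ b' ∈ B, b = p ^ r • b' := by
    intro r
    induction r with
    | zero => exact fun b hb => ⟨b, hb, by rw [pow_zero, one_smul]⟩
    | succ r ih =>
      intro b hb
      obtain ⟨b', hb', e1⟩ := ih b hb
      obtain ⟨b'', hb'', e2⟩ := hBd b' hb'
      refine ⟨b'', hb'', ?_⟩
      rw [e1, e2, pow_succ, mul_smul]
  have hkill : ∀ b ∈ B, ∀ i, n • b i = 0 := by
    intro b hb i
    by_contra hne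
    obtain ⟨r, hr⟩ := pow_unbounded_of_one_lt (a (px (n • b i)) ^ p) hu
    obtain ⟨b', hb', e1⟩ := hdiv r b hb
    have hFb : b' i ∈ F := (hF _).2 fun g hg => hB b' hb' i g hg
    have e2 : p ^ r • (n • b' i) = n • b i := by
      rw [e1, Pi.smul_apply, smul_comm]
    have e3 : n • b' i ≠ 0 := by
      intro e4
      rw [e4, smul_zero] at e2
      exact hne e2.symm
    have e4 : 1 < a (px (n • b' i)) := by
      rcases (hT _).1 (hn _ hFb) with e5 | e5
      · exact absurd e5 e3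
      · exact e5
    obtain ⟨-, e5⟩ := hpow r _ e3 e4
    rw [e2] at e5
    have hFn : n • b' i ∈ F := F.nsmul_mem hFb n
    have e7 := (hCr (px (n • b' i)) fun g hg => (hfix _ hFn g hg).1).2 e4
    have e8 : u ^ r ≤ a (px (n • b i)) ^ p := by
      rw [e5]
      calc u ^ r ≤ u ^ p ^ r :=
            pow_le_pow_right₀ hu.le (Nat.lt_pow_self hp.out.one_lt).le
        _ ≤ (a (px (n • b' i)) ^ p) ^ p ^ r :=
            pow_le_pow_left₀ (zero_le_one.trans hu.le) e7 _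
        _ = (a (px (n • b' i)) ^ p ^ r) ^ p := by rw [← pow_mul, ← pow_mul, mul_comm]
    exact absurd hr (not_lt.2 e8)
  have hTf := h7 K h2K (fr p W 0) hN L n hn1
  refine (Set.Finite.pi' (fun _ : ZMod p => hTf)).subset fun b hb i => ?_
  exact hkill b hb i

/-- **End**. `p`-divisible groups of points over `L_w` are finite. -/
theorem tEnd (h1 : S_Bas) (h2 : S_Nma) (h3 : S_Itg) (h4 : S_Rcl) (h5 : S_Kit) (h6 : S_Rfn)
    (h7 : S_Tfi) : S_End := by
  intro p hp hp2 K _ _ W hW v Q ϖ R hLF hGd D h hh B hB hBd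
  have h2K : (2 : K) ≠ 0 := by
    intro e
    have e2 : ((2 : ℕ) : K) = 0 := by exact_mod_cast e
    rw [CharP.cast_eq_zero_iff K p] at e2
    exact hp2 ((Nat.prime_dvd_prime_iff_eq hp.out Nat.prime_two).1 e2)
  obtain ⟨a, hanm, hana, haK, -⟩ := h2 p K v Q ϖ R hLF
  have hna : IsNonarchimedean v := hLF.na
  have hGr : Gr a ((fr p W 0)⁄(Kvs v)).toAffine :=
    ((h3 p hp2 K W hW v hna hGd).2 0).2 (Kvs v) a haK
  have ha2 : a 2 = 1 := by
    have e1 : v 2 ^ (p - 1) = 1 := by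
      have e2 : (2 : K) ^ (p - 1) * 2 = 1 * 2 := by
        rw [← pow_succ, Nat.sub_add_cancel hp.out.one_le, one_mul]
        have e3 : frobenius K p ((2 : ℕ) : K) = ((2 : ℕ) : K) := map_natCast _ 2
        rw [frobenius_def] at e3
        exact_mod_cast e3
      rw [← map_pow, mul_right_cancel₀ h2K e2, map_one]
    have e4 : v 2 = 1 := (pow_eq_one_iff_of_nonneg (v.nonneg _)
      (by have := hp.out.two_le; omega)).1 e1
    have e5 := haK 2
    rwa [map_ofNat, e4] at e5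
  obtain ⟨C, hC, hCr⟩ := h6 p K v Q ϖ R hLF D h hh
  have v0 : 0 < v ϖ := hLF.pi0
  have v1 : v ϖ < 1 := hLF.pi1
  refine end_gen h1 h4 h5 h7 hp2 hW h2K v hna hGd a hana ha2 hGr haK
    {g : Kvs v →ₐ[v.Completion] Kvs v | ∃ g' : Gal(Kvs v/v.Completion), h g' = 0 ∧
      g = (g' : Kvs v →ₐ[v.Completion] Kvs v)} C hC (v ϖ)⁻¹ ((one_lt_inv₀ v0).2 v1) ?_ B ?_ hBd
  · intro z hz
    obtain ⟨e1, e2⟩ := hCr z fun g hg => hz (g : Kvs v →ₐ[v.Completion] Kvs v) ⟨g, hg, rfl⟩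
    rw [← hanm] at e1 e2
    refine ⟨fun e3 => ?_, fun e3 => ?_⟩
    · obtain ⟨c, hc, e4⟩ := e1 e3
      exact ⟨c, hc, by rw [hanm]; exact e4⟩
    · rw [inv_le_iff_one_le_mul₀ v0]
      exact e2 e3
  · rintro b hb i _ ⟨g, hg, rfl⟩
    exact hB b hb i g hg

end Pool.Agent.MP72V
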