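import Pool.Agent.Lib.MP_72e2e6_nt.WP.Lo.Spec

/-!
# MP_72e2e6_nt, block Lo: good reduction, points with the same reduction
-/

namespace Pool.Agent.MP72V

open Polynomial WeierstrassCurve
open Pool.Agent

open scoped Classical

section aux

variable {L : Type} [Field L] (a : AbsoluteValue L ℝ)

private def Rcl_O (h : IsNonarchimedean a) : Subring L where
  carrier := {x | a x ≤ 1}
  mul_mem' := by
    intro x y hx hy
    simp only [Set.mem_setOf_eq] at *
    rw [map_mul]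
    exact mul_le_one₀ hx (a.nonneg y) hy
  one_mem' := by simp
  add_mem' := by
    intro x y hx hy
    exact (h x y).trans (max_le hx hy)
  zero_mem' := by simp
  neg_mem' := by
    intro x hx
    simp only [Set.mem_setOf_eq] at *
    rw [AbsoluteValue.map_neg]
    exact hx

private theorem Rcl_mem (h : IsNonarchimedean a) (x : L) : x ∈ Rcl_O a h ↔ a x ≤ 1 := Iff.rfl

private theorem Rcl_num (h : IsNonarchimedean a) (n : ℕ) : (n : L) ∈ Rcl_O a h :=
  natCast_mem _ n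

private theorem Rcl_add_lt (h : IsNonarchimedean a) {x y : L} (hx : a x < 1) (hy : a y < 1) :
    a (x + y) < 1 := (h x y).trans_lt (max_lt hx hy)

private theorem Rcl_sub_lt (h : IsNonarchimedean a) {x y : L} (hx : a x < 1) (hy : a y < 1) :
    a (x - y) < 1 := by
  rw [sub_eq_add_neg]
  exact Rcl_add_lt a h hx (by rwa [AbsoluteValue.map_neg])

private theorem Rcl_mul_lt {x y : L} (hx : a x ≤ 1) (hy : a y < 1) : a (x * y) < 1 := by
  rw [map_mul]
  calc a x * a y ≤ 1 * a y := mul_le_mul_of_nonneg_right hx (a.nonneg y)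
    _ < 1 := by rw [one_mul]; exact hy

/-- A unit plus a small element is a unit. -/
private theorem Rcl_unit (h : IsNonarchimedean a) {x y : L} (hx : a x = 1) (hy : a (y - x) < 1) :
    a y = 1 := by
  refine le_antisymm ?_ ?_
  · have h1 : y = x + (y - x) := by ring
    rw [h1]
    exact (h x (y - x)).trans (max_le hx.le hy.le)
  · by_contra h2
    push Not at h2
    have h3 : x = y - (y - x) := by ring
    have h4 := Rcl_sub_lt a h h2 hy
    rw [← h3, hx] at h4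
    exact lt_irrefl _ h4

/-- A large square minus integral elements is large. -/
private theorem Rcl_big (h : IsNonarchimedean a) {l r : L} (hl : 1 < a l) (hr : a r ≤ 1) :
    1 < a (l ^ 2 - r) := by
  by_contra h2
  push Not at h2
  have h3 : a (l ^ 2) ≤ 1 := by
    have h4 : l ^ 2 = (l ^ 2 - r) + r := by ring
    rw [h4]
    exact (h _ _).trans (max_le h2 hr)
  rw [map_pow] at h3
  nlinarith

private theorem Rcl_divbig {n d : L} (hn : a n = 1) (hd : d ≠ 0) (hd1 : a d < 1) :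
    1 < a (n / d) := by
  rw [map_div₀, hn]
  exact one_lt_one_div (a.pos hd) hd1

end aux

private theorem Rcl_disc {L : Type} [Field L] (W : WeierstrassCurve.Affine L) (h1 : W.a₁ = 0)
    (h3 : W.a₃ = 0) (x : L) :
    W.Δ = 16 * (((18 * W.a₄ - 6 * W.a₂ ^ 2) * x + 15 * W.a₂ * W.a₄ - 4 * W.a₂ ^ 3 - 27 * W.a₆) *
      (x ^ 3 + W.a₂ * x ^ 2 + W.a₄ * x + W.a₆) -
      ((6 * W.a₄ - 2 * W.a₂ ^ 2) * x ^ 2 + (7 * W.a₂ * W.a₄ - 2 * W.a₂ ^ 3 - 9 * W.a₆) * x +
        4 * W.a₄ ^ 2 - W.a₂ ^ 2 * W.a₄ - 3 * W.a₂ * W.a₆) *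
      (3 * x ^ 2 + 2 * W.a₂ * x + W.a₄)) := by
  rw [WeierstrassCurve.Δ, WeierstrassCurve.b₂, WeierstrassCurve.b₄, WeierstrassCurve.b₆,
    WeierstrassCurve.b₈, h1, h3]
  ring

/-- One of `f(x)`, `f'(x)` is a unit. -/
private theorem Rcl_key {L : Type} [Field L] (a : AbsoluteValue L ℝ) (h : IsNonarchimedean a)
    (h2 : a 2 = 1) (W : WeierstrassCurve.Affine L) (hW : IsNf W) (hG : Gr a W) (x : L)
    (hx : a x ≤ 1) (hf : a (x ^ 3 + W.a₂ * x ^ 2 + W.a₄ * x + W.a₆) < 1) :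
    a (3 * x ^ 2 + 2 * W.a₂ * x + W.a₄) = 1 := by
  set O := Rcl_O a h with hO
  have m2 : W.a₂ ∈ O := hG.c2
  have m4 : W.a₄ ∈ O := hG.c4
  have m6 : W.a₆ ∈ O := hG.c6
  have mx : x ∈ O := hx
  have n2 : (2 : L) ∈ O := by exact_mod_cast Rcl_num a h 2
  have n3 : (3 : L) ∈ O := by exact_mod_cast Rcl_num a h 3
  have n4 : (4 : L) ∈ O := by exact_mod_cast Rcl_num a h 4
  have n6 : (6 : L) ∈ O := by exact_mod_cast Rcl_num a h 6
  have n7 : (7 : L) ∈ O := by exact_mod_cast Rcl_num a h 7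
  have n9 : (9 : L) ∈ O := by exact_mod_cast Rcl_num a h 9
  have n15 : (15 : L) ∈ O := by exact_mod_cast Rcl_num a h 15
  have n18 : (18 : L) ∈ O := by exact_mod_cast Rcl_num a h 18
  have n27 : (27 : L) ∈ O := by exact_mod_cast Rcl_num a h 27
  have hU : a ((18 * W.a₄ - 6 * W.a₂ ^ 2) * x + 15 * W.a₂ * W.a₄ - 4 * W.a₂ ^ 3 - 27 * W.a₆) ≤ 1 := by
    have : (18 * W.a₄ - 6 * W.a₂ ^ 2) * x + 15 * W.a₂ * W.a₄ - 4 * W.a₂ ^ 3 - 27 * W.a₆ ∈ O :=
      sub_mem (sub_mem (add_mem (mul_mem (sub_mem (mul_mem n18 m4) (mul_mem n6 (pow_mem m2 2))) mx)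
        (mul_mem (mul_mem n15 m2) m4)) (mul_mem n4 (pow_mem m2 3))) (mul_mem n27 m6)
    exact this
  have hV : a ((6 * W.a₄ - 2 * W.a₂ ^ 2) * x ^ 2 + (7 * W.a₂ * W.a₄ - 2 * W.a₂ ^ 3 - 9 * W.a₆) * x +
        4 * W.a₄ ^ 2 - W.a₂ ^ 2 * W.a₄ - 3 * W.a₂ * W.a₆) ≤ 1 := by
    have : (6 * W.a₄ - 2 * W.a₂ ^ 2) * x ^ 2 + (7 * W.a₂ * W.a₄ - 2 * W.a₂ ^ 3 - 9 * W.a₆) * x +
        4 * W.a₄ ^ 2 - W.a₂ ^ 2 * W.a₄ - 3 * W.a₂ * W.a₆ ∈ O :=
      sub_mem (sub_mem (add_mem (add_mem (mul_mem (sub_mem (mul_mem n6 m4) (mul_mem n2 (pow_mem m2 2)))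
        (pow_mem mx 2)) (mul_mem (sub_mem (sub_mem (mul_mem (mul_mem n7 m2) m4)
        (mul_mem n2 (pow_mem m2 3))) (mul_mem n9 m6)) mx)) (mul_mem n4 (pow_mem m4 2)))
        (mul_mem (pow_mem m2 2) m4)) (mul_mem (mul_mem n3 m2) m6)
    exact this
  have hf' : a (3 * x ^ 2 + 2 * W.a₂ * x + W.a₄) ≤ 1 := by
    have : 3 * x ^ 2 + 2 * W.a₂ * x + W.a₄ ∈ O :=
      add_mem (add_mem (mul_mem n3 (pow_mem mx 2)) (mul_mem (mul_mem n2 m2) mx)) m4
    exact this
  refine le_antisymm hf' ?_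
  by_contra h5
  push Not at h5
  have h6 := hG.dis
  have h16 : a (16 : L) = 1 := by
    have : (16 : L) = 2 ^ 4 := by norm_num
    rw [this, map_pow, h2, one_pow]
  rw [Rcl_disc W hW.a1 hW.a3 x, map_mul, h16, one_mul] at h6
  have h7 := Rcl_sub_lt a h (Rcl_mul_lt a hU hf) (Rcl_mul_lt a hV h5)
  rw [h6] at h7
  exact lt_irrefl _ h7

private theorem Rcl_sm {L : Type} [Field L] (a : AbsoluteValue L ℝ) {W : WeierstrassCurve.Affine L}
    {P : W.Point} (hP : P = 0 ∨ 1 < a (px P)) : ∃ R : ℝ, 1 < R ∧ Sm a R P := by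
  rcases hP with hP | hP
  · exact ⟨2, by norm_num, Or.inl hP⟩
  · exact ⟨a (px P), hP, Or.inr le_rfl⟩

private theorem Rcl_sm_mono {L : Type} [Field L] {a : AbsoluteValue L ℝ}
    {W : WeierstrassCurve.Affine L} {P : W.Point} {R R' : ℝ} (hR : R' ≤ R) (hP : Sm a R P) :
    Sm a R' P := hP.imp id (fun h => hR.trans h)

private theorem Rcl_y {L : Type} [Field L] (a : AbsoluteValue L ℝ) (h : IsNonarchimedean a)
    (W : WeierstrassCurve.Affine L) (hG : Gr a W) (x y : L) (hx : a x ≤ 1)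
    (he : y ^ 2 = x ^ 3 + W.a₂ * x ^ 2 + W.a₄ * x + W.a₆) : a y ≤ 1 := by
  set O := Rcl_O a h with hO
  have m2 : W.a₂ ∈ O := hG.c2
  have m4 : W.a₄ ∈ O := hG.c4
  have m6 : W.a₆ ∈ O := hG.c6
  have mx : x ∈ O := hx
  have h1 : a (y ^ 2) ≤ 1 := by
    rw [he]
    have : x ^ 3 + W.a₂ * x ^ 2 + W.a₄ * x + W.a₆ ∈ O :=
      add_mem (add_mem (add_mem (pow_mem mx 3) (mul_mem m2 (pow_mem mx 2))) (mul_mem m4 mx)) m6
    exact this
  rw [map_pow] at h1
  by_contra h2
  push Not at h2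
  nlinarith

theorem tRcl (h1 : S_Pts) (h2 : S_Sbg) : S_Rcl := by
  intro L _ a hna ha2 W hW hG
  have h20 : (2 : L) ≠ 0 := by
    intro h0
    rw [h0, map_zero] at ha2
    exact zero_ne_one ha2
  obtain ⟨p1, p2, p3, p4, p5, p6, p7, p8, p9, p10⟩ := h1 L h20 W hW
  have hpx : ∀ {P : W.Point} {x y : L}, XY P x y → px P = x := fun hP => (p2 _ _ _ hP).2.1
  refine ⟨?_, ?_, ?_⟩
  · intro P Q hP hQ
    obtain ⟨R1, hR1, hP1⟩ := Rcl_sm a hP
    obtain ⟨R2, hR2, hQ1⟩ := Rcl_sm a hQ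
    have hR : 1 < min R1 R2 := lt_min hR1 hR2
    set R := min R1 R2 with hRdef
    have hL : Lgc a W R := by
      refine ⟨hR.le, hG.c2.trans_lt hR, hG.c4.trans_lt ?_, hG.c6.trans_lt ?_⟩
      · exact one_lt_pow₀ hR (by norm_num)
      · exact one_lt_pow₀ hR (by norm_num)
    obtain ⟨s1, s2, -⟩ := h2 L a hna h20 W hW R hL
    have hP2 : Sm a R P := Rcl_sm_mono (min_le_left _ _) hP1
    have hQ2 : Sm a R Q := Rcl_sm_mono (min_le_right _ _) hQ1
    have hfin : ∀ T : W.Point, Sm a R T → T = 0 ∨ 1 < a (px T) :=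
      fun T hT => hT.imp id (fun h => hR.trans_le h)
    refine ⟨hfin _ (s1 P Q hP2 hQ2), ?_⟩
    rw [sub_eq_add_neg]
    exact hfin _ (s1 P (-Q) hP2 (s2 Q hQ2))
  · intro P P' hP0 hP0' hx hx' hxx hyy
    rcases p1 P with h0 | ⟨x, y, hP⟩
    · exact absurd h0 hP0
    rcases p1 P' with h0 | ⟨x', y', hP'⟩
    · exact absurd h0 hP0'
    obtain ⟨-, e1, e2, e3⟩ := p2 _ _ _ hP
    obtain ⟨-, e1', e2', e3'⟩ := p2 _ _ _ hP'
    rw [e1] at hx hxx
    rw [e1'] at hx' hxx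
    rw [e2, e2'] at hyy
    by_cases hPP : P' = P
    · left; rw [hPP, sub_self]
    right
    have hy : a y ≤ 1 := Rcl_y a hna W hG x y hx e3
    have hyf : a y < 1 → a (x ^ 3 + W.a₂ * x ^ 2 + W.a₄ * x + W.a₆) < 1 := by
      intro hlt
      rw [← e3, sq]
      exact Rcl_mul_lt a hy hlt
    set O := Rcl_O a hna with hO
    have m2 : W.a₂ ∈ O := hG.c2
    have mx : x ∈ O := hx
    have mx' : x' ∈ O := hx'
    have n2 : (2 : L) ∈ O := by exact_mod_cast Rcl_num a hna 2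
    by_cases hxe : x' = x
    · subst hxe
      have hPm : P' = -P := (p6 _ _ _ _ _ hP hP').resolve_left hPP
      have hy' : y' = -y := by
        have h3 := p5 _ _ _ hP
        rw [← hPm] at h3
        have h4 := (p2 _ _ _ h3).2.2.1
        rw [← h4, e2']
      have hy0 : y ≠ 0 := by
        intro h0
        rw [hy', h0, neg_zero] at hP'
        rw [h0] at hP
        exact hPP (p4 _ _ _ _ hP' hP)
      have hylt : a y < 1 := by
        have h3 : y' - y = -(2 * y) := by rw [hy']; ring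
        rw [h3, AbsoluteValue.map_neg, map_mul, ha2, one_mul] at hyy
        exact hyy
      have hfd := Rcl_key a hna ha2 W hW hG x' hx (hyf hylt)
      have h5 := p8 P x' y _ hP hy0 rfl
      have h6 := p5 _ _ _ h5
      have h7 : P' - P = -(P + P) := by rw [hPm]; abel
      rw [h7, hpx h6]
      have h8 : 1 < a ((3 * x' ^ 2 + 2 * W.a₂ * x' + W.a₄) / (2 * y)) := by
        refine Rcl_divbig a hfd (mul_ne_zero h20 hy0) ?_
        rw [map_mul, ha2, one_mul]; exact hylt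
      have h9 : ((3 * x' ^ 2 + 2 * W.a₂ * x' + W.a₄) / (2 * y)) ^ 2 - W.a₂ - x' - x' =
          ((3 * x' ^ 2 + 2 * W.a₂ * x' + W.a₄) / (2 * y)) ^ 2 - (W.a₂ + x' + x') := by ring
      rw [h9]
      exact Rcl_big a hna h8 (show W.a₂ + x' + x' ∈ O from add_mem (add_mem m2 mx) mx)
    · have hd : x' - x ≠ 0 := sub_ne_zero.mpr hxe
      have h3 := p7 P' (-P) x' y' x (-y) _ hP' (p5 _ _ _ hP) hxe rfl
      rw [← sub_eq_add_neg P' P] at h3
      rw [hpx h3]
      have h9 : ((y' - -y) / (x' - x)) ^ 2 - W.a₂ - x' - x =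
          ((y' - -y) / (x' - x)) ^ 2 - (W.a₂ + x' + x) := by ring
      rw [h9]
      refine Rcl_big a hna ?_ (show W.a₂ + x' + x ∈ O from add_mem (add_mem m2 mx') mx)
      rcases hy.lt_or_eq with hylt | hyeq
      · have hfd := Rcl_key a hna ha2 W hW hG x hx (hyf hylt)
        set n := x' ^ 2 + x * x' + x ^ 2 + W.a₂ * (x + x') + W.a₄ with hn
        have hn1 : (y' - y) * (y' + y) = (x' - x) * n := by
          have : (y' - y) * (y' + y) = y' ^ 2 - y ^ 2 := by ring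
          rw [this, e3, e3', hn]; ring
        have hn2 : a n = 1 := by
          refine Rcl_unit a hna hfd ?_
          have h4 : n - (3 * x ^ 2 + 2 * W.a₂ * x + W.a₄) = (x' + 2 * x + W.a₂) * (x' - x) := by
            rw [hn]; ring
          rw [h4]
          exact Rcl_mul_lt a (show x' + 2 * x + W.a₂ ∈ O from
            add_mem (add_mem mx' (mul_mem n2 mx)) m2) hxx
        have hn0 : n ≠ 0 := by
          intro h0
          rw [h0, map_zero] at hn2
          exact zero_ne_one hn2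
        have hyne : y' - y ≠ 0 := by
          intro h0
          rw [h0, zero_mul] at hn1
          exact (mul_ne_zero hd hn0) hn1.symm
        have h5 : (y' - -y) / (x' - x) = n / (y' - y) := by
          rw [div_eq_div_iff hd hyne]
          linear_combination hn1
        rw [h5]
        exact Rcl_divbig a hn2 hyne hyy
      · refine Rcl_divbig a ?_ hd hxx
        refine Rcl_unit a hna (x := 2 * y) (by rw [map_mul, ha2, hyeq, one_mul]) ?_
        have : y' - -y - 2 * y = y' - y := by ring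
        rw [this]; exact hyy
  · intro P hP
    rcases p1 P with h0 | ⟨x, y, hxy⟩
    · rw [h0]
      have : py (0 : W.Point) = 0 := rfl
      rw [this, map_zero]
      exact zero_le_one
    · obtain ⟨-, e1, e2, e3⟩ := p2 _ _ _ hxy
      rw [e2]
      rw [e1] at hP
      exact Rcl_y a hna W hG x y hP e3

end Pool.Agent.MP72V
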