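import Pool.Agent.Lib.MP_72e2e6_nt.WP.Lo.Spec

/-!
# MP_72e2e6_nt, theorem T3 for odd characteristic, block Lo, Rfn: the fixed field of the kernel of
`h`, residues and values (helper66)
-/

set_option autoImplicit false

namespace Pool.Agent.MP72V

open Polynomial WeierstrassCurve
open Pool.Agent.MP72W (pmap)
open Pool.Agent.MP72P (EqN Kvs Kgs nm op rsH)
open Pool.Agent

open scoped Classical

private theorem rfn_op {p : ℕ} [Fact p.Prime] (L : Type) [Field L] [CharP L p] (c : ZMod p) :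
    op L c = ZMod.castHom (dvd_refl p) L c := by
  rw [ZMod.castHom_apply]
  exact ZMod.natCast_val c

private theorem rfn_op_inj {p : ℕ} [Fact p.Prime] (L : Type) [Field L] [CharP L p] (c d : ZMod p)
    (h : op L c = op L d) : c = d := by
  rw [rfn_op, rfn_op] at h
  exact (ZMod.castHom (dvd_refl p) L).injective h

private theorem rfn_op_add {p : ℕ} [Fact p.Prime] (L : Type) [Field L] [CharP L p]
    (c d : ZMod p) : op L (c + d) = op L c + op L d := by
  rw [rfn_op, rfn_op, rfn_op, map_add]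

private theorem rfn_h_mul {p : ℕ} [Fact p.Prime] {S L : Type} [Field S] [Field L] [Algebra S L]
    [CharP L p] {D : S} {h : Gal(L/S) → ZMod p} (hh : IsTh p D h) (g g' : Gal(L/S)) :
    h (g * g') = h g + h g' := by
  obtain ⟨θ, -, hθ⟩ := hh
  refine rfn_op_inj L _ _ ?_
  have h1 : (g * g') θ = g (g' θ) := rfl
  rw [hθ (g * g'), hθ g', map_add, hθ g] at h1
  have h2 : g (op L (h g')) = op L (h g') := map_natCast g _
  rw [h2, add_assoc] at h1
  rw [rfn_op_add]
  exact add_left_cancel h1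

private theorem rfn_h_one {p : ℕ} [Fact p.Prime] {S L : Type} [Field S] [Field L] [Algebra S L]
    [CharP L p] {D : S} {h : Gal(L/S) → ZMod p} (hh : IsTh p D h) : h 1 = 0 := by
  have h1 := rfn_h_mul hh 1 1
  rw [mul_one] at h1
  exact left_eq_add.1 h1

private theorem rfn_h_pow {p : ℕ} [Fact p.Prime] {S L : Type} [Field S] [Field L] [Algebra S L]
    [CharP L p] {D : S} {h : Gal(L/S) → ZMod p} (hh : IsTh p D h) (g : Gal(L/S)) (n : ℕ) :
    h (g ^ n) = n * h g := by
  induction n with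
  | zero => rw [pow_zero, rfn_h_one hh, Nat.cast_zero, zero_mul]
  | succ n ih =>
    rw [pow_succ, rfn_h_mul hh, ih]
    push_cast
    ring

private theorem rfn_h_inv {p : ℕ} [Fact p.Prime] {S L : Type} [Field S] [Field L] [Algebra S L]
    [CharP L p] {D : S} {h : Gal(L/S) → ZMod p} (hh : IsTh p D h) (g : Gal(L/S)) :
    h g⁻¹ = -h g := by
  have h1 := rfn_h_mul hh g⁻¹ g
  rw [inv_mul_cancel, rfn_h_one hh] at h1
  exact eq_neg_of_add_eq_zero_left h1.symm

/-- **Rfn**. The fixed field of the kernel of `h`: residues and values. -/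
theorem tRfn (h1 : MP72P.S_Lc1) (h2 : MP72P.S_Lc2) (h3 : MP72P.S_Cst) (h4 : MP72P.S_FrL)
    (h5 : S_Rsd) : S_Rfn := by
  intro p hp K _ _ v Q ϖ R hLF D h hh
  obtain ⟨-, -, -, hdisc, -⟩ := h1 p K v Q ϖ R hLF
  obtain ⟨n0, -, nmul, nadd, nalg, ngal, ncst, -, -, hchar⟩ := h2 p K v Q ϖ R hLF
  obtain ⟨-, -, hCring, -, -, -, hCcard, -⟩ := h3 p (Kvs v)
  obtain ⟨⟨Fr, hFr⟩, -⟩ := h4 p K v Q ϖ R hLF
  obtain ⟨hres, -, -⟩ := h5 p K v Q ϖ R hLF
  obtain ⟨r, hr, hQ⟩ := hLF.qp
  have hp0 : 0 < p := hp.out.pos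
  have nneg : ∀ x : Kvs v, nm v (-x) = nm v x := by
    intro x
    have e1 : nm v (-1 : Kvs v) = 1 := by
      have e2 : nm v (1 : Kvs v) = 1 := by
        have := nalg 1
        rwa [map_one, norm_one] at this
      have e3 : nm v ((-1 : Kvs v) * (-1)) = 1 := by rw [neg_one_mul, neg_neg, e2]
      rw [nmul] at e3
      have e4 := n0 (-1)
      nlinarith
    rw [← neg_one_mul, nmul, e1, one_mul]
  have v0 : 0 < v ϖ := hLF.pi0
  have v1 : v ϖ < 1 := hLF.pi1
  -- values of elements of the completion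
  have hval : ∀ x : v.Completion, 1 < ‖x‖ → 1 ≤ ‖x‖ * v ϖ := by
    intro x hx
    have hx0 : x ≠ 0 := by
      rintro rfl
      rw [norm_zero] at hx
      exact absurd hx (by norm_num)
    obtain ⟨n, hn⟩ := hdisc x hx0
    have hn1 : n ≤ -1 := by
      by_contra hc
      push Not at hc
      have e1 : v ϖ ^ n ≤ v ϖ ^ (0 : ℤ) := zpow_le_zpow_right_of_le_one₀ v0 v1.le (by omega)
      rw [zpow_zero, ← hn] at e1
      exact absurd hx (not_lt.2 e1)
    have e2 : v ϖ ^ (-1 : ℤ) ≤ v ϖ ^ n := zpow_le_zpow_right_of_le_one₀ v0 v1.le hn1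
    rw [hn]
    calc (1 : ℝ) = v ϖ ^ (-1 : ℤ) * v ϖ := by
          rw [zpow_neg_one, inv_mul_cancel₀ v0.ne']
      _ ≤ v ϖ ^ n * v ϖ := mul_le_mul_of_nonneg_right e2 v0.le
  refine ⟨{c : Kvs v | c ^ p ^ (r * p) = c}, ?_, ?_⟩
  · have e1 : 1 ≤ r * p := Nat.mul_pos (by omega) hp0
    have e2 := hCcard (r * p) e1
    exact Set.finite_of_ncard_pos (by rw [e2]; exact pow_pos hp0 _)
  intro z hz
  constructor
  · intro hz1
    obtain ⟨c, hc, hzc⟩ := hres z hz1
    refine ⟨c, ?_, hzc⟩
    have hfix : ∀ g : Gal(Kvs v/v.Completion), h g = 0 → g c = c := by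
      intro g hg
      have e1 : g c - c = g (-(z - c)) + (z - c) := by
        rw [map_neg, map_sub, hz g hg]
        ring
      have e2 : nm v (g c - c) < 1 := by
        rw [e1]
        refine (nadd _ _).trans_lt (max_lt ?_ hzc)
        rw [ngal, nneg]
        exact hzc
      have e3 : g c ∈ MP72P.Cst p (Kvs v) := by
        obtain ⟨n, hn, hn2⟩ := hc
        exact ⟨n, hn, by rw [← map_pow, hn2]⟩
      have e4 := (hCring _ e3 _ hc).2.2
      by_contra hne
      have e5 := ncst _ e4 (sub_ne_zero.2 hne)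
      rw [e5] at e2
      exact lt_irrefl _ e2
    have hFp : h (Fr ^ p) = 0 := by
      rw [rfn_h_pow hh, CharP.cast_eq_zero, zero_mul]
    have e1 := hfix _ hFp
    have e2 : ∀ n : ℕ, (Fr ^ n) c = c ^ Q ^ n ∧ (Fr ^ n) c ∈ MP72P.Cst p (Kvs v) := by
      intro n
      induction n with
      | zero =>
        rw [pow_zero, pow_zero, pow_one]
        exact ⟨rfl, hc⟩
      | succ n ih =>
        have e3 : (Fr ^ (n + 1)) c = Fr ((Fr ^ n) c) := by
          rw [pow_succ']
          rfl
        rw [e3, hFr _ ih.2, ih.1]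
        refine ⟨by rw [← pow_mul, ← pow_succ], ?_⟩
        rw [← ih.1]
        obtain ⟨m, hm, hm2⟩ := ih.2
        exact ⟨m, hm, by rw [← pow_mul, mul_comm, pow_mul, hm2]⟩
    rw [(e2 p).1] at e1
    change c ^ p ^ (r * p) = c
    rwa [pow_mul, ← hQ]
  · intro hz1
    by_cases hs : ∃ g, h g ≠ 0
    · obtain ⟨g₀, hg₀⟩ := hs
      have hsur : ∀ i : ZMod p, ∃ g, h g = i := by
        intro i
        refine ⟨g₀ ^ (i * (h g₀)⁻¹).val, ?_⟩
        rw [rfn_h_pow hh, ZMod.natCast_zmod_val, mul_assoc, inv_mul_cancel₀ hg₀, mul_one]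
      choose G hG using hsur
      have hfix : ∀ g : Gal(Kvs v/v.Completion), g (∏ i, G i z) = ∏ i, G i z := by
        intro g
        rw [map_prod]
        refine (Fintype.prod_equiv (Equiv.addLeft (h g)) _ _ fun i => ?_)
        have e1 : h ((G (h g + i))⁻¹ * (g * G i)) = 0 := by
          rw [rfn_h_mul hh, rfn_h_mul hh, rfn_h_inv hh, hG, hG]
          ring
        have e2 := hz _ e1
        have e3 : (G (h g + i)) (((G (h g + i))⁻¹ * (g * G i)) z) = (g * G i) z := by
          rw [← AlgEquiv.mul_apply, mul_inv_cancel_left]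
        rw [e2] at e3
        exact e3.symm
      obtain ⟨y, hy⟩ := (InfiniteGalois.mem_range_algebraMap_iff_fixed _).2 hfix
      have e1 : nm v (∏ i, G i z) = nm v z ^ p := by
        have e2 : ∀ s : Finset (ZMod p), nm v (∏ i ∈ s, G i z) = nm v z ^ s.card := by
          intro s
          induction s using Finset.induction_on with
          | empty =>
            rw [Finset.prod_empty, Finset.card_empty, pow_zero]
            have := nalg 1
            rwa [map_one, norm_one] at this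
          | insert a s ha ih =>
            rw [Finset.prod_insert ha, nmul, ih, ngal, Finset.card_insert_of_notMem ha, pow_succ']
        rw [e2, Finset.card_univ, ZMod.card]
      rw [← hy, nalg] at e1
      rw [← e1]
      refine hval y ?_
      rw [e1]
      exact one_lt_pow₀ hz1 hp0.ne'
    · push Not at hs
      obtain ⟨y, hy⟩ := (InfiniteGalois.mem_range_algebraMap_iff_fixed z).2 fun g => hz g (hs g)
      rw [← hy, nalg] at hz1 ⊢
      refine (hval y hz1).trans ?_
      refine mul_le_mul_of_nonneg_right ?_ v0.le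
      calc ‖y‖ = ‖y‖ ^ 1 := (pow_one _).symm
        _ ≤ ‖y‖ ^ p := pow_le_pow_right₀ hz1.le hp0

end Pool.Agent.MP72V
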