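import Pool.Agent.Lib.MP_72e2e6_nt.WP.Lo.Defs
import Pool.Agent.Lib.MP_72e2e6_nt.WP.Fd.Spec
import Pool.Agent.Lib.MP_72e2e6_nt.P3.C.Spec

/-!
# MP_72e2e6_nt, theorem T3 for odd characteristic, block Lo (local theory of the curves)

The proofs are complete in the docstrings; every module is independent (used statements are
hypotheses): file `WP/Lo/<Name>.lean` (import this file only) with `theorem t<Name> : S_<Name>` or
`theorem t<Name> (h1 : S_X) (h2 : S_Y) .. : S_<Name>` (in the order of the docstring), namespace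
`Pool.Agent.MP72V`, other declarations `private`. Use `open scoped Classical`. Statements of the blocks
`P3/B`, `P3/C` are written `MP72P.S_X` (namespace `Pool.Agent.MP72P`). `a` is always a nonarchimedean
absolute value; if `CharP L p`, `p ≠ 2` then `a 2 = 1` (`2 ^ (p - 1) = 1`), and `a (n : L) ≤ 1` for `n : ℕ`.
`O = 0`, `f(x) = x ^ 3 + a₂ x ^ 2 + a₄ x + a₆`. The identity (B): `disc(f) =
((18 a₄ - 6 a₂ ^ 2) x + 15 a₂ a₄ - 4 a₂ ^ 3 - 27 a₆) f(x) -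
((6 a₄ - 2 a₂ ^ 2) x ^ 2 + (7 a₂ a₄ - 2 a₂ ^ 3 - 9 a₆) x + 4 a₄ ^ 2 - a₂ ^ 2 a₄ - 3 a₂ a₆) f'(x)`,
`Δ = 16 disc(f)` (if `a₁ = a₃ = 0`).
-/

namespace Pool.Agent.MP72V

open Polynomial WeierstrassCurve
open Pool.Agent.MP72W (pmap)
open Pool.Agent.MP72P (EqN Kvs Kgs nm op rsH)
open Pool.Agent

open scoped Classical

/-- **Nma** (60 lines, uses `MP72P.S_Lc1`, `MP72P.S_Lc2`). The norm of `Kvs v` as an absolute value.

Proof. `MP72P.S_Lc2` (1)-(6), `MP72P.S_Lc1` (1). -/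
def S_Nma : Prop :=
  ∀ (p : ℕ) [Fact p.Prime] (K : Type) [Field K] [CharP K p] (v : AbsoluteValue K ℝ) (Q : ℕ)
    (ϖ : K) (R : Finset K), MP72P.LF v p Q ϖ R →
    ∃ a : AbsoluteValue (Kvs v) ℝ, (∀ x, a x = nm v x) ∧ IsNonarchimedean a ∧
      (∀ x : K, a (algebraMap K (Kvs v) x) = v x) ∧
      ∀ (g : Gal(Kvs v/v.Completion)) (x : Kvs v), a (g x) = a x

/-- **Sbg** (250 lines, uses `S_Pts`, `S_AS`). The points close to `O` form a subgroup.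

Proof. (1) The cases `P = O`, `Q = O`, `P + Q = O` are trivial. Let `x = px P`, `x' = px Q`, `X = px (P + Q)`, and
`N₀ = (x x') ^ 2 - 2 a₄ x x' - 4 a₆ (x + x') - (4 a₂ a₆ - a₄ ^ 2)`,
`N₁ = 2 (x + x') x x' + 4 a₂ x x' + 2 a₄ (x + x') + 4 a₆`, `N₂ = (x - x') ^ 2`. `S_AS` with `(u, v) = (x, 1)`,
`(u', v') = (x', 1)`, `(r, t) = (X, 1)` and `(r', t') = (1, 0)` if `P - Q = O`, else `(px (P - Q), 1)`:
`X r' = c N₀`, `X t' + r' = c N₁`, `t' = c N₂`; so `N₂ X ^ 2 - N₁ X + N₀ = 0`. Let `M ≥ m ≥ R` be the maximum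
and the minimum of `a x`, `a x'`. By `Lgc` (`a (n : L) ≤ 1`): `a N₀ = (M m) ^ 2` (the first term is strictly
larger than the other ones), `a N₁ ≤ M ^ 2 m`, `a N₂ ≤ M ^ 2`. If `a X < R ≤ m`: `a (N₂ X ^ 2) < M ^ 2 m ^ 2` and
`a (N₁ X) < M ^ 2 m ^ 2` contradict the equation. (2) `px (-P) = px P`. (3) induction. (5) `y ^ 2 = f(x)` and `x ^ 3`
dominates. (6) all terms of `f(x)` are at most `R ^ 3`. -/
def S_Sbg : Prop :=
  ∀ (L : Type) [Field L] (a : AbsoluteValue L ℝ), IsNonarchimedean a → (2 : L) ≠ 0 →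
    ∀ W : WeierstrassCurve.Affine L, IsNf W → ∀ R : ℝ, Lgc a W R →
    (∀ P Q : W.Point, Sm a R P → Sm a R Q → Sm a R (P + Q)) ∧
    (∀ P : W.Point, Sm a R P → Sm a R (-P)) ∧
    (∀ (n : ℕ) (P : W.Point), Sm a R P → Sm a R (n • P)) ∧
    (∀ R' : ℝ, R ≤ R' → Lgc a W R') ∧
    (∀ P : W.Point, P ≠ 0 → R ≤ a (px P) → a (py P) ^ 2 = a (px P) ^ 3) ∧
    ∀ P : W.Point, P ≠ 0 → a (px P) < R → a (py P) ^ 2 ≤ R ^ 3

/-- **Cls** (300 lines, uses `S_Pts`, `S_Sbg`). If the coordinates of `P` and `P'` are relatively close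
then `P' - P` is close to `O`.

Proof. Choose `R` with `Lgc a W R`. Let `P = (x, y)`, `P' = (x', y')`, `t > 1`, `P' ≠ P`. `x' ≠ x`: otherwise `y' = - y`,
`a (2 y) t ≤ a y`, so `y = 0`, `y' = y`. With `l = (y' + y) / (x' - x)`: `px (P' - P) = l ^ 2 - a₂ - x - x'`
(`S_Pts` (7) for `P'`, `-P`). Also `a x' = a x`, `a y' = a y` (as `t > 1`).
(A) `a x ≥ R`: `a y ^ 2 = a x ^ 3`, `a (y' + y) = a (2 y + (y' - y)) = a y`, `a (x' - x) ≤ a x / t`, so
`a (l ^ 2) ≥ a x * t ^ 2 > max (a x) (a a₂)`, `a (px (P' - P)) = a (l ^ 2) ≥ R t ^ 2`.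
(B) `a x < R`. By the identity (B) there is `κ > 0`, depending only on `W`, `R`, `a`, with
`κ ≤ max (a (f x)) (a (f' x))`. (B1) `a y ^ 2 = a (f x) ≥ κ`: `a l ^ 2 ≥ κ t ^ 2 / R ^ 2`; if `t` is large this is
`> R`, so `a (px (P' - P)) = a (l ^ 2)`. (B2) `a (f' x) ≥ κ`: let
`n = x' ^ 2 + x x' + x ^ 2 + a₂ (x + x') + a₄`, so `(y' - y) (y' + y) = (x' - x) n` and `n - f'(x)` is
`(x' - x) (x' + 2 x + a₂)`, of absolute value at most `R ^ 2 / t < κ` for large `t`, so `a n = a (f' x) ≥ κ`. Hence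
`y' ≠ y`, `l = n / (y' - y)`, `a (y' - y) ≤ a y / t`, `a y ^ 2 ≤ R ^ 3`, `a l ^ 2 ≥ κ ^ 2 t ^ 2 / R ^ 3 > R` for large
`t`. So `c = min R (min (κ / R ^ 2) (κ ^ 2 / R ^ 3))`. -/
def S_Cls : Prop :=
  ∀ (L : Type) [Field L] (a : AbsoluteValue L ℝ), IsNonarchimedean a → a 2 = 1 →
    ∀ W : WeierstrassCurve.Affine L, IsNf W → ∃ c t₀ : ℝ, 0 < c ∧ 1 < t₀ ∧
      ∀ (t : ℝ) (P P' : W.Point), t₀ ≤ t → P ≠ 0 → P' ≠ 0 →
        a (px P' - px P) * t ≤ a (px P) → a (py P' - py P) * t ≤ a (py P) →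
        Sm a (c * t ^ 2) (P' - P)

/-- **Vns** (300 lines, uses `S_Pts`, `S_Bas`, `S_Pw`, `S_Vr`, `S_Vh`, `S_Or`, `S_Sbg`). If `V X` is close to
`O` then `X` is close to a point of the kernel of `V`.

Proof. Let `A, Ps` be the polynomials of `E_j` (`S_Pw` for `fr p W j`), of degrees `p` and `n = (p - 1) / 2 ≥ 1`
(`S_Or`: `Od`), `h` the leading coefficient of `Ps`; over `L`: `Ps = h ∏_{i ≤ n} (T - x_i)`, `x_i ∈ L` (`Ps` is
separable, `L` separably closed), and `y_i ∈ L` with `y_i ^ 2 = f(x_i)` (`f` of `E_{j+1}`). `T_i = (x_i, y_i)`,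
`V T_i = O` (`S_Vr` (3)), `y_i ≠ 0` (otherwise `2 T_i = O` and `p T_i = F V T_i = O`, `T_i = O`). If `V X = O` take
`T = X`. Otherwise `X = (x, y)`, `V X = (x', y')`, `x' Ps(x) ^ 2 = A(x)`, `a x' ≥ R`. Let `B` be large
(`Lgc` for `E_{j+1}`, `B ≥ R'`, `B > a x_i`, and such that the leading term of `A` dominates for `a x ≥ B`). Case
`a x ≥ B`: `a x' = a x ^ p / (a h ^ 2 a x ^ (2 n)) = a x / a h ^ 2`; so `a x ≥ a h ^ 2 R ≥ R'` for large `R`,
take `T = O`. Case `a x < B`: `a (A x) ≤ C`, so `a (Ps x) ^ 2 ≤ C / R`, and some `i` satisfies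
`a (x - x_i) ≤ δ`, `δ = ((C / R) ^ (1 / 2) / a h) ^ (1 / n)` (state it as: for every `δ > 0` there is `R` ..).
Replacing `T_i` by `-T_i`: `a (y - y_i) ≤ a (y + y_i)`, hence `a y_i = a (2 y_i) ≤ a (y + y_i)`. If `x = x_i` then
`y = y_i` (`y = - y_i` would give `a (2 y_i) ≤ 0`) and `X = T_i`. Otherwise `X - T_i` has the abscissa
`l ^ 2 - a₂ - x - x_i`, `l = (y + y_i) / (x - x_i)`, `a l ≥ a y_i / δ`; for small `δ` it is `a l ^ 2 ≥ R'`
(`a l ^ 2 > max (a a₂) B`). -/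
def S_Vns : Prop :=
  ∀ (p : ℕ) [Fact p.Prime], p ≠ 2 → ∀ (K : Type) [Field K] [CharP K p]
    (W : WeierstrassCurve K), IsNf W → Od p W → ∀ (j : ℕ) (L : Type) [Field L] [Algebra K L]
    [IsSepClosed L] (a : AbsoluteValue L ℝ), IsNonarchimedean a → ∀ R' : ℝ, ∃ R : ℝ, 0 < R ∧
      ∀ X : Pt p W (j + 1) L, Sm a R (Vi p W j X) →
        ∃ T : Pt p W (j + 1) L, Vi p W j T = 0 ∧ Sm a R' (X - T)

/-- **Lft** (150 lines, uses `S_Vh`, `S_Vs`, `S_It`, `S_Vns`). Points close to `O` have unique small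
preimages under `Vn`.

Proof. (1) Induction on `k`; `k = 0`: `u = s`. Step: let `R₁` be as in `S_Vns` for `j = k` and `R'`, and `R` as in the
induction hypothesis for `R₁`. `s = Vn k u₁`, `Sm R₁ u₁`, `u₁ = Vi X` (`S_Vs`), `T` as in `S_Vns`, `u = X - T`,
`Vi u = u₁`. (2) The kernel of `Vn k` is finite (`S_It` (7)). -/
def S_Lft : Prop :=
  ∀ (p : ℕ) [Fact p.Prime], p ≠ 2 → ∀ (K : Type) [Field K] [CharP K p]
    (W : WeierstrassCurve K), IsNf W → Od p W → ∀ (L : Type) [Field L] [Algebra K L]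
    [IsSepClosed L] (a : AbsoluteValue L ℝ), IsNonarchimedean a → ∀ k : ℕ,
    (∀ R' : ℝ, ∃ R : ℝ, 0 < R ∧ ∀ s : Pt p W 0 L, Sm a R s →
      ∃ u : Pt p W k L, Vn p W k u = s ∧ Sm a R' u) ∧
    ∃ R₁ : ℝ, ∀ u : Pt p W k L, Vn p W k u = 0 → Sm a R₁ u → u = 0

/-- **Rmf** (300 lines, uses `MP72P.S_Lc1`, `MP72P.S_Lc2`). Deeply ramified extensions move elements
by a small amount.

Proof. `K_v = v.Completion`, `℘(y) = y ^ p - y` (additive). The numbers `‖D - ℘(y)‖`, `y ∈ K_v`, are powers of `v ϖ`,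
at least `M > 1`; let `y` be such that it is minimal, `D' = D - ℘(y)`, `θ' = θ - y`; `θ' ^ p - θ' = D'`,
`g θ' = θ' + h g`, `nm θ' ^ p = ‖D'‖ ≥ M`. `‖D'‖ = v ϖ ^ (- n)`, `n ≥ 1`, and `p ∤ n`: if `n = p n'` let
`c ∈ K_v`, `c ^ Q = c`, `‖ϖ ^ n D' - c‖ < 1` (`MP72P.S_Lc1` (9)), `c = c₁ ^ p` with `c₁ = c ^ (Q / p)`,
`z = c₁ ϖ ^ (- n')`: `‖D' - ℘(z)‖ ≤ max (‖ϖ ^ n D' - c‖ ‖D'‖) ‖z‖ < ‖D'‖`, contradicting the minimality. So the
numbers `nm (θ' ^ i)`, `0 ≤ i < p`, are in different classes modulo the powers of `v ϖ`, and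
`nm (∑ c_i θ' ^ i) = max (nm c_i * nm θ' ^ i)` for `c_i ∈ K_v`. If `z` is fixed by all `g` with `h g = 0`, i.e. by
all `g` which fix `θ'`, then `z ∈ K_v(θ')` (Galois theory), so `z = ∑_{i < p} c_i θ' ^ i`, and
`nm ((θ' + c) ^ i - θ' ^ i) ≤ nm θ' ^ (i - 1)` for `c` in the prime field, `i ≥ 1`; hence
`nm (g z - z) * nm θ' ≤ nm z`. (2) If `h = 0` then `θ ∈ K_v` and `D - ℘(θ) = 0`; `h` is a homomorphism, so it is
surjective. -/
def S_Rmf : Prop :=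
  ∀ (p : ℕ) [Fact p.Prime] (K : Type) [Field K] [CharP K p] (v : AbsoluteValue K ℝ) (Q : ℕ)
    (ϖ : K) (R : Finset K), MP72P.LF v p Q ϖ R →
    ∀ (D : v.Completion) (h : Gal(Kvs v/v.Completion) → ZMod p), IsTh p D h →
      ∀ M : ℝ, 1 < M → (∀ y : v.Completion, M ≤ ‖D - (y ^ p - y)‖) →
      (∀ z : Kvs v, (∀ g : Gal(Kvs v/v.Completion), h g = 0 → g z = z) →
        ∀ g : Gal(Kvs v/v.Completion), nm v (g z - z) ^ p * M ≤ nm v z ^ p) ∧
      ∀ c : ZMod p, ∃ g, h g = c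

/-- **Deep** (300 lines, uses `S_Bas`, `S_Fr`, `S_Vh`, `S_It`, `S_Nma`, `S_Sbg`, `S_Cls`, `S_Vns`, `S_Lft`,
`S_Rmf`). Local points for deeply ramified `D`.

Proof. `L = Kvs v`, `a` as in `S_Nma`. All the constants: `R₁` as in `S_Lft` (2); `R_k ≥ R₁` with `Lgc` for `E_k`; `R_s`
with `Lgc` for `E_0`, at least as large as in `S_Lft` (1) for `R' = R_k`, and larger than the abscissae of the
multiples of `T0`; `R_V` as in `S_Vns` for `j = 0`, `R' = R_s ^ p`; `c, t₀` as in `S_Cls` for `E_0`; `t ≥ t₀` with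
`c t ^ 2 ≥ max R_V R_s`; `M = t ^ p`. Let `e` be as in the statement, `P = e 0`, `g_i` with `h g_i = i` (`S_Rmf` (2));
`e i = g_i P`, and `g P = P` if `h g = 0`. (a) For all `g`: `Sm (c t ^ 2) (g P - P)`: `S_Rmf` (1) for the coordinates of
`P` gives `a (g x - x) * t ≤ a x`, and `S_Cls`. (b) `p P = ∑ (P - e i)`, so `Sm (c t ^ 2) (p P)` (`S_Sbg`), and
`p P = V (F P)` (`S_Vh` (3)): by `S_Vns` there is `T`, `V T = O`, `Sm (R_s ^ p) (F P - T)`. The kernel of `V` on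
`E_1(L)` has at most `p` elements, so it consists of the `F (m T0)`, `0 ≤ m < p`; `T = F (m T0)` and
`F P - T = F (P - m T0)`, so `Sm R_s (P - m T0)` (`px (F Z) = px Z ^ p`). (c) For all `g`:
`g (m T0) - m T0 = (g P - P) - (g s - s)`, `s = P - m T0`, satisfies `Sm R_s` (`a (px (g s)) = a (px s)`), and it
is killed by `p`, so it is a multiple of `T0` (as above: the points killed by `p` are mapped injectively to the
kernel of `V` by `F`) and hence `O` by the choice of `R_s`. So `m T0` is fixed by the Galois group; if `m ≠ 0`, then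
`T0` is, as a multiple of `m T0`. (d) `s i = e i - m T0 = g_i s` satisfies `Sm R_s`, `∑ s i = O` (`p (m T0) = O`),
and `s` is fixed by the twisted action. Let `u i ∈ E_k(L)` with `Vn (u i) = s i`, `Sm R_k (u i)` (`S_Lft` (1)); it
is unique (`S_Sbg` for `E_k`, `S_Lft` (2)), so `∑ u i = O` and `u` is fixed by the twisted action
(`pmap g (u (i - h g))` has the same properties as `u i`). -/
def S_Deep : Prop :=
  ∀ (p : ℕ) [Fact p.Prime], p ≠ 2 → ∀ (K : Type) [Field K] [CharP K p]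
    (W : WeierstrassCurve K), IsNf W → Od p W → ∀ (v : AbsoluteValue K ℝ) (Q : ℕ)
    (ϖ : K) (R : Finset K), MP72P.LF v p Q ϖ R →
    ∀ (k : ℕ) (T0 : Pt p W 0 (Kvs v)), T0 ≠ 0 → p • T0 = 0 → ∃ M : ℝ, 1 < M ∧
      ∀ (D : v.Completion) (h : Gal(Kvs v/v.Completion) → ZMod p), IsTh p D h →
        (∀ y : v.Completion, M ≤ ‖D - (y ^ p - y)‖) →
        ∀ e : ZMod p → Pt p W 0 (Kvs v), ∑ i, e i = 0 → Twf p W h 0 e →
        ∃ (m : ℕ) (u : ZMod p → Pt p W k (Kvs v)), m < p ∧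
          (m = 0 ∨ ∀ g : Gal(Kvs v/v.Completion),
            pmap (fr p W 0) (g : Kvs v →ₐ[v.Completion] Kvs v) T0 = T0) ∧
          ∑ i, u i = 0 ∧ Twf p W h k u ∧ ∀ i, e i = m • T0 + Vn p W k (u i)

/-- **Rcl** (200 lines, uses `S_Pts`, `S_Sbg`). Good reduction: points with the same reduction.

Proof. (1) Every `R > 1` satisfies `Lgc a W R`; use `S_Sbg` with `R = min (a (px P)) (a (px Q))`. (2) Let
`P = (x, y)`, `P' = (x', y')`, `P' ≠ P`; by the identity (B) (`a Δ = 1`, `Δ = 16 disc(f)`) one of `f(x)`, `f'(x)` is a unit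
(absolute value `1`). If `x' = x` then `y' = - y ≠ y`, `a (2 y) < 1`, so `a (f x) < 1`, `a (f' x) = 1`, and `P' - P = - 2 P`
has the abscissa `l ^ 2 - a₂ - 2 x`, `l = f'(x) / (2 y)`, `a l > 1`. Otherwise `l = (y' + y) / (x' - x)`: if `a y = 1` then
`a (y' + y) = a (2 y + (y' - y)) = 1` and `a l > 1`. If `a y < 1` then `a (f' x) = 1` and
`n = x' ^ 2 + x x' + x ^ 2 + a₂ (x + x') + a₄` satisfies `(y' - y) (y' + y) = (x' - x) n`, `a (n - f' x) < 1`, so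
`a n = 1`, `y' ≠ y`, `l = n / (y' - y)`, `a l > 1`. (3) `y ^ 2 = f(x)`. -/
def S_Rcl : Prop :=
  ∀ (L : Type) [Field L] (a : AbsoluteValue L ℝ), IsNonarchimedean a → a 2 = 1 →
    ∀ W : WeierstrassCurve.Affine L, IsNf W → Gr a W →
    (∀ P Q : W.Point, (P = 0 ∨ 1 < a (px P)) → (Q = 0 ∨ 1 < a (px Q)) →
      (P + Q = 0 ∨ 1 < a (px (P + Q))) ∧ (P - Q = 0 ∨ 1 < a (px (P - Q)))) ∧
    (∀ P P' : W.Point, P ≠ 0 → P' ≠ 0 → a (px P) ≤ 1 → a (px P') ≤ 1 →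
      a (px P' - px P) < 1 → a (py P' - py P) < 1 → P' - P = 0 ∨ 1 < a (px (P' - P))) ∧
    ∀ P : W.Point, a (px P) ≤ 1 → a (py P) ≤ 1

/-- **Itg** (200 lines, uses `S_Bas`, `S_Deg`, `S_Pw`). Integrality of the polynomials; the curves `E_j`.

Proof. Let `R = {x | v x ≤ 1}`, a subring of `K` (`v` nonarchimedean), `W = W₀.map (R → K)`. By `S_Deg` (2)
`mf W p`, `mg W p` have coefficients in `R`; so the coefficients of `A` and of `Ps ^ 2` are in `R`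
(`expand`). `Ps`: let `i` be the smallest index with `v (Ps.coeff i)` maximal, `= μ`; the coefficient of `T ^ (2 i)` of
`Ps ^ 2` has the absolute value `μ ^ 2`, so `μ ≤ 1`. (2) the coefficients and the discriminant of `E_j` are
the `p ^ j`-th powers of those of `W` (`fr p W j = W.map (iterateFrobenius K p j)`); `ps`: by `S_Pw` the
polynomials of `E_j` are `A.map (iterateFrobenius ..)`, `± Ps.map (iterateFrobenius ..)`. (3) map to `L`. -/
def S_Itg : Prop :=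
  ∀ (p : ℕ) [Fact p.Prime], p ≠ 2 → ∀ (K : Type) [Field K] [CharP K p]
    (W : WeierstrassCurve K), IsNf W → ∀ v : AbsoluteValue K ℝ, IsNonarchimedean v → Gd p W v →
    (∀ A Ps : K[X], IsPs W p A Ps → ∀ i, v (A.coeff i) ≤ 1 ∧ v (Ps.coeff i) ≤ 1) ∧
    ∀ j : ℕ, Gd p (fr p W j) v ∧
      ∀ (L : Type) [Field L] [Algebra K L] (a : AbsoluteValue L ℝ),
        (∀ x : K, a (algebraMap K L x) = v x) → Gr a ((fr p W j)⁄L).toAffine

/-- **Kit** (200 lines, uses `S_Bas`, `S_Pw`, `S_Fr`, `S_Vr`, `S_Vh`, `S_It`, `S_Itg`). Good reduction: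
`V` and the abscissae.

Proof. `A, Ps` the polynomials of `E_j`, `n = natDegree Ps = (p - 1) / 2`, `A` monic of degree `p`, the leading
coefficient of `Ps` is a unit, the coefficients are integral (`S_Itg`). (1) Let `V T = (x', y')`, `a x' ≤ 1` or
`V T = O`. In the first case `T = (x, y)` with `A(x) - x' Ps(x) ^ 2 = 0`, a monic polynomial of degree `p` with
integral coefficients; in the second case `T = O` or `Ps(x) = 0`. So `a x ≤ 1`. (2) by induction on `k`.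
(3) Let `X = (x, y)`, `a x > 1`: `a (A x) = a x ^ p`, `a (Ps x) = a x ^ n ≠ 0`, so `V X ≠ O` and
`a (px (V X)) = a x ^ p / a x ^ (2 n) = a x`. (4) `p P = V (F P)`, `px (F P) = px P ^ p`. -/
def S_Kit : Prop :=
  ∀ (p : ℕ) [Fact p.Prime], p ≠ 2 → ∀ (K : Type) [Field K] [CharP K p]
    (W : WeierstrassCurve K), IsNf W → ∀ v : AbsoluteValue K ℝ, IsNonarchimedean v → Gd p W v →
    ∀ (L : Type) [Field L] [Algebra K L] (a : AbsoluteValue L ℝ), IsNonarchimedean a →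
      (∀ x : K, a (algebraMap K L x) = v x) →
    (∀ (j : ℕ) (T : Pt p W (j + 1) L), (Vi p W j T = 0 ∨ a (px (Vi p W j T)) ≤ 1) →
      T = 0 ∨ a (px T) ≤ 1) ∧
    (∀ (k : ℕ) (T : Pt p W k L), Vn p W k T = 0 → T = 0 ∨ a (px T) ≤ 1) ∧
    (∀ (j : ℕ) (X : Pt p W (j + 1) L), X ≠ 0 → 1 < a (px X) →
      Vi p W j X ≠ 0 ∧ a (px (Vi p W j X)) = a (px X)) ∧
    ∀ P : Pt p W 0 L, P ≠ 0 → 1 < a (px P) → p • P ≠ 0 ∧ a (px (p • P)) = a (px P) ^ p

/-- **Ine** (120 lines, uses `S_Bas`, `S_It`, `S_Itg`, `S_Rcl`, `S_Kit`). Automorphisms which act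
trivially modulo the maximal ideal fix the preimages of fixed points under `Vn`.

Proof. `D = g X - X` satisfies `Vn D = O`, so `D = O` or `a (px D) ≤ 1` (`S_Kit` (2)). On the other hand `D = O` or
`a (px D) > 1`: clear if `X = O`; if `a (px X) > 1` then also `a (px (g X)) > 1`, `S_Rcl` (1); if `a (px X) ≤ 1`
then `a (py X) ≤ 1` and the coordinates of `g X` are congruent to those of `X`, `S_Rcl` (2). -/
def S_Ine : Prop :=
  ∀ (p : ℕ) [Fact p.Prime], p ≠ 2 → ∀ (K : Type) [Field K] [CharP K p]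
    (W : WeierstrassCurve K), IsNf W → ∀ v : AbsoluteValue K ℝ, IsNonarchimedean v → Gd p W v →
    ∀ (L : Type) [Field L] [Algebra K L] (a : AbsoluteValue L ℝ), IsNonarchimedean a →
      (∀ x : K, a (algebraMap K L x) = v x) →
    ∀ (S : Type) [Field S] [Algebra K S] [Algebra S L] [IsScalarTower K S L] (g : L →ₐ[S] L),
      (∀ z, a (g z) = a z) → (∀ z, a z ≤ 1 → a (g z - z) < 1) →
      ∀ (k : ℕ) (X : Pt p W k L), pmap (fr p W 0) g (Vn p W k X) = Vn p W k X →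
        pmap (fr p W k) g X = X

/-- **Rsd** (150 lines, uses `MP72P.S_Lc1`, `MP72P.S_Lc2`, `MP72P.S_Cst`). Residues of elements of `Kvs v`.

Proof. (1) By definition of the spectral norm the minimal polynomial `P` of `z` over `K_v` has integral coefficients; by
`MP72P.S_Lc1` (9) they are congruent to constants `c_i ∈ K_v`, `c_i ^ Q = c_i`. Let `P̄ = T ^ n + ∑ c_i T ^ i`;
`nm (P̄ z) = nm (P̄ z - P z) < 1`. By `MP72P.S_Cst` (5) (applied repeatedly, or: `P̄` splits over `Kvs v` with roots in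
`Cst`) `P̄ = ∏ (T - d_i)`, `d_i ∈ Cst`, so `nm (z - d_i) < 1` for some `i`. (2) `c` as in (1): `g c = c`
(`IsGeo`), `g z - z = g (z - c) - (z - c)`. (3) the root `θ` satisfies `nm θ ≤ 1` (`θ ^ p - θ = D`,
`‖D‖ ≤ 1`), so `nm (g θ - θ) < 1` and `g θ - θ = op (h g)` is a constant, `0` or of norm `1`. -/
def S_Rsd : Prop :=
  ∀ (p : ℕ) [Fact p.Prime] (K : Type) [Field K] [CharP K p] (v : AbsoluteValue K ℝ) (Q : ℕ)
    (ϖ : K) (R : Finset K), MP72P.LF v p Q ϖ R →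
    (∀ z : Kvs v, nm v z ≤ 1 → ∃ c ∈ MP72P.Cst p (Kvs v), nm v (z - c) < 1) ∧
    (∀ g : Gal(Kvs v/v.Completion), MP72P.IsGeo p g → ∀ z, nm v z ≤ 1 → nm v (g z - z) < 1) ∧
    ∀ (D : v.Completion) (h : Gal(Kvs v/v.Completion) → ZMod p), IsTh p D h → ‖D‖ ≤ 1 →
      ∀ g : Gal(Kvs v/v.Completion), MP72P.IsGeo p g → h g = 0

/-- **Unv** (120 lines, uses `S_It`, `S_Rk`, `S_Nma`, `S_Ine`, `S_Rsd`). The places of good ordinary
reduction where `D` is integral.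

Proof. (1) `Vn` is surjective (`S_Rk` (1)): choose `X i` for `i ≠ 0`, and `X 0 = - ∑_{i ≠ 0} X i`
(`∑ e i = O`). (2) `h g = 0` for geometric `g` (`S_Rsd` (3)), so `pmap g (e i) = e i` and `pmap g (X i) = X i` by
`S_Ine`, `S_Rsd` (2). -/
def S_Unv : Prop :=
  ∀ (p : ℕ) [Fact p.Prime], p ≠ 2 → ∀ (K : Type) [Field K] [CharP K p]
    (W : WeierstrassCurve K), IsNf W → Od p W → ∀ (v : AbsoluteValue K ℝ) (Q : ℕ)
    (ϖ : K) (R : Finset K), MP72P.LF v p Q ϖ R →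
    (∀ (k : ℕ) (e : ZMod p → Pt p W 0 (Kvs v)), ∑ i, e i = 0 →
      ∃ X : ZMod p → Pt p W k (Kvs v), ∑ i, X i = 0 ∧ ∀ i, Vn p W k (X i) = e i) ∧
    (Gd p W v → ∀ (D : v.Completion) (h : Gal(Kvs v/v.Completion) → ZMod p), IsTh p D h →
      ‖D‖ ≤ 1 → ∀ (k : ℕ) (e : ZMod p → Pt p W 0 (Kvs v)), Twf p W h 0 e →
      ∀ X : ZMod p → Pt p W k (Kvs v), (∀ i, Vn p W k (X i) = e i) →
      ∀ g : Gal(Kvs v/v.Completion), MP72P.IsGeo p g → h g = 0 ∧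
        ∀ i, pmap (fr p W k) (g : Kvs v →ₐ[v.Completion] Kvs v) (X i) = X i)

/-- **Wu1** (150 lines, uses `S_Pts`, `S_Bas`, `S_Sl`, `S_Nz`, `S_It`, `S_Itg`, `S_Rcl`, `S_Kit`). Unit values
at places of good reduction.

Proof. (1) `S_Kit` (2), `Vn (m • R) = O`. (2) every factor `fv R (i • R) c` has absolute value `1`. Let
`A = R`, `B = i • R`. If `A = O` or `B = O`: `fv = 1`. If `A + B = O`: `fv = px c - px A`. Otherwise
`sl A B ^ 2 = px (A + B) + a₂ + px A + px B`, so `a (sl A B) ≤ 1`; `a (py A) ≤ 1`, `a (py c) ≤ 1` (`S_Rcl` (3)). So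
`a (nv A B c) ≤ 1`, `a (nv A B (-c)) ≤ 1`, and by `S_Nz` (1) the absolute value of their product is
`a (px c - px A) a (px c - px B) a (px c - px (A + B)) = 1`; so `a (nv A B c) = 1`, and
`dv A B c = px c - px (A + B)`. -/
def S_Wu1 : Prop :=
  ∀ (p : ℕ) [Fact p.Prime], p ≠ 2 → ∀ (K : Type) [Field K] [CharP K p]
    (W : WeierstrassCurve K), IsNf W → ∀ v : AbsoluteValue K ℝ, IsNonarchimedean v → Gd p W v →
    ∀ (L : Type) [Field L] [Algebra K L] (a : AbsoluteValue L ℝ), IsNonarchimedean a →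
      (∀ x : K, a (algebraMap K L x) = v x) → ∀ (k : ℕ) (R : Pt p W k L), IsR p W k R →
    (∀ T ∈ AddSubgroup.zmultiples R, T ≠ 0 → a (px T) ≤ 1) ∧
    ∀ c : Pt p W k L, c ≠ 0 → a (px c) ≤ 1 →
      (∀ T ∈ AddSubgroup.zmultiples R, T ≠ 0 → a (px c - px T) = 1) →
      ∀ n : ℕ, a (wn n R c) = 1

/-- **Wu2** (300 lines, uses `S_Pts`, `S_AS`). The choice of an auxiliary point.

Proof. Let `x = px P`. We choose `x₀` in the set `s` of `Rsf` (only finitely many elements of `s` are excluded by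
each of the following conditions, since a polynomial with integral coefficients, one of which is a unit, has
absolute value `< 1` at not more elements of `s` than its degree: divide by the residues, or: if it is
`< 1` at `x₁, .., x_m ∈ s`, `m` larger than the degree, then by Lagrange interpolation (the differences are
units) all coefficients are `< 1`): `a (x₀ - h) = 1` for `h ∈ H`; `a (f x₀) = 1`; and if `a x ≤ 1`:
`a (x₀ - x) = 1` and `a (g_h(x₀)) = 1` for `h ∈ H`, where `g_h(T) = (x - h) ^ 2 T ^ 2 -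
(2 a₄ x + 4 a₆ + h (2 x ^ 2 + 4 a₂ x + 2 a₄) + 2 h ^ 2 x) T +
(h ^ 2 x ^ 2 - 4 a₆ x - (4 a₂ a₆ - a₄ ^ 2) - 2 a₄ h x - 4 a₆ h)`. One of the coefficients of `g_h` is a unit: if
`a (x - h) < 1` then modulo elements of absolute value `< 1` they are `0`, `- 4 f(x)`, `f'(x) ^ 2 - 4 f(x) (a₂ + 2 x)`,
and one of `f(x)`, `f'(x)` is a unit by (B). Let `y₀ ^ 2 = f(x₀)` (`Rsf`), `c = (x₀, y₀)`. `x₀ ≠ x`, so `c ± P ≠ O`;
let `X₊ = px (c + P)`, `X₋ = px (c - P)`. By `S_AS` (for `c`, `P`): `X₊ X₋ = N₀ / (x - x₀) ^ 2`,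
`X₊ + X₋ = N₁ / (x - x₀) ^ 2` with `N₀ = (x x₀) ^ 2 - 2 a₄ x x₀ - 4 a₆ (x + x₀) - (4 a₂ a₆ - a₄ ^ 2)`,
`N₁ = 2 (x + x₀) x x₀ + 4 a₂ x x₀ + 2 a₄ (x + x₀) + 4 a₆`. If `a x ≤ 1`, `a (x - x₀) = 1`; if `a x > 1`,
`a (x - x₀) = a x`; in both cases `a N₀`, `a N₁ ≤ a (x - x₀) ^ 2`, so `X₊`, `X₋` are roots of a monic quadratic
polynomial with integral coefficients, `a X₊, a X₋ ≤ 1`. For `h ∈ H`:
`(X₊ - h) (X₋ - h) (x - x₀) ^ 2 = N₀ - h N₁ + h ^ 2 (x - x₀) ^ 2 = g_h(x₀)`. If `a x ≤ 1` it is a unit; if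
`a x > 1` it is `x ^ 2 (x₀ - h) ^ 2` plus terms of degree `≤ 1` in `x` with integral coefficients, of absolute value
`a x ^ 2`. So `a (X₊ - h) * a (X₋ - h) = 1` with both factors `≤ 1`. -/
def S_Wu2 : Prop :=
  ∀ (L : Type) [Field L] (a : AbsoluteValue L ℝ), IsNonarchimedean a → a 2 = 1 → Rsf a →
    ∀ W : WeierstrassCurve.Affine L, IsNf W → Gr a W →
    ∀ (H : Set L), H.Finite → (∀ h ∈ H, a h ≤ 1) → ∀ P : W.Point, P ≠ 0 →
    ∃ c : W.Point, c ≠ 0 ∧ c + P ≠ 0 ∧ c - P ≠ 0 ∧ a (px c) ≤ 1 ∧ a (px (c + P)) ≤ 1 ∧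
      a (px (c - P)) ≤ 1 ∧ ∀ h ∈ H, a (px c - h) = 1 ∧ a (px (c + P) - h) = 1 ∧
        a (px (c - P) - h) = 1

/-- **Unr** (120 lines, uses `S_Bas`, `S_It`, `S_WAd`, `S_Nz`, `S_Itg`, `S_Wu1`, `S_Wu2`). The absolute
values of `wn (p ^ k) R P` at places of good reduction are `p ^ k`-th powers.

Proof. `k = 0`: `wn 1 R P = fv R 0 P = 1`. `k ≥ 1`: `G = ⟨R⟩` is finite, `P ∉ G`, `P ≠ O`; let `c` be as in `S_Wu2` for
`H = {px T | T ∈ G, T ≠ O}` (`S_Wu1` (1)). `c`, `c + P`, `c - P` are not in `G` (a nonzero element `T` of `G` has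
`a (px T - px T) = 0`). So `Gen G c P`, and by `S_WAd` (2) (`p ^ k • R = O`, `Av c P 0 = 1`):
`wn c * wn P = wn (c + P) * Av c P R ^ (p ^ k)`; by `S_Wu1` (2) `a (wn c) = a (wn (c + P)) = 1`. Take
`z = Av c P R ≠ 0` (`S_Nz` (3)). -/
def S_Unr : Prop :=
  ∀ (p : ℕ) [Fact p.Prime], p ≠ 2 → ∀ (K : Type) [Field K] [CharP K p]
    (W : WeierstrassCurve K), IsNf W → ∀ v : AbsoluteValue K ℝ, IsNonarchimedean v → Gd p W v →
    ∀ (L : Type) [Field L] [Algebra K L] (a : AbsoluteValue L ℝ), IsNonarchimedean a →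
      (∀ x : K, a (algebraMap K L x) = v x) → Rsf a →
    ∀ (k : ℕ) (R P : Pt p W k L), IsR p W k R → P ∉ AddSubgroup.zmultiples R →
      ∃ z : L, z ≠ 0 ∧ a (wn (p ^ k) R P) = a z ^ p ^ k

/-- **Unw** (150 lines, uses `S_Pts`, `S_Bas`, `S_It`, `S_Wmp`, `S_WAd`, `S_Itg`, `S_Unr`). The same for
the homomorphism `w` over a separably closed extension.

Proof. `E_0(L)` is infinite: for `x ∈ s` (`Rsf`) with `a (f x) = 1` (all but finitely many) there is `y` with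
`y ^ 2 = f(x)`. `Fn` is injective and `⟨R⟩` finite, so there is `q ∈ E_0(L)` with `P' = P + Fn q ∉ ⟨R⟩`. With
`ι = Algebra.ofId L M`, `ι P' ∉ ⟨ι R⟩` (injectivity): `w (ι P) ≡ w (ι P')` (`IsWt.add`, `IsWt.ker`,
`ι (Fn q) = Fn (ι q)`) `≡ wn (p ^ k) (ι R) (ι P') = ι (wn (p ^ k) R P')` (`S_Wmp`). `r = wn (p ^ k) R P' ≠ 0`
(`S_WAd` (1)), `S_Unr`. -/
def S_Unw : Prop :=
  ∀ (p : ℕ) [Fact p.Prime], p ≠ 2 → ∀ (K : Type) [Field K] [CharP K p]
    (W : WeierstrassCurve K), IsNf W → ∀ v : AbsoluteValue K ℝ, IsNonarchimedean v → Gd p W v →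
    ∀ (L : Type) [Field L] [Algebra K L] (a : AbsoluteValue L ℝ), IsNonarchimedean a →
      (∀ x : K, a (algebraMap K L x) = v x) → Rsf a →
    ∀ (M : Type) [Field M] [Algebra K M] [Algebra L M] [IsScalarTower K L M] (k : ℕ)
      (R P : Pt p W k L), IsR p W k R → ∀ w : Pt p W k M → M,
      IsWt p W k (pmap (fr p W k) (Algebra.ofId L M) R) w →
      ∃ r z : L, r ≠ 0 ∧ z ≠ 0 ∧ a r = a z ^ p ^ k ∧
        EqN (p ^ k) (w (pmap (fr p W k) (Algebra.ofId L M) P)) (algebraMap L M r)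

end Pool.Agent.MP72V
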