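import Pool.Agent.Lib.MP_72e2e6_nt.WP.Lo.Spec

/-!
# MP_72e2e6_nt, T3p, Lo/Unv: the places of good ordinary reduction where `D` is integral
-/

set_option autoImplicit false

namespace Pool.Agent.MP72V

open Polynomial WeierstrassCurve
open Pool.Agent.MP72W (pmap)
open Pool.Agent.MP72P (EqN Kvs Kgs nm op rsH)
open Pool.Agent

open scoped Classical

private theorem unv_pre (h1 : S_It) (h2 : S_Rk) {p : ℕ} [Fact p.Prime] (hp : p ≠ 2) {K : Type}
    [Field K] [CharP K p] {W : WeierstrassCurve K} (hW : IsNf W) (hO : Od p W) {L : Type}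
    [Field L] [inst : DecidableEq L] [Algebra K L] [IsSepClosed L] (k : ℕ)
    (e : ZMod p → Pt p W 0 L) (he : ∑ i, e i = 0) :
    ∃ X : ZMod p → Pt p W k L, ∑ i, X i = 0 ∧ ∀ i, Vn p W k (X i) = e i := by
  obtain rfl : inst = fun a b => Classical.propDecidable (a = b) := Subsingleton.elim _ _
  choose X₀ hX₀ using ((h2 p hp K W hW L).1 hO).1 k
  let φ : Pt p W k L →+ Pt p W 0 L :=
    AddMonoidHom.mk' (Vn p W k) ((h1 p hp K W hW L).2.1 k)
  have hφ : ∀ i, φ (X₀ (e i)) = e i := fun i => hX₀ (e i)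
  refine ⟨fun i => X₀ (e i) - (if i = 0 then ∑ j, X₀ (e j) else 0), ?_, fun i => ?_⟩
  · rw [Finset.sum_sub_distrib, Finset.sum_ite_eq' Finset.univ (0 : ZMod p) fun _ => ∑ j, X₀ (e j),
      if_pos (Finset.mem_univ _), sub_self]
  · change φ (X₀ (e i) - (if i = 0 then ∑ j, X₀ (e j) else 0)) = e i
    rw [map_sub, hφ]
    split_ifs with h
    · rw [map_sum, Finset.sum_congr rfl fun j _ => hφ j, he, sub_zero]
    · rw [map_zero, sub_zero]

theorem tUnv (h1 : S_It) (h2 : S_Rk) (h3 : S_Nma) (h4 : S_Ine) (h5 : S_Rsd) : S_Unv := by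
  intro p _ hp K _ _ W hW hO v Q ϖ R hL
  refine ⟨?_, ?_⟩
  · intro k e he
    exact unv_pre h1 h2 hp hW hO k e he
  · intro hG D h hTh hD k e he X hX g hg
    obtain ⟨-, r2, r3⟩ := h5 p K v Q ϖ R hL
    have hg0 : h g = 0 := r3 D h hTh hD g hg
    refine ⟨hg0, fun i => ?_⟩
    obtain ⟨a, ha1, ha2, ha3, ha4⟩ := h3 p K v Q ϖ R hL
    refine h4 p hp K W hW v hL.na hG (Kvs v) a ha2 ha3 v.Completion
      (g : Kvs v →ₐ[v.Completion] Kvs v) (fun z => ha4 g z) (fun z hz => ?_) k (X i) ?_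
    · rw [ha1] at hz
      rw [ha1]
      exact r2 g hg z hz
    · have e1 := he g i
      rw [hg0, sub_zero] at e1
      rw [hX i]
      exact e1.symm

end Pool.Agent.MP72V
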